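import Pool.Agent.Helper90.C9.C9A
import Pool.Agent.Helper90.CX.K9M

/-!
Row K9 (MP_c75db0), digits of 128 bits: general facts on digits for the matrix side.

* `decode` : `((y land M01) + C) - ((y >>> 256) land M0)`;
* `abs_digits` : absolute differences of digits by masks;
* `max_digits` : maximum of digits by masks;
* `spread` : a vector of 9 entries in the slots `30 K`;
* `mul_rep` : product by `pk (B ^ m) n 1`, `kron`.
-/

set_option autoImplicit false
noncomputable section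
namespace Pool.Agent.Helper90.DG

open Pool.Agent.Helper90.K9 (pk pz pk_zero pk_succ pz_succ pk_cast pk_congr pz_congr pk_add pz_add
  pz_sub pk_smul pz_smul pz_last pk_last pk_split pk_nest pk_lt pk_inj land_split shl_pk land_pk
  drop_pk)
open Pool.Agent.Helper90.C9 (xor_split xor_pk xor_compl)

theorem pB : (0 : ℕ) < 2 ^ 128 := by positivity

theorem pk_zeros' (b : ℕ) (k : ℕ) (f : ℕ → ℕ) (hf : ∀ i < k, f i = 0) : pk b k f = 0 := by
  rw [pk_congr b k f (fun _ => 0) hf]
  exact Pool.Agent.Helper90.C9.pk_zeros b k _ (fun _ => rfl)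

/-- more digits -/
theorem pk_extend (b n m : ℕ) (f : ℕ → ℕ) (h : ∀ k, n ≤ k → k < n + m → f k = 0) :
    pk b (n + m) f = pk b n f := by
  rw [pk_split, pk_zeros' b m _ (fun i hi => h (n + i) (by omega) (by omega)), Nat.mul_zero,
    Nat.add_zero]

theorem land0 {e : ℕ} (n : ℕ) (f g : ℕ → ℕ) (hf : ∀ i < n, f i < 2 ^ e) (hg : ∀ i < n, g i < 2 ^ e) :
    pk (2 ^ e) n f &&& pk (2 ^ e) n g = pk (2 ^ e) n (fun i => f i &&& g i) := by
  have h := land_pk (e := e) n f g 0 hf hg
  rw [Nat.mul_zero, Nat.add_zero] at h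
  exact h

theorem mask_full {e a : ℕ} (h : a < 2 ^ e) : a &&& (2 ^ e - 1) = a := by
  rw [Nat.and_two_pow_sub_one_eq_mod, Nat.mod_eq_of_lt h]

/-- selecting digits by full masks -/
theorem land_sel (n : ℕ) (f : ℕ → ℕ) (p : ℕ → Prop) [DecidablePred p] (hf : ∀ i < n, f i < 2 ^ 128) :
    pk (2 ^ 128) n f &&& pk (2 ^ 128) n (fun k => if p k then 2 ^ 128 - 1 else 0) =
      pk (2 ^ 128) n (fun k => if p k then f k else 0) := by
  rw [land0 n f _ hf (fun i _ => by split_ifs <;> norm_num)]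
  refine pk_congr _ _ _ _ fun k hk => ?_
  by_cases h : p k
  · rw [if_pos h, if_pos h, mask_full (hf k hk)]
  · rw [if_neg h, if_neg h, Nat.and_zero]

/-- dropping the two lowest digits -/
theorem shr2 (n : ℕ) (f : ℕ → ℕ) (hf : ∀ i < n + 2, f i < 2 ^ 128) :
    pk (2 ^ 128) (n + 2) f >>> 256 = pk (2 ^ 128) n (fun k => f (k + 2)) := by
  have e : (2 : ℕ) ^ 256 = 2 ^ 128 * 2 ^ 128 := by rw [← pow_add]
  have h1 : pk (2 ^ 128) (n + 2) f = f 0 + 2 ^ 128 * (f 1 + 2 ^ 128 * pk (2 ^ 128) n (fun k => f (k + 2))) :=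
    rfl
  rw [Nat.shiftRight_eq_div_pow, e, ← Nat.div_div_eq_div_mul, h1,
    Nat.add_mul_div_left _ _ pB, Nat.div_eq_of_lt (hf 0 (by omega)), Nat.zero_add,
    Nat.add_mul_div_left _ _ pB, Nat.div_eq_of_lt (hf 1 (by omega)), Nat.zero_add]

/-- DECODE -/
theorem decode {n : ℕ} {f c : ℕ → ℕ} {e0 e1 : ℕ → Bool} {y M01 M0 C : ℕ}
    (hy : y = pk (2 ^ 128) n f)
    (hM01 : M01 = pk (2 ^ 128) n (fun k => if e0 k = true ∨ e1 k = true then 2 ^ 128 - 1 else 0))
    (hM0 : M0 = pk (2 ^ 128) n (fun k => if e0 k = true then 2 ^ 128 - 1 else 0))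
    (hC : C = pk (2 ^ 128) n c)
    (hc : ∀ k < n, ¬ (e0 k = true ∨ e1 k = true) → c k = 0)
    (hf : ∀ k < n, f k < 2 ^ 128)
    (he : ∀ k < n, e0 k = true → k + 2 < n)
    (hs : ∀ k < n, e0 k = true → f (k + 2) ≤ f k + c k) :
    ((y &&& M01) + C) - ((y >>> 256) &&& M0) =
      pk (2 ^ 128) n (fun k => if e0 k = true then f k + c k - f (k + 2)
        else if e1 k = true then f k + c k else 0) := by
  have h1 : y &&& M01 = pk (2 ^ 128) n (fun k => if e0 k = true ∨ e1 k = true then f k else 0) := by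
    rw [hy, hM01]
    exact land_sel n f (fun k => e0 k = true ∨ e1 k = true) hf
  have h2 : (y >>> 256) &&& M0 = pk (2 ^ 128) n (fun k => if e0 k = true then f (k + 2) else 0) := by
    rcases Nat.lt_or_ge n 2 with hn | hn
    · -- no digit is selected
      have hM : M0 = 0 := by
        rw [hM0]
        refine pk_zeros' _ _ _ fun k hk => ?_
        rw [if_neg]
        intro h
        have := he k hk h
        omega
      have hR : pk (2 ^ 128) n (fun k => if e0 k = true then f (k + 2) else 0) = 0 := by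
        refine pk_zeros' _ _ _ fun k hk => ?_
        rw [if_neg]
        intro h
        have := he k hk h
        omega
      rw [hM, hR, Nat.and_zero]
    · obtain ⟨m, rfl⟩ : ∃ m, n = m + 2 := ⟨n - 2, by omega⟩
      set g : ℕ → ℕ := fun k => if k < m then f (k + 2) else 0 with hg
      have e1' : pk (2 ^ 128) (m + 2) f >>> 256 = pk (2 ^ 128) (m + 2) g := by
        rw [shr2 m f hf, pk_extend (2 ^ 128) m 2 g (fun k h1 _ => by rw [hg]; exact if_neg (by omega))]
        exact pk_congr _ _ _ _ fun k hk => by rw [hg]; exact (if_pos hk).symm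
      rw [hy, hM0, e1', land_sel (m + 2) g (fun k => e0 k = true) (fun k _ => by
        rw [hg]
        show (if k < m then f (k + 2) else 0) < 2 ^ 128
        split_ifs with h
        · exact hf _ (by omega)
        · positivity)]
      refine pk_congr _ _ _ _ fun k hk => ?_
      by_cases h : e0 k = true
      · rw [if_pos h, if_pos h, hg]
        exact if_pos (by have := he k hk h; omega)
      · rw [if_neg h, if_neg h]
  have h3 : (y &&& M01) + C = pk (2 ^ 128) n (fun k => if e0 k = true then f k + c k - f (k + 2)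
        else if e1 k = true then f k + c k else 0) +
      pk (2 ^ 128) n (fun k => if e0 k = true then f (k + 2) else 0) := by
    rw [h1, hC, pk_add, pk_add]
    refine pk_congr _ _ _ _ fun k hk => ?_
    by_cases h : e0 k = true
    · rw [if_pos (Or.inl h), if_pos h, if_pos h]
      exact (Nat.sub_add_cancel (hs k hk h)).symm
    · by_cases h' : e1 k = true
      · rw [if_pos (Or.inr h'), if_neg h, if_pos h', if_neg h, Nat.add_zero]
      · rw [if_neg (by tauto), if_neg h, if_neg h', if_neg h, hc k hk (by tauto)]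
  rw [h2, h3, Nat.add_sub_cancel]

/-! ### masks from the top bit -/

theorem top_split {a b : ℕ} (ha : a < 2 ^ 127) (hb : b < 2 ^ 127) :
    (a + 2 ^ 127 - b) &&& 2 ^ 127 = (if b ≤ a then 2 ^ 127 else 0) ∧
    (a + 2 ^ 127 - b) &&& (2 ^ 127 - 1) = (if b ≤ a then a - b else a + 2 ^ 127 - b) := by
  by_cases h : b ≤ a
  · rw [if_pos h, if_pos h]
    have e : a + 2 ^ 127 - b = (a - b) + 2 ^ 127 * 1 := by omega
    have hab : a - b < 2 ^ 127 := by omega
    have h1 := land_split 127 (a - b) 1 0 1 hab (by positivity)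
    have h2 := land_split 127 (a - b) 1 (2 ^ 127 - 1) 0 hab (by norm_num)
    rw [Nat.and_zero, Nat.zero_add, Nat.mul_one] at h1
    rw [Nat.mul_zero, Nat.add_zero, Nat.and_zero, Nat.mul_zero, Nat.add_zero] at h2
    rw [Nat.mul_one] at h2
    constructor
    · rw [e, Nat.mul_one, h1]; rfl
    · rw [e, Nat.mul_one, h2, mask_full hab]
  · rw [if_neg h, if_neg h]
    have hab : a + 2 ^ 127 - b < 2 ^ 127 := by omega
    have h1 := land_split 127 (a + 2 ^ 127 - b) 0 0 1 hab (by positivity)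
    rw [Nat.mul_zero, Nat.add_zero, Nat.and_zero, Nat.zero_add, Nat.mul_one, Nat.zero_and,
      Nat.mul_zero] at h1
    exact ⟨h1, mask_full hab⟩

/-- digits of the offset difference -/
theorem off_sub (n : ℕ) (f g : ℕ → ℕ) (hg : ∀ k < n, g k < 2 ^ 127) :
    (pk (2 ^ 128) n f + pk (2 ^ 128) n (fun _ => 2 ^ 127)) - pk (2 ^ 128) n g =
      pk (2 ^ 128) n (fun k => f k + 2 ^ 127 - g k) := by
  have h : pk (2 ^ 128) n f + pk (2 ^ 128) n (fun _ => 2 ^ 127) =
      pk (2 ^ 128) n (fun k => f k + 2 ^ 127 - g k) + pk (2 ^ 128) n g := by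
    rw [pk_add, pk_add]
    refine pk_congr _ _ _ _ fun k hk => ?_
    have := hg k hk
    show f k + 2 ^ 127 = f k + 2 ^ 127 - g k + g k
    omega
  rw [h, Nat.add_sub_cancel]

/-- top bits to the bottom -/
theorem shr127 : ∀ (n : ℕ) (p : ℕ → Prop) [DecidablePred p],
    pk (2 ^ 128) n (fun k => if p k then 2 ^ 127 else 0) >>> 127 =
      pk (2 ^ 128) n (fun k => if p k then 1 else 0)
  | n, p, _ => by
    have h : pk (2 ^ 128) n (fun k => if p k then 2 ^ 127 else 0) =
        2 ^ 127 * pk (2 ^ 128) n (fun k => if p k then 1 else 0) := by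
      rw [pk_smul]
      refine pk_congr _ _ _ _ fun k _ => ?_
      by_cases h : p k
      · rw [if_pos h, if_pos h, Nat.mul_one]
      · rw [if_neg h, if_neg h, Nat.mul_zero]
    rw [h, Nat.shiftRight_eq_div_pow, Nat.mul_div_cancel_left _ (by positivity)]

/-- the mask of the digits with top bit -/
theorem mask_of (n : ℕ) (p : ℕ → Prop) [DecidablePred p] :
    pk (2 ^ 128) n (fun k => if p k then 2 ^ 127 else 0) -
      pk (2 ^ 128) n (fun k => if p k then 2 ^ 127 else 0) >>> 127 =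
      pk (2 ^ 128) n (fun k => if p k then 2 ^ 127 - 1 else 0) := by
  rw [shr127]
  have h : pk (2 ^ 128) n (fun k => if p k then 2 ^ 127 else 0) =
      pk (2 ^ 128) n (fun k => if p k then 2 ^ 127 - 1 else 0) +
      pk (2 ^ 128) n (fun k => if p k then 1 else 0) := by
    rw [pk_add]
    refine pk_congr _ _ _ _ fun k _ => ?_
    by_cases h : p k
    · rw [if_pos h, if_pos h, if_pos h]; norm_num
    · rw [if_neg h, if_neg h, if_neg h]
  rw [h, Nat.add_sub_cancel]

theorem lt128 {a : ℕ} (h : a < 2 ^ 127) : a < 2 ^ 128 := lt_of_lt_of_le h (by norm_num)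
theorem off_lt {a b : ℕ} (ha : a < 2 ^ 127) : a + 2 ^ 127 - b < 2 ^ 128 := by
  have : (2 : ℕ) ^ 128 = 2 ^ 127 + 2 ^ 127 := by norm_num
  omega

/-- the top bits of the offset difference -/
theorem top_bits (n : ℕ) (f g : ℕ → ℕ) (hf : ∀ k < n, f k < 2 ^ 127) (hg : ∀ k < n, g k < 2 ^ 127) :
    ((pk (2 ^ 128) n f + pk (2 ^ 128) n (fun _ => 2 ^ 127)) - pk (2 ^ 128) n g) &&&
      pk (2 ^ 128) n (fun _ => 2 ^ 127) = pk (2 ^ 128) n (fun k => if g k ≤ f k then 2 ^ 127 else 0) := by
  rw [off_sub n f g hg, land0 n _ _ (fun k hk => off_lt (hf k hk)) (fun _ _ => by norm_num)]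
  exact pk_congr _ _ _ _ fun k hk => (top_split (hf k hk) (hg k hk)).1

theorem low_bits (n : ℕ) (f g : ℕ → ℕ) (hf : ∀ k < n, f k < 2 ^ 127) (hg : ∀ k < n, g k < 2 ^ 127) :
    ((pk (2 ^ 128) n f + pk (2 ^ 128) n (fun _ => 2 ^ 127)) - pk (2 ^ 128) n g) &&&
      pk (2 ^ 128) n (fun _ => 2 ^ 127 - 1) =
      pk (2 ^ 128) n (fun k => if g k ≤ f k then f k - g k else f k + 2 ^ 127 - g k) := by
  rw [off_sub n f g hg, land0 n _ _ (fun k hk => off_lt (hf k hk)) (fun _ _ => by norm_num)]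
  exact pk_congr _ _ _ _ fun k hk => (top_split (hf k hk) (hg k hk)).2

/-- the digits of `abs_digits` -/
def ad (a b : ℕ) : ℕ := if b ≤ a then a - b else b - a - 1

theorem ad_lt {a b : ℕ} (ha : a < 2 ^ 127) (hb : b < 2 ^ 127) : ad a b < 2 ^ 127 := by
  unfold ad
  split_ifs <;> omega

theorem le_ad (a b : ℕ) : |(a : ℤ) - (b : ℤ)| ≤ (ad a b : ℤ) + 1 := by
  unfold ad
  split_ifs with h
  · rw [Nat.cast_sub h, abs_of_nonneg (by have : (b : ℤ) ≤ a := by exact_mod_cast h
                                          linarith)]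
    linarith
  · have h1 : a + 1 ≤ b := by omega
    have h2 : ((b - a - 1 : ℕ) : ℤ) = (b : ℤ) - a - 1 := by
      rw [Nat.sub_sub, Nat.cast_sub h1]
      push_cast
      ring
    have h3 : (a : ℤ) + 1 ≤ b := by exact_mod_cast h1
    rw [h2, abs_of_nonpos (by linarith)]
    linarith

/-- ABSOLUTE DIFFERENCES -/
theorem abs_digits {n : ℕ} {f g : ℕ → ℕ} {x y H L t s m a : ℕ}
    (hf : ∀ k < n, f k < 2 ^ 127) (hg : ∀ k < n, g k < 2 ^ 127)
    (hx : x = pk (2 ^ 128) n f) (hy : y = pk (2 ^ 128) n g)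
    (hH : H = pk (2 ^ 128) n (fun _ => 2 ^ 127)) (hL : L = pk (2 ^ 128) n (fun _ => 2 ^ 127 - 1))
    (ht : t = (x + H) - y) (hs : s = t &&& H) (hm : m = s - s >>> 127)
    (ha : a = (t &&& L) ^^^ (L - m)) :
    a = pk (2 ^ 128) n (fun k => ad (f k) (g k)) := by
  have h1 : s = pk (2 ^ 128) n (fun k => if g k ≤ f k then 2 ^ 127 else 0) := by
    rw [hs, ht, hx, hy, hH]; exact top_bits n f g hf hg
  have h2 : m = pk (2 ^ 128) n (fun k => if g k ≤ f k then 2 ^ 127 - 1 else 0) := by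
    rw [hm, h1]; exact mask_of n _
  have h3 : t &&& L = pk (2 ^ 128) n (fun k => if g k ≤ f k then f k - g k else f k + 2 ^ 127 - g k) := by
    rw [ht, hx, hy, hH, hL]; exact low_bits n f g hf hg
  have h4 : L - m = pk (2 ^ 128) n (fun k => if g k ≤ f k then 0 else 2 ^ 127 - 1) := by
    have : L = pk (2 ^ 128) n (fun k => if g k ≤ f k then 0 else 2 ^ 127 - 1) + m := by
      rw [hL, h2, pk_add]
      refine pk_congr _ _ _ _ fun k _ => ?_
      by_cases h : g k ≤ f k
      · rw [if_pos h, if_pos h, Nat.zero_add]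
      · rw [if_neg h, if_neg h, Nat.add_zero]
    rw [this, Nat.add_sub_cancel]
  have b1 : ∀ k < n, (if g k ≤ f k then f k - g k else f k + 2 ^ 127 - g k) < 2 ^ 127 := fun k hk => by
    have := hf k hk
    split_ifs <;> omega
  have b2 : ∀ k < n, (if g k ≤ f k then 0 else 2 ^ 127 - 1) < 2 ^ 127 := fun k _ => by
    split_ifs <;> norm_num
  rw [ha, h3, h4, xor_pk n _ _ (fun k hk => lt128 (b1 k hk)) (fun k hk => lt128 (b2 k hk))]
  refine pk_congr _ _ _ _ fun k hk => ?_
  by_cases h : g k ≤ f k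
  · rw [if_pos h, if_pos h, Nat.xor_zero]
    unfold ad
    rw [if_pos h]
  · rw [if_neg h, if_neg h]
    have h5 : f k + 2 ^ 127 - g k < 2 ^ 127 := by
      have := b1 k hk
      rw [if_neg h] at this
      exact this
    rw [xor_compl h5]
    unfold ad
    rw [if_neg h]
    have := hg k hk
    omega

/-- MAXIMUM -/
theorem max_digits {n : ℕ} {f g : ℕ → ℕ} {a r H t s m : ℕ}
    (hf : ∀ k < n, f k < 2 ^ 127) (hg : ∀ k < n, g k < 2 ^ 127)
    (ha : a = pk (2 ^ 128) n f) (hr : r = pk (2 ^ 128) n g)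
    (hH : H = pk (2 ^ 128) n (fun _ => 2 ^ 127))
    (ht : t = (a + H) - r) (hs : s = t &&& H) (hm : m = s - s >>> 127) :
    r + (t &&& m) = pk (2 ^ 128) n (fun k => max (f k) (g k)) := by
  have h1 : s = pk (2 ^ 128) n (fun k => if g k ≤ f k then 2 ^ 127 else 0) := by
    rw [hs, ht, ha, hr, hH]; exact top_bits n f g hf hg
  have h2 : m = pk (2 ^ 128) n (fun k => if g k ≤ f k then 2 ^ 127 - 1 else 0) := by
    rw [hm, h1]; exact mask_of n _
  have h3 : t = pk (2 ^ 128) n (fun k => f k + 2 ^ 127 - g k) := by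
    rw [ht, ha, hr, hH]; exact off_sub n f g hg
  rw [h3, h2, land0 n _ _ (fun k hk => off_lt (hf k hk)) (fun k _ => by split_ifs <;> norm_num), hr,
    pk_add]
  refine pk_congr _ _ _ _ fun k hk => ?_
  by_cases h : g k ≤ f k
  · rw [if_pos h, (top_split (hf k hk) (hg k hk)).2, if_pos h, max_eq_left h]
    omega
  · rw [if_neg h, Nat.and_zero, Nat.add_zero, max_eq_right (by omega)]

/-! ### products -/

/-- repetition -/
theorem mul_rep (b m n : ℕ) (f : ℕ → ℕ) :
    pk b m f * pk (b ^ m) n (fun _ => 1) = pk b (m * n) (fun k => f (k % m)) := by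
  rw [pk_nest, pk_smul]
  refine pk_congr _ _ _ _ fun i _ => ?_
  rw [Nat.mul_one]
  refine pk_congr _ _ _ _ fun j hj => ?_
  rw [Nat.mul_add_mod, Nat.mod_eq_of_lt hj]

/-- Kronecker product of digits -/
theorem kron (b m n : ℕ) (f g : ℕ → ℕ) :
    pk (b ^ m) n f * pk b m g = pk b (m * n) (fun k => f (k / m) * g (k % m)) := by
  rw [pk_nest, Nat.mul_comm, pk_smul]
  refine pk_congr _ _ _ _ fun i _ => ?_
  rw [Nat.mul_comm, pk_smul]
  refine pk_congr _ _ _ _ fun j hj => ?_
  have hm : 0 < m := lt_of_le_of_lt (Nat.zero_le j) hj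
  rw [Nat.mul_add_div hm, Nat.div_eq_of_lt hj, Nat.add_zero, Nat.mul_add_mod, Nat.mod_eq_of_lt hj]

/-- SPREAD -/
theorem spread {f : ℕ → ℕ} {x COMB MP : ℕ} (hx : x = pk (2 ^ 128) 27 f)
    (hf : ∀ k < 27, f k < 2 ^ 128)
    (hC : COMB = pk ((2 ^ 128) ^ 27) 9 (fun _ => 1))
    (hM : MP = pk (2 ^ 128) 270 (fun k => if k % 30 < 2 then 2 ^ 128 - 1 else 0)) :
    (x * COMB) &&& MP =
      pk (2 ^ 128) 270 (fun k => if k % 30 < 2 then f (3 * (k / 30) + k % 30) else 0) := by
  have h1 : x * COMB = pk (2 ^ 128) 270 (fun k => if k < 243 then f (k % 27) else 0) := by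
    rw [hx, hC, mul_rep, show 270 = 27 * 9 + 27 from rfl,
      pk_extend _ (27 * 9) 27 _ (fun k h1 _ => if_neg (by omega))]
    exact pk_congr _ _ _ _ fun k hk => (if_pos (by omega)).symm
  rw [h1, hM, land_sel 270 _ (fun k => k % 30 < 2) (fun k hk => by
    show (if k < 243 then f (k % 27) else 0) < 2 ^ 128
    split_ifs with h
    · exact hf _ (Nat.mod_lt _ (by norm_num))
    · positivity)]
  refine pk_congr _ _ _ _ fun k hk => ?_
  by_cases h : k % 30 < 2
  · rw [if_pos h, if_pos h, if_pos (by omega)]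
    congr 1
    omega
  · rw [if_neg h, if_neg h]

end Pool.Agent.Helper90.DG
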