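import Pool.Agent.Helper90.C9.C9I
import Pool.Agent.Helper90.C9.DG

/-!
Row K9 (MP_c75db0), digits of 128 bits. Part J: the leaf test `tfY` for natural numbers with the
offset `2 ^ 122` in all 270 digits.
-/

set_option autoImplicit false
noncomputable section
namespace Pool.Agent.Helper90.C9

open Pool.Agent.Helper90.K9 (pk pz pk_zero pk_succ pz_succ pk_cast pk_congr pz_congr pk_add pz_add
  pz_sub pk_smul pz_smul pz_last pk_last pk_split pk_nest pk_lt pk_inj land_split shl_pk land_pk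
  drop_pk G G_succ G_congr G_add G_outer G_err sq_sum_le G_diag G_schur)
open Finset hiding val

/-! ### kernel functions -/

def tNY (RD Y : ℕ) : ℕ :=
  Nat.sub (Nat.add (Nat.land (Nat.shiftRight Y (nat_lit 76)) MVY01) CCY)
    (Nat.add (Nat.land (Nat.shiftRight Y (nat_lit 332)) MVY0) RD)
/-- THE LEAF TEST, digits with offset `2 ^ 122` -/
def tfY (RD Y : ℕ) : Bool := tfC2 (tNY RD Y)

theorem CCY_eq : CCY = pk V 9 (fun _ => pk B3 9 (fun _ => (2 ^ 59 + 2 ^ 36) +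
    B * (9 * 2 ^ 58 - 2 ^ 46 + 2 ^ 36))) := by
  decide +kernel

theorem MVY01_eq : MVY01 = pk V 9 (fun _ => pk B3 9 (fun _ => (2 ^ 52 - 1) + B * (2 ^ 52 - 1))) := by
  decide +kernel
theorem MVY0_eq : MVY0 = pk V 9 (fun _ => pk B3 9 (fun _ => 2 ^ 52 - 1)) := by
  decide +kernel

/-! ### shift by 76 bits -/

theorem sh76_lt {n : ℕ} (h : n < B) : n >>> 76 < 2 ^ 52 := by
  rw [Nat.shiftRight_eq_div_pow, Nat.div_lt_iff_lt_mul (by positivity)]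
  have : B = 2 ^ 52 * 2 ^ 76 := by unfold B; norm_num
  omega

theorem sh76_and {n : ℕ} (h : n < B) : n >>> 76 &&& (2 ^ 52 - 1) = n >>> 76 := by
  rw [Nat.and_two_pow_sub_one_eq_mod, Nat.mod_eq_of_lt (sh76_lt h)]

theorem ws_sh76 {w0 w1 w2 : ℕ → ℕ → ℕ} {i j : ℕ} (h0 : w0 i j < B) (h1 : w1 i j < B) :
    (ws w0 w1 w2 i j) >>> 76 &&& ((2 ^ 52 - 1) + B * (2 ^ 52 - 1)) =
      (w0 i j >>> 76) + B * (w1 i j >>> 76) := by
  have h := shl_pk (e := 128) (k := 76) (by norm_num) 2 (fun k => if k = 0 then w0 i j else w1 i j)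
    (fun _ => 2 ^ 52 - 1) (w2 i j)
    (fun k _ => by
      show (if k = 0 then w0 i j else w1 i j) < B
      split_ifs
      exacts [h0, h1])
    (fun k _ => by norm_num)
  have e1 : pk (2 ^ 128) 2 (fun k => if k = 0 then w0 i j else w1 i j) + (2 ^ 128) ^ 2 * w2 i j =
      ws w0 w1 w2 i j := by
    show (w0 i j + B * (w1 i j + B * 0)) + B ^ 2 * w2 i j = _
    unfold ws
    ring
  have e2 : pk (2 ^ 128) 2 (fun _ => 2 ^ 52 - 1) = (2 ^ 52 - 1) + B * (2 ^ 52 - 1) := by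
    show (2 ^ 52 - 1) + B * ((2 ^ 52 - 1) + B * 0) = _
    rw [Nat.mul_zero, Nat.add_zero]
  have e3 : pk (2 ^ 128) 2 (fun k => (if k = 0 then w0 i j else w1 i j) >>> 76 &&& (2 ^ 52 - 1)) =
      (w0 i j >>> 76) + B * (w1 i j >>> 76) := by
    show (w0 i j >>> 76 &&& (2 ^ 52 - 1)) + B * ((w1 i j >>> 76 &&& (2 ^ 52 - 1)) + B * 0) = _
    rw [Nat.mul_zero, Nat.add_zero, sh76_and h0, sh76_and h1]
  rw [← e1, ← e2, h, e3]

theorem ws_sh332 {w0 w1 w2 : ℕ → ℕ → ℕ} {i j : ℕ} (h0 : w0 i j < B) (h1 : w1 i j < B)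
    (h2 : w2 i j < B) :
    (ws w0 w1 w2 i j) >>> 332 &&& (2 ^ 52 - 1) = w2 i j >>> 76 := by
  have e0 : (ws w0 w1 w2 i j) >>> 332 = ((ws w0 w1 w2 i j) / B / B) >>> 76 := by
    have : (332 : ℕ) = 128 + 128 + 76 := by norm_num
    rw [this, Nat.shiftRight_add, Nat.shiftRight_add, Nat.shiftRight_eq_div_pow _ 128,
      Nat.shiftRight_eq_div_pow _ 128]
    rfl
  have e1 : (ws w0 w1 w2 i j) / B / B = w2 i j := by
    unfold ws
    rw [Nat.add_mul_div_left _ _ B_pos, Nat.div_eq_of_lt h0, Nat.zero_add,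
      Nat.add_mul_div_left _ _ B_pos, Nat.div_eq_of_lt h1, Nat.zero_add]
  rw [e0, e1, sh76_and h2]

theorem mask52_lt : (2 ^ 52 - 1) + B * (2 ^ 52 - 1) < 2 ^ (384 - 76) := by
  have h0 : (2 : ℕ) ^ 52 - 1 < B := by unfold B; norm_num
  refine lt_of_lt_of_le (two_ltBB h0 h0) ?_
  unfold B
  rw [← pow_add]
  exact Nat.pow_le_pow_right (by norm_num) (by norm_num)

theorem mask_lt' {n k : ℕ} (hn : n ≤ 9) (hk : k ≤ 384) {g : ℕ → ℕ} (hg : ∀ j < n, g j < B3) :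
    pk B3 n g < 2 ^ (3840 - k) := by
  refine lt_of_lt_of_le (pk_lt B3_pos n g hg) ?_
  unfold B3
  rw [← pow_mul]
  exact Nat.pow_le_pow_right (by norm_num) (by omega)

theorem m76 (w0 w1 w2 : ℕ → ℕ → ℕ) (z : ℕ → ℕ)
    (h0 : ∀ i < 9, ∀ j < 9, w0 i j < B) (h1 : ∀ i < 9, ∀ j < 9, w1 i j < B)
    (h2 : ∀ i < 9, ∀ j < 9, w2 i j < B) (hz : ∀ i < 9, z i < B3) :
    ((pk V 9 (fun i => pk B3 9 (ws w0 w1 w2 i) + B3 ^ 9 * z i)) >>> 76) &&& MVY01 =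
      pk V 9 (fun i => pk B3 9 (fun j => (w0 i j >>> 76) + B * (w1 i j >>> 76))) := by
  have h := shl_V (n := 9) (k := 76) (by norm_num)
    (fun i => pk B3 9 (ws w0 w1 w2 i) + B3 ^ 9 * z i)
    (fun _ => pk B3 9 (fun _ => (2 ^ 52 - 1) + B * (2 ^ 52 - 1))) 0
    (fun i hi => row_lt le_rfl (fun j hj => ws_lt (h0 i hi j hj) (h1 i hi j hj) (h2 i hi j hj)) (hz i hi))
    (fun i _ => mask_lt' le_rfl (by norm_num) fun _ _ => B3_of_lt mask52_lt)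
  rw [Nat.mul_zero, Nat.add_zero] at h
  rw [MVY01_eq, h]
  refine pk_congr _ _ _ _ fun i hi => ?_
  rw [shl_B3 (by norm_num) _ _ (z i)
    (fun j hj => ws_lt (h0 i hi j hj) (h1 i hi j hj) (h2 i hi j hj)) (fun _ _ => mask52_lt)]
  exact pk_congr _ _ _ _ fun j hj => ws_sh76 (h0 i hi j hj) (h1 i hi j hj)

theorem m332 (w0 w1 w2 : ℕ → ℕ → ℕ) (z : ℕ → ℕ)
    (h0 : ∀ i < 9, ∀ j < 9, w0 i j < B) (h1 : ∀ i < 9, ∀ j < 9, w1 i j < B)
    (h2 : ∀ i < 9, ∀ j < 9, w2 i j < B) (hz : ∀ i < 9, z i < B3) :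
    ((pk V 9 (fun i => pk B3 9 (ws w0 w1 w2 i) + B3 ^ 9 * z i)) >>> 332) &&& MVY0 =
      pk V 9 (fun i => pk B3 9 (fun j => w2 i j >>> 76)) := by
  have hm : (2 : ℕ) ^ 52 - 1 < 2 ^ (384 - 332) := by norm_num
  have h := shl_V (n := 9) (k := 332) (by norm_num)
    (fun i => pk B3 9 (ws w0 w1 w2 i) + B3 ^ 9 * z i)
    (fun _ => pk B3 9 (fun _ => 2 ^ 52 - 1)) 0
    (fun i hi => row_lt le_rfl (fun j hj => ws_lt (h0 i hi j hj) (h1 i hi j hj) (h2 i hi j hj)) (hz i hi))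
    (fun i _ => mask_lt' le_rfl (by norm_num) fun _ _ => B3_of_lt hm)
  rw [Nat.mul_zero, Nat.add_zero] at h
  rw [MVY0_eq, h]
  refine pk_congr _ _ _ _ fun i hi => ?_
  rw [shl_B3 (by norm_num) _ _ (z i)
    (fun j hj => ws_lt (h0 i hi j hj) (h1 i hi j hj) (h2 i hi j hj)) (fun _ _ => hm)]
  exact pk_congr _ _ _ _ fun j hj => ws_sh332 (h0 i hi j hj) (h1 i hi j hj) (h2 i hi j hj)

/-- digits of a matrix in 270 digits -/
def dgC (N : ℕ → ℕ → Fin 3 → ℤ) (k : ℕ) : ℤ :=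
  if k % 30 < 27 then N (k / 30) (k % 30 / 3) (if k % 3 = 0 then 0 else if k % 3 = 1 then 1 else 2)
  else 0

theorem dgC_at (N : ℕ → ℕ → Fin 3 → ℤ) {K L : ℕ} (hL : L < 9) (e : Fin 3) :
    dgC N (30 * K + (3 * L + e)) = N K L e := by
  have he := e.2
  have h1 : (30 * K + (3 * L + (e : ℕ))) % 30 = 3 * L + e := by omega
  have h2 : (30 * K + (3 * L + (e : ℕ))) / 30 = K := by omega
  have h3 : (30 * K + (3 * L + (e : ℕ))) % 3 = e := by omega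
  have h4 : (3 * L + (e : ℕ)) / 3 = L := by omega
  unfold dgC
  rw [h1, h2, h3, h4, if_pos (by omega)]
  congr 1
  fin_cases e <;> rfl

theorem off_nat {w : ℤ} (h : |w| ≤ 2 ^ 121) : (((2 ^ 122 + w).toNat : ℕ) : ℤ) = 2 ^ 122 + w ∧
    (2 ^ 122 + w).toNat < B := by
  obtain ⟨h1, h2⟩ := abs_le.mp h
  have h3 : (0 : ℤ) ≤ 2 ^ 122 + w := by
    have : (2 : ℤ) ^ 122 = 2 * 2 ^ 121 := by norm_num
    have : (0 : ℤ) < 2 ^ 121 := by positivity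
    linarith
  refine ⟨Int.toNat_of_nonneg h3, ?_⟩
  have h4 : 2 ^ 122 + w < (B : ℤ) := by
    have : (B : ℤ) = 2 ^ 128 := by unfold B; norm_num
    rw [this]
    have : (2 : ℤ) ^ 128 = 128 * 2 ^ 121 := by norm_num
    have : (2 : ℤ) ^ 122 = 2 * 2 ^ 121 := by norm_num
    have : (0 : ℤ) < 2 ^ 121 := by positivity
    linarith
  have h5 : (((2 ^ 122 + w).toNat : ℕ) : ℤ) < (B : ℤ) := by
    rw [Int.toNat_of_nonneg h3]; exact h4
  exact_mod_cast h5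

theorem shY_cast {w : ℤ} {n : ℕ} (h : (n : ℤ) = 2 ^ 122 + w) :
    ((n >>> 76 : ℕ) : ℤ) = w / 2 ^ 76 + 2 ^ 46 := by
  have h2 : ((2 ^ 76 : ℕ) : ℤ) = 2 ^ 76 := by norm_num
  have h1 : (2 : ℤ) ^ 122 + w = w + 2 ^ 46 * 2 ^ 76 := by norm_num; ring
  rw [Nat.shiftRight_eq_div_pow, Int.natCast_ediv, h2, h, h1, Int.add_mul_ediv_right _ _ (by norm_num)]

theorem qY_bound {w : ℤ} (h : |w| ≤ 2 ^ 121) : -2 ^ 45 ≤ w / 2 ^ 76 ∧ w / 2 ^ 76 ≤ 2 ^ 45 := by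
  obtain ⟨h1, h2⟩ := abs_le.mp h
  constructor
  · rw [Int.le_ediv_iff_mul_le (by norm_num)]
    have : (-2 ^ 45 * 2 ^ 76 : ℤ) = -2 ^ 121 := by norm_num
    rw [this]; exact h1
  · have h3 : w / 2 ^ 76 ≤ 2 ^ 121 / 2 ^ 76 := Int.ediv_le_ediv (by norm_num) h2
    have h4 : ((2 : ℤ) ^ 121 / 2 ^ 76) = 2 ^ 45 := by norm_num
    rw [h4] at h3
    exact h3

/-- regrouping 270 digits -/
theorem regroup (f : ℕ → ℕ) : pk (2 ^ 128) 270 f =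
    pk V 9 (fun i => pk B3 9 (ws (fun i j => f (30 * i + 3 * j)) (fun i j => f (30 * i + 3 * j + 1))
      (fun i j => f (30 * i + 3 * j + 2)) i) + B3 ^ 9 * ws (fun i j => f (30 * i + 3 * j))
      (fun i j => f (30 * i + 3 * j + 1)) (fun i j => f (30 * i + 3 * j + 2)) i 9) := by
  have hV : V = (2 ^ 128) ^ 30 := by unfold V; rw [← pow_mul]
  have hB3 : B3 = (2 ^ 128) ^ 3 := by unfold B3; rw [← pow_mul]
  rw [show 270 = 30 * 9 from rfl, pk_nest, ← hV]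
  refine pk_congr _ _ _ _ fun i _ => ?_
  rw [show 30 = 3 * 10 from rfl, pk_nest, ← hB3, pk_last]
  congr 1

/-- the shifted matrix -/
theorem tNY_eq {D : ℕ → ℕ → Fin 3 → ℤ} (hD : ∀ i j, i < 9 → j < 9 → ∀ e, |D i j e| ≤ 2 ^ 121) {Y : ℕ}
    (hY : Y = pk (2 ^ 128) 270 (fun k => (2 ^ 122 + dgC D k).toNat)) {R : ℕ → ℕ}
    (hR : ∀ i < 9, R i ≤ 2 ^ 36) :
    ∃ d1 e1 : ℕ → ℕ → ℕ, tNY (pk (V * B3) 9 R) Y = pk V 9 (fun i => pk B3 9 (s2 d1 e1 i)) ∧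
      (∀ i < 9, ∀ j < 9, d1 i j < B ∧ e1 i j < B ∧
        (d1 i j : ℤ) = D i j 0 / 2 ^ 76 - D i j 2 / 2 ^ 76 + 2 ^ 59 + 2 ^ 36 -
          ((if j = i then R i else 0 : ℕ) : ℤ) ∧
        (e1 i j : ℤ) = D i j 1 / 2 ^ 76 + 9 * 2 ^ 58 + 2 ^ 36) := by
  set F : ℕ → ℕ := fun k => (2 ^ 122 + dgC D k).toNat with hF
  set w0 : ℕ → ℕ → ℕ := fun i j => F (30 * i + 3 * j) with hw0
  set w1 : ℕ → ℕ → ℕ := fun i j => F (30 * i + 3 * j + 1) with hw1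
  set w2 : ℕ → ℕ → ℕ := fun i j => F (30 * i + 3 * j + 2) with hw2
  have hFb : ∀ k < 270, |dgC D k| ≤ 2 ^ 121 := by
    intro k hk
    unfold dgC
    split_ifs
    · exact hD _ _ (by omega) (by omega) _
    · exact hD _ _ (by omega) (by omega) _
    · exact hD _ _ (by omega) (by omega) _
    · rw [abs_zero]; positivity
  have l0 : ∀ i < 9, ∀ j < 10, w0 i j < B := fun i hi j hj => (off_nat (hFb _ (by omega))).2
  have l1 : ∀ i < 9, ∀ j < 10, w1 i j < B := fun i hi j hj => (off_nat (hFb _ (by omega))).2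
  have l2 : ∀ i < 9, ∀ j < 10, w2 i j < B := fun i hi j hj => (off_nat (hFb _ (by omega))).2
  have hdec := hY.trans (regroup F)
  have hz : ∀ i < 9, ws w0 w1 w2 i 9 < B3 := fun i hi =>
    ws_lt (l0 i hi 9 (by norm_num)) (l1 i hi 9 (by norm_num)) (l2 i hi 9 (by norm_num))
  have h1 := m76 w0 w1 w2 (fun i => ws w0 w1 w2 i 9) (fun i hi j hj => l0 i hi j (by omega))
    (fun i hi j hj => l1 i hi j (by omega)) (fun i hi j hj => l2 i hi j (by omega)) hz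
  have h2 := m332 w0 w1 w2 (fun i => ws w0 w1 w2 i 9) (fun i hi j hj => l0 i hi j (by omega))
    (fun i hi j hj => l1 i hi j (by omega)) (fun i hi j hj => l2 i hi j (by omega)) hz
  rw [← hdec] at h1 h2
  have d0 : ∀ i j, j < 9 → dgC D (30 * i + 3 * j) = D i j 0 := fun i j hj => by
    have := dgC_at D (K := i) hj 0
    rw [show ((0 : Fin 3) : ℕ) = 0 from rfl, Nat.add_zero] at this
    exact this
  have d1' : ∀ i j, j < 9 → dgC D (30 * i + 3 * j + 1) = D i j 1 := fun i j hj => by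
    have := dgC_at D (K := i) hj 1
    rw [show ((1 : Fin 3) : ℕ) = 1 from rfl, ← Nat.add_assoc] at this
    exact this
  have d2' : ∀ i j, j < 9 → dgC D (30 * i + 3 * j + 2) = D i j 2 := fun i j hj => by
    have := dgC_at D (K := i) hj 2
    rw [show ((2 : Fin 3) : ℕ) = 2 from rfl, ← Nat.add_assoc] at this
    exact this
  have eF : ∀ k, F k = (2 ^ 122 + dgC D k).toNat := fun _ => rfl
  have ew0 : ∀ i j, j < 9 → w0 i j = (2 ^ 122 + D i j 0).toNat := fun i j hj => by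
    show F (30 * i + 3 * j) = _
    rw [eF, d0 i j hj]
  have ew1 : ∀ i j, j < 9 → w1 i j = (2 ^ 122 + D i j 1).toNat := fun i j hj => by
    show F (30 * i + 3 * j + 1) = _
    rw [eF, d1' i j hj]
  have ew2 : ∀ i j, j < 9 → w2 i j = (2 ^ 122 + D i j 2).toNat := fun i j hj => by
    show F (30 * i + 3 * j + 2) = _
    rw [eF, d2' i j hj]
  have s0 : ∀ i < 9, ∀ j < 9, ((w0 i j >>> 76 : ℕ) : ℤ) = D i j 0 / 2 ^ 76 + 2 ^ 46 := fun i hi j hj => by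
    rw [ew0 i j hj]
    exact shY_cast (off_nat (hD i j hi hj 0)).1
  have s1 : ∀ i < 9, ∀ j < 9, ((w1 i j >>> 76 : ℕ) : ℤ) = D i j 1 / 2 ^ 76 + 2 ^ 46 := fun i hi j hj => by
    rw [ew1 i j hj]
    exact shY_cast (off_nat (hD i j hi hj 1)).1
  have s2' : ∀ i < 9, ∀ j < 9, ((w2 i j >>> 76 : ℕ) : ℤ) = D i j 2 / 2 ^ 76 + 2 ^ 46 := fun i hi j hj => by
    rw [ew2 i j hj]
    exact shY_cast (off_nat (hD i j hi hj 2)).1
  clear_value w0 w1 w2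
  set d1 : ℕ → ℕ → ℕ := fun i j => (w0 i j >>> 76) + (2 ^ 59 + 2 ^ 36) -
    ((w2 i j >>> 76) + (if j = i then R i else 0)) with hd1
  set e1 : ℕ → ℕ → ℕ := fun i j => (w1 i j >>> 76) + (9 * 2 ^ 58 - 2 ^ 46 + 2 ^ 36) with he1
  have rb : ∀ i < 9, ∀ j < 9, (if j = i then R i else 0 : ℕ) ≤ 2 ^ 36 := fun i hi j _ => by
    split_ifs
    · exact hR i hi
    · exact Nat.zero_le _
  have k0 : ∀ i < 9, ∀ j < 9, (w2 i j >>> 76) + (if j = i then R i else 0) ≤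
      (w0 i j >>> 76) + (2 ^ 59 + 2 ^ 36) := by
    intro i hi j hj
    have f0 := (qY_bound (hD i j hi hj 0)).1
    have f2 := (qY_bound (hD i j hi hj 2)).2
    have r := rb i hi j hj
    have r' : ((if j = i then R i else 0 : ℕ) : ℤ) ≤ 2 ^ 36 := by exact_mod_cast r
    have h4 : (((w2 i j >>> 76) + (if j = i then R i else 0) : ℕ) : ℤ) ≤
        (((w0 i j >>> 76) + (2 ^ 59 + 2 ^ 36) : ℕ) : ℤ) := by
      rw [Nat.cast_add, Nat.cast_add, s0 i hi j hj, s2' i hi j hj]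
      have : ((2 ^ 59 + 2 ^ 36 : ℕ) : ℤ) = 2 ^ 59 + 2 ^ 36 := by norm_num
      rw [this]
      have e1 : (2 : ℤ) ^ 59 = 16384 * 2 ^ 45 := by norm_num
      have e2 : (0 : ℤ) < 2 ^ 45 := by positivity
      rw [e1]
      linarith
    exact_mod_cast h4
  refine ⟨d1, e1, ?_, ?_⟩
  · show ((Y >>> 76) &&& MVY01) + CCY - (((Y >>> 332) &&& MVY0) + pk (V * B3) 9 R) = _
    rw [h1, h2, CCY_eq, diag_pk]
    have hsum : pk V 9 (fun i => pk B3 9 (fun j => (w0 i j >>> 76) + B * (w1 i j >>> 76))) +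
        pk V 9 (fun _ => pk B3 9 (fun _ => (2 ^ 59 + 2 ^ 36) + B * (9 * 2 ^ 58 - 2 ^ 46 + 2 ^ 36))) =
        pk V 9 (fun i => pk B3 9 (s2 d1 e1 i)) +
        (pk V 9 (fun i => pk B3 9 (fun j => w2 i j >>> 76)) +
          pk V 9 (fun i => pk B3 9 (fun j => if j = i then R i else 0))) := by
      rw [pk_add, pk_add, pk_add]
      refine pk_congr _ _ _ _ fun i hi => ?_
      rw [pk_add, pk_add, pk_add]
      refine pk_congr _ _ _ _ fun j hj => ?_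
      exact slot_id _ _ _ _ _ (k0 i hi j hj)
    rw [hsum, Nat.add_sub_cancel]
  · intro i hi j hj
    have g0 := k0 i hi j hj
    have t0 := s0 i hi j hj
    have t1 := s1 i hi j hj
    have t2 := s2' i hi j hj
    have v0 := sh76_lt (l0 i hi j (by omega))
    have v1 := sh76_lt (l1 i hi j (by omega))
    have pB : (2 : ℕ) ^ 60 + (9 * 2 ^ 58 + 2 ^ 36) < B := by unfold B; norm_num
    refine ⟨?_, ?_, ?_, ?_⟩
    · show (w0 i j >>> 76) + (2 ^ 59 + 2 ^ 36) - ((w2 i j >>> 76) + (if j = i then R i else 0)) < B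
      have h1 : (w0 i j >>> 76) + (2 ^ 59 + 2 ^ 36) - ((w2 i j >>> 76) + (if j = i then R i else 0)) ≤
        2 ^ 60 + (9 * 2 ^ 58 + 2 ^ 36) := by
        have : (2 : ℕ) ^ 59 ≤ 9 * 2 ^ 58 := by norm_num
        omega
      exact lt_of_le_of_lt h1 pB
    · show (w1 i j >>> 76) + (9 * 2 ^ 58 - 2 ^ 46 + 2 ^ 36) < B
      have h1 : (w1 i j >>> 76) + (9 * 2 ^ 58 - 2 ^ 46 + 2 ^ 36) ≤ 2 ^ 60 + (9 * 2 ^ 58 + 2 ^ 36) := by
        omega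
      exact lt_of_le_of_lt h1 pB
    · show (((w0 i j >>> 76) + (2 ^ 59 + 2 ^ 36) - ((w2 i j >>> 76) + (if j = i then R i else 0)) : ℕ)
        : ℤ) = _
      have o : ((2 ^ 59 + 2 ^ 36 : ℕ) : ℤ) = 2 ^ 59 + 2 ^ 36 := by norm_num
      rw [Nat.cast_sub g0, Nat.cast_add, Nat.cast_add (w2 i j >>> 76), o, t0, t2]
      ring
    · show (((w1 i j >>> 76) + (9 * 2 ^ 58 - 2 ^ 46 + 2 ^ 36) : ℕ) : ℤ) = _
      have o : ((9 * 2 ^ 58 - 2 ^ 46 + 2 ^ 36 : ℕ) : ℤ) = 9 * 2 ^ 58 - 2 ^ 46 + 2 ^ 36 := by norm_num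
      rw [Nat.cast_add, o, t1]
      ring

/-- floor division -/
theorem fl76 (w : ℤ) : ((w / 2 ^ 76 : ℤ) : ℝ) ≤ (w : ℝ) / 2 ^ 76 ∧
    (w : ℝ) / 2 ^ 76 < ((w / 2 ^ 76 : ℤ) : ℝ) + 1 := by
  constructor
  · rw [le_div_iff₀ (by positivity)]
    have h : w / 2 ^ 76 * 2 ^ 76 ≤ w := Int.ediv_mul_le w (by norm_num)
    exact_mod_cast h
  · rw [div_lt_iff₀ (by positivity)]
    have h : w < (w / 2 ^ 76 + 1) * 2 ^ 76 := Int.lt_ediv_add_one_mul_self w (by norm_num)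
    exact_mod_cast h

/-- the test after the shift -/
theorem tfC2_sound {D : ℕ → ℕ → Fin 3 → ℤ} {R : ℕ → ℕ} {d1 e1 : ℕ → ℕ → ℕ}
    (hE : ∀ i < 9, ∀ j < 9, d1 i j < B ∧ e1 i j < B ∧
        (d1 i j : ℤ) = D i j 0 / 2 ^ 76 - D i j 2 / 2 ^ 76 + 2 ^ 59 + 2 ^ 36 -
          ((if j = i then R i else 0 : ℕ) : ℤ) ∧
        (e1 i j : ℤ) = D i j 1 / 2 ^ 76 + 9 * 2 ^ 58 + 2 ^ 36)
    (h' : tfC2 (pk V 9 (fun i => pk B3 9 (s2 d1 e1 i))) = true) (v : ℕ → ℂ) :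
    ∑ i ∈ range 9, ((R i : ℝ) - 1238) * ‖v i‖ ^ 2 ≤
      G 9 (fun i j => ⟨((D i j 0 : ℝ) - D i j 2) / 2 ^ 76, (D i j 1 : ℝ) / 2 ^ 76⟩) v := by
  have hsel : sel (Nat.beq (Nat.land (pk V 9 (fun i => pk B3 9 (s2 d1 e1 i))) hi9) rs)
      (pdx (pk V 9 (fun i => pk B3 9 (s2 d1 e1 i)))) = true := h'
  obtain ⟨h1, h2'⟩ := sel_true hsel
  have h1' : pk V 9 (fun i => pk B3 9 (s2 d1 e1 i)) &&& hi9 = rs := Nat.eq_of_beq_eq_true h1
  obtain ⟨u, hu⟩ : ∃ u : ℕ → ℕ, ∀ i, u i = 0 := ⟨fun _ => 0, fun _ => rfl⟩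
  have hN' : pk V 9 (fun i => pk B3 9 (s2 d1 e1 i)) =
      pk V 9 (fun i => pk B3 9 (s2 d1 e1 i) + B3 ^ 9 * u i) :=
    pk_congr _ _ _ _ fun i _ => by rw [hu, Nat.mul_zero, Nat.add_zero]
  rw [hi9_eq, rs_eq] at h1'
  have h1'' := h1'
  rw [hN'] at h1''
  have hRg := range_test (n := 9) (d := d1) (e := e1) (u := u) le_rfl (2 ^ 59) (9 * 2 ^ 58)
    (by unfold B; norm_num) (by unfold B; norm_num)
    (fun i hi j hj => (hE i hi j hj).1) (fun i hi j hj => (hE i hi j hj).2.1)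
    (fun i _ => by rw [hu]; exact pow_pos B3_pos _) h1''
  set d2 : ℕ → ℕ → ℕ := fun i j => d1 i j % 2 ^ 37 with hd2
  set e2 : ℕ → ℕ → ℕ := fun i j => e1 i j % 2 ^ 37 with he2
  have hsub : pk V 9 (fun i => pk B3 9 (s2 d1 e1 i)) =
      pk V 9 (fun i => pk B3 9 (sl 9 d2 e2 i) + B3 ^ 9 * u i) := by
    rw [hN']
    refine pk_congr _ _ _ _ fun i hi => ?_
    have : pk B3 9 (s2 d1 e1 i) = pk B3 9 (sl 9 d2 e2 i) := by
      refine pk_congr _ _ _ _ fun j hj => ?_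
      obtain ⟨g1, g2⟩ := hRg i hi j hj
      show d1 i j + B * e1 i j = (d1 i j % 2 ^ 37 + 2 ^ 59) + B * (e1 i j % 2 ^ 37 + 9 * 2 ^ 58)
      rw [Nat.add_comm (d1 i j % 2 ^ 37), Nat.add_comm (e1 i j % 2 ^ 37)]
      exact congrArg₂ (fun a b => a + B * b) g1 g2
    rw [this]
  have hmod : ∀ x : ℕ, x % 2 ^ 37 < 2 ^ 37 := fun x => Nat.mod_lt _ (by positivity)
  have hG := pdx_inv (d := d2) (e := e2) (u := u) ⟨fun i _ j _ => hmod _, fun i _ j _ => hmod _,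
    fun i _ => by rw [hu]; exact pow_pos B3_pos _, hsub⟩ h2' v
  -- values of the digits
  have hdv : ∀ i < 9, ∀ j < 9, ((d2 i j : ℕ) : ℝ) - 2 ^ 36 = ((D i j 0 / 2 ^ 76 : ℤ) : ℝ) -
      ((D i j 2 / 2 ^ 76 : ℤ) : ℝ) - ((if j = i then R i else 0 : ℕ) : ℝ) := by
    intro i hi j hj
    obtain ⟨_, _, g3, _⟩ := hE i hi j hj
    obtain ⟨g1, _⟩ := hRg i hi j hj
    have g5 : ((d1 i j : ℕ) : ℤ) = 2 ^ 59 + ((d2 i j : ℕ) : ℤ) := by
      have o : ((2 ^ 59 : ℕ) : ℤ) = 2 ^ 59 := by norm_num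
      rw [← o, ← Nat.cast_add, ← g1]
    rw [g3] at g5
    have g6 : ((d2 i j : ℕ) : ℤ) = D i j 0 / 2 ^ 76 - D i j 2 / 2 ^ 76 + 2 ^ 36 -
        ((if j = i then R i else 0 : ℕ) : ℤ) := by linarith
    have g7 := congrArg (Int.cast : ℤ → ℝ) g6
    rw [Int.cast_natCast, Int.cast_sub, Int.cast_add, Int.cast_sub, Int.cast_natCast] at g7
    rw [g7]
    norm_num
    ring
  have hev : ∀ i < 9, ∀ j < 9, ((e2 i j : ℕ) : ℝ) - 2 ^ 36 = ((D i j 1 / 2 ^ 76 : ℤ) : ℝ) := by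
    intro i hi j hj
    obtain ⟨_, _, _, g3⟩ := hE i hi j hj
    obtain ⟨_, g1⟩ := hRg i hi j hj
    have g5 : ((e1 i j : ℕ) : ℤ) = 9 * 2 ^ 58 + ((e2 i j : ℕ) : ℤ) := by
      have o : ((9 * 2 ^ 58 : ℕ) : ℤ) = 9 * 2 ^ 58 := by norm_num
      rw [← o, ← Nat.cast_add, ← g1]
    rw [g3] at g5
    have g6 : ((e2 i j : ℕ) : ℤ) = D i j 1 / 2 ^ 76 + 2 ^ 36 := by linarith
    have g7 := congrArg (Int.cast : ℤ → ℝ) g6
    rw [Int.cast_natCast, Int.cast_add] at g7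
    rw [g7]
    norm_num
  -- the error matrix
  set E : ℕ → ℕ → ℂ := fun i j => ⟨((D i j 0 : ℝ) - D i j 2) / 2 ^ 76 -
    (((D i j 0 / 2 ^ 76 : ℤ) : ℝ) - ((D i j 2 / 2 ^ 76 : ℤ) : ℝ)),
    (D i j 1 : ℝ) / 2 ^ 76 - ((D i j 1 / 2 ^ 76 : ℤ) : ℝ)⟩ with hEdef
  have hEb : ∀ i < 9, ∀ j < 9, i ≤ j → ‖E i j‖ ≤ 3 / 2 := by
    intro i _ j _ _
    have a0 := fl76 (D i j 0)
    have a1 := fl76 (D i j 1)
    have a2 := fl76 (D i j 2)
    have hre : |(E i j).re| ≤ 1 := by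
      show |((D i j 0 : ℝ) - D i j 2) / 2 ^ 76 -
        (((D i j 0 / 2 ^ 76 : ℤ) : ℝ) - ((D i j 2 / 2 ^ 76 : ℤ) : ℝ))| ≤ 1
      rw [sub_div, abs_le]
      constructor
      · linarith [a0.1, a0.2, a2.1, a2.2]
      · linarith [a0.1, a0.2, a2.1, a2.2]
    have him : |(E i j).im| ≤ 1 := by
      show |(D i j 1 : ℝ) / 2 ^ 76 - ((D i j 1 / 2 ^ 76 : ℤ) : ℝ)| ≤ 1
      rw [abs_le]
      constructor
      · linarith [a1.1, a1.2]
      · linarith [a1.1, a1.2]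
    exact norm_le_of (abs_le.mp hre) (abs_le.mp him)
  have hsplit : G 9 (fun i j => (⟨((D i j 0 : ℝ) - D i j 2) / 2 ^ 76, (D i j 1 : ℝ) / 2 ^ 76⟩ : ℂ)) v =
      G 9 (fun i j => Mx d2 e2 i j + ((((if j = i then R i else 0 : ℕ) : ℝ) : ℂ) + E i j)) v := by
    refine G_congr 9 _ _ v fun i hi j hj _ => ?_
    apply Complex.ext
    · show ((D i j 0 : ℝ) - D i j 2) / 2 ^ 76 = (((d2 i j : ℕ) : ℝ) - 2 ^ 36) +
        (((if j = i then R i else 0 : ℕ) : ℝ) + (((D i j 0 : ℝ) - D i j 2) / 2 ^ 76 -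
          (((D i j 0 / 2 ^ 76 : ℤ) : ℝ) - ((D i j 2 / 2 ^ 76 : ℤ) : ℝ))))
      rw [hdv i hi j hj]
      ring
    · show (D i j 1 : ℝ) / 2 ^ 76 = (((e2 i j : ℕ) : ℝ) - 2 ^ 36) +
        (0 + ((D i j 1 : ℝ) / 2 ^ 76 - ((D i j 1 / 2 ^ 76 : ℤ) : ℝ)))
      rw [hev i hi j hj]
      ring
  rw [hsplit, G_add, G_add]
  have hdiag : G 9 (fun i j => (((if j = i then R i else 0 : ℕ) : ℝ) : ℂ)) v =
      ∑ i ∈ range 9, (R i : ℝ) * ‖v i‖ ^ 2 :=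
    G_diagR 9 _ (fun i => (R i : ℝ)) v (fun i _ => by rw [if_pos rfl])
      (fun i _ j _ hij => by
        show ((((if j = i then R i else 0 : ℕ) : ℝ)) : ℂ) = 0
        rw [if_neg (by omega)]; norm_num)
  have herr := G_err (by norm_num : (0 : ℝ) ≤ 3 / 2) 9 E v hEb
  have hsum := sq_sum_le 9 (fun i => ‖v i‖)
  rw [hdiag]
  have e1 : ∑ i ∈ range 9, ((R i : ℝ) - 1238) * ‖v i‖ ^ 2 =
      ∑ i ∈ range 9, (R i : ℝ) * ‖v i‖ ^ 2 - 1238 * ∑ i ∈ range 9, ‖v i‖ ^ 2 := by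
    rw [Finset.mul_sum, ← Finset.sum_sub_distrib]
    exact Finset.sum_congr rfl fun i _ => by ring
  rw [e1]
  have hnn : (0 : ℝ) ≤ ∑ i ∈ range 9, ‖v i‖ ^ 2 := Finset.sum_nonneg fun i _ => by positivity
  push_cast at hsum
  linarith

/-- THE LEAF THEOREM, digits with offset `2 ^ 122` -/
theorem tfY_ok {N : ℕ → ℕ → Fin 3 → ℤ} {Y : ℕ}
    (hY : Y = pk (2 ^ 128) 270 (fun k => (2 ^ 122 + dgC N k).toNat))
    (hb : ∀ K L, K < 9 → L < 9 → ∀ e, |N K L e| ≤ 2 ^ 121) {R : ℕ → ℕ}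
    (hR : ∀ K < 9, R K ≤ 2 ^ 36) (ht : tfY (RdC R) Y = true) (v : ℕ → ℂ) :
    ∑ K ∈ range 9, ((R K : ℝ) - 1238) * ‖v K‖ ^ 2 ≤
      G 9 (fun K L => (((N K L 0 - N K L 2 : ℤ) : ℂ) + ((N K L 1 : ℤ) : ℂ) * Complex.I) / 2 ^ 76) v := by
  obtain ⟨d1, e1, hN, hE⟩ := tNY_eq hb hY hR
  have ht' : tfC2 (tNY (RdC R) Y) = true := ht
  rw [RdC_eq, hN] at ht'
  have h := tfC2_sound hE ht' v
  refine h.trans (le_of_eq (G_congr 9 _ _ v fun i hi j hj _ => ?_))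
  have h76 : ((2 : ℂ) ^ 76) = (((2 : ℝ) ^ 76 : ℝ) : ℂ) := by push_cast; rfl
  rw [h76]
  apply Complex.ext
  · rw [Complex.div_ofReal_re]
    simp
  · rw [Complex.div_ofReal_im]
    simp

end Pool.Agent.Helper90.C9
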