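import Pool.Agent.Helper90.CX.KM1
import Pool.Agent.Helper90.C9.C9E
import Pool.Agent.Helper90.C9.DG

/-!
Row K9 (MP_c75db0), digits of 128 bits: packed range tests for signed numbers, any layout.

`rzG O h x` : `O` = `pk (2 ^ 128) n c` with `c k = 1` at the used digits; `rzC h x` for 270 digits.
-/

set_option autoImplicit false
noncomputable section
namespace Pool.Agent.Helper90.DG

open Pool.Agent.Helper90.K9 (pk pz pk_zero pk_succ pz_succ pk_cast pk_congr pz_congr pk_add pz_add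
  pz_sub pk_smul pz_smul pz_last pk_last pk_split pk_nest pk_lt pk_inj land_split shl_pk land_pk
  drop_pk)
open Pool.Agent.Helper90.C9 (xor_split xor_pk xor_compl sel sel_true pk_zeros ONEC)
open Pool.Agent.Helper86.C75 (Z)
open Pool.Agent.Helper90.KMO (zv zv_sub zv_p zv_m)

/-- signed digits are unique -/
theorem pz_zero_of {b : ℤ} (hb : 0 < b) : ∀ (n : ℕ) (f : ℕ → ℤ) (z : ℤ), (∀ k < n, |f k| < b) →
    pz b n f = b ^ n * z → ∀ k < n, f k = 0
  | 0, _, _, _, _ => fun k hk => absurd hk (Nat.not_lt_zero k)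
  | n + 1, f, z, hf, h => by
    rw [pz_succ] at h
    have h0 : f 0 = 0 := by
      have hd : b ∣ f 0 := ⟨b ^ n * z - pz b n (fun i => f (i + 1)), by
        have e : b ^ (n + 1) * z = b * (b ^ n * z) := by rw [pow_succ]; ring
        rw [mul_sub, ← e, ← h]; ring⟩
      exact Int.eq_zero_of_abs_lt_dvd hd (hf 0 (Nat.succ_pos n))
    have h1 : pz b n (fun i => f (i + 1)) = b ^ n * z := by
      rw [h0, zero_add, pow_succ, mul_comm (b ^ n) b, mul_assoc] at h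
      exact mul_left_cancel₀ hb.ne' h
    intro k hk
    cases k with
    | zero => exact h0
    | succ k =>
      exact pz_zero_of hb n (fun i => f (i + 1)) z (fun i hi => hf (i + 1) (Nat.succ_lt_succ hi)) h1 k
        (Nat.lt_of_succ_lt_succ hk)

/-- canonical digits -/
theorem pk_digits (b : ℕ) : ∀ (n Y : ℕ), Y = pk b n (fun k => Y / b ^ k % b) + b ^ n * (Y / b ^ n)
  | 0, Y => by
    rw [pk_zero, pow_zero, Nat.div_one]; ring
  | n + 1, Y => by
    have ih := pk_digits b n (Y / b)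
    have e : pk b n (fun k => Y / b ^ (k + 1) % b) = pk b n (fun k => Y / b / b ^ k % b) :=
      pk_congr _ _ _ _ fun k _ => by rw [pow_succ, mul_comm, Nat.div_div_eq_div_mul]
    have e2 : Y / b ^ (n + 1) = Y / b / b ^ n := by rw [pow_succ, mul_comm, Nat.div_div_eq_div_mul]
    rw [pk_succ, e, e2]
    have h3 := Nat.mod_add_div Y b
    rw [pow_zero, Nat.div_one]
    calc Y = Y % b + b * (Y / b) := h3.symm
      _ = Y % b + b * (pk b n (fun k => Y / b / b ^ k % b) + b ^ n * (Y / b / b ^ n)) := by rw [← ih]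
      _ = _ := by ring

theorem hi_zero {h y : ℕ} (hh : h ≤ 125) (hy : y < 2 ^ 128)
    (hl : y &&& (2 ^ 128 - 2 ^ (h + 1)) = 0) : y < 2 ^ (h + 1) := by
  have e : (2 : ℕ) ^ 128 - 2 ^ (h + 1) = 2 ^ (h + 1) * (2 ^ (127 - h) - 1) := by
    rw [Nat.mul_sub, Nat.mul_one, ← pow_add]
    congr 2
    omega
  have h1 := land_split (h + 1) (y % 2 ^ (h + 1)) (y / 2 ^ (h + 1)) 0 (2 ^ (127 - h) - 1)
    (Nat.mod_lt _ (by positivity)) (by positivity)
  have hq : y / 2 ^ (h + 1) < 2 ^ (127 - h) := by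
    rw [Nat.div_lt_iff_lt_mul (by positivity), ← pow_add]
    have : 127 - h + (h + 1) = 128 := by omega
    rw [this]; exact hy
  rw [Nat.mod_add_div, Nat.zero_add, ← e, hl, Nat.and_zero, Nat.zero_add,
    Nat.and_two_pow_sub_one_eq_mod, Nat.mod_eq_of_lt hq] at h1
  have h2 : y / 2 ^ (h + 1) = 0 := by
    rcases Nat.mul_eq_zero.mp h1.symm with h3 | h3
    · exact absurd h3 (by positivity)
    · exact h3
  exact (Nat.div_eq_zero_iff_lt (by positivity)).mp h2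

/-- RANGE TEST: digits `f k + c k * 2 ^ h` -/
theorem range_of_land {n h : ℕ} (hh : h ≤ 125) {Y : ℕ} {f : ℕ → ℤ} {c : ℕ → ℕ}
    (hc : ∀ k < n, c k = 1 ∨ c k = 0 ∧ f k = 0)
    (hY : (Y : ℤ) = pz (2 ^ 128) n (fun k => f k + c k * 2 ^ h)) (hf : ∀ k < n, |f k| ≤ 2 ^ 126)
    (hl : Y &&& pk (2 ^ 128) n (fun k => c k * (2 ^ 128 - 2 ^ (h + 1))) = 0) :
    ∀ k < n, |f k| ≤ 2 ^ h := by
  set y : ℕ → ℕ := fun k => Y / (2 ^ 128) ^ k % 2 ^ 128 with hy
  have hdig := pk_digits (2 ^ 128) n Y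
  have hyl : ∀ k < n, y k < 2 ^ 128 := fun k _ => Nat.mod_lt _ (by positivity)
  have hml : ∀ k < n, c k * (2 ^ 128 - 2 ^ (h + 1)) < 2 ^ 128 := fun k hk => by
    have : (2 : ℕ) ^ 128 - 2 ^ (h + 1) < 2 ^ 128 := Nat.sub_lt (by positivity) (by positivity)
    rcases hc k hk with h1 | ⟨h1, _⟩
    · rw [h1, Nat.one_mul]; exact this
    · rw [h1, Nat.zero_mul]; positivity
  have h1 := land_pk (e := 128) n y (fun k => c k * (2 ^ 128 - 2 ^ (h + 1))) (Y / (2 ^ 128) ^ n) hyl hml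
  rw [← hdig, hl] at h1
  have h2 : ∀ k < n, y k &&& (c k * (2 ^ 128 - 2 ^ (h + 1))) = 0 := by
    have h3 := pk_inj (b := 2 ^ 128) (by positivity) n
      (fun k => y k &&& (c k * (2 ^ 128 - 2 ^ (h + 1)))) (fun _ => 0)
      (fun k hk => lt_of_le_of_lt Nat.and_le_left (hyl k hk)) (fun _ _ => by positivity)
      (by rw [← h1, pk_zeros _ _ _ (fun _ => rfl)])
    exact h3
  -- the signed digits
  have h4 : pz (2 ^ 128) n (fun k => f k + c k * 2 ^ h - y k) = (2 ^ 128) ^ n * ((Y / (2 ^ 128) ^ n : ℕ) : ℤ) := by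
    have h5 : (Y : ℤ) = pz (2 ^ 128) n (fun k => (y k : ℤ)) + (2 ^ 128) ^ n * ((Y / (2 ^ 128) ^ n : ℕ) : ℤ) := by
      have h6 := congrArg (Nat.cast : ℕ → ℤ) hdig
      have e : ((2 ^ 128 : ℕ) : ℤ) = 2 ^ 128 := by rw [Nat.cast_pow]; rfl
      rw [Nat.cast_add, Nat.cast_mul, pk_cast, Nat.cast_pow (2 ^ 128) n, e] at h6
      exact h6
    rw [← pz_sub]
    rw [hY] at h5
    linarith
  have pB : (2 : ℤ) ^ 126 + 2 ^ 126 < (2 ^ 128) := by
    show (2 : ℤ) ^ 126 + 2 ^ 126 < 2 ^ 128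
    norm_num
  have hh2 : (2 : ℤ) ^ h ≤ 2 ^ 125 := pow_le_pow_right₀ (by norm_num) hh
  have hh1 : (2 : ℤ) ^ (h + 1) ≤ 2 ^ 126 := pow_le_pow_right₀ (by norm_num) (by omega)
  have h0 : (0 : ℤ) < 2 ^ h := by positivity
  have h7 : ∀ k < n, c k = 1 → (y k : ℤ) < 2 ^ (h + 1) := fun k hk hck => by
    have h8 := h2 k hk
    rw [hck, Nat.one_mul] at h8
    exact_mod_cast hi_zero hh (hyl k hk) h8
  have h9 := pz_zero_of (show (0 : ℤ) < (2 ^ 128) by show (0 : ℤ) < 2 ^ 128; positivity) n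
    (fun k => f k + c k * 2 ^ h - y k) ((Y / (2 ^ 128) ^ n : ℕ) : ℤ) (fun k hk => by
      show |f k + c k * 2 ^ h - y k| < (2 ^ 128)
      have hf' := abs_le.mp (hf k hk)
      have hy0 : (0 : ℤ) ≤ (y k : ℤ) := Int.natCast_nonneg _
      rcases hc k hk with h1 | ⟨h1, h1'⟩
      · have hy1 := h7 k hk h1
        rw [h1, Nat.cast_one, one_mul, abs_lt]
        constructor
        · linarith [hf'.1]
        · have : (2 : ℤ) ^ 125 < 2 ^ 126 := by norm_num
          linarith [hf'.2]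
      · rw [h1, h1', Nat.cast_zero, zero_mul, zero_add, zero_sub, abs_neg, abs_of_nonneg hy0]
        have : (y k : ℤ) < ((2 ^ 128 : ℕ) : ℤ) := by exact_mod_cast hyl k hk
        rw [Nat.cast_pow] at this
        exact this) h4
  intro k hk
  rcases hc k hk with h1 | ⟨_, h1'⟩
  · have h10 : f k + c k * 2 ^ h - y k = 0 := h9 k hk
    have hy1 := h7 k hk h1
    have hy0 : (0 : ℤ) ≤ (y k : ℤ) := Int.natCast_nonneg _
    rw [h1, Nat.cast_one, one_mul] at h10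
    rw [pow_succ] at hy1
    rw [abs_le]
    constructor
    · linarith
    · linarith
  · rw [h1', abs_zero]
    exact h0.le

/-! ### kernel functions -/

def mkG (O h : ℕ) : ℕ := Nat.mul O (Nat.sub (nat_lit 0x100000000000000000000000000000000) (Nat.shiftLeft (nat_lit 2) h))
def rzGP (O h n : ℕ) : Bool :=
  Nat.beq (Nat.land (Nat.add (Nat.shiftLeft O h) n) (mkG O h)) (nat_lit 0)
def rzGM (O h n : ℕ) : Bool :=
  sel (Nat.ble n (Nat.shiftLeft O h)) (Nat.beq (Nat.land (Nat.sub (Nat.shiftLeft O h) n) (mkG O h)) (nat_lit 0))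
/-- range test of a signed number: all digits with `c k = 1` are at most `2 ^ h` -/
def rzG (O h : ℕ) (x : Z) : Bool := Z.rec (motive := fun _ => Bool) (rzGP O h) (rzGM O h) x

theorem mkG_eq {O n h : ℕ} {c : ℕ → ℕ} (hO : O = pk (2 ^ 128) n c) :
    mkG O h = pk (2 ^ 128) n (fun k => c k * (2 ^ 128 - 2 ^ (h + 1))) := by
  show O * ((0x100000000000000000000000000000000 : ℕ) - (2 <<< h)) = _
  have e1 : (0x100000000000000000000000000000000 : ℕ) = 2 ^ 128 := by norm_num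
  have e2 : (2 <<< h : ℕ) = 2 ^ (h + 1) := by rw [Nat.shiftLeft_eq, pow_succ, mul_comm]
  rw [e1, e2, hO, Nat.mul_comm, pk_smul]
  exact pk_congr _ _ _ _ fun _ _ => by rw [Nat.mul_comm]

/-- THE RANGE TEST, any layout -/
theorem rzG_ok {O n h : ℕ} (hh : h ≤ 125) {c : ℕ → ℕ} (hO : O = pk (2 ^ 128) n c) {x : Z} {f : ℕ → ℤ}
    (hc : ∀ k < n, c k = 1 ∨ c k = 0 ∧ f k = 0) (hx : zv x = pz (2 ^ 128) n f)
    (hf : ∀ k < n, |f k| ≤ 2 ^ 126) (ht : rzG O h x = true) : ∀ k < n, |f k| ≤ 2 ^ h := by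
  have key : ∀ Y : ℕ, (Y : ℤ) = ((O <<< h : ℕ) : ℤ) + zv x → Y &&& mkG O h = 0 →
      ∀ k < n, |f k| ≤ 2 ^ h := by
    intro Y hY hl
    rw [mkG_eq hO] at hl
    have hY' : (Y : ℤ) = pz (2 ^ 128) n (fun k => f k + (c k : ℤ) * 2 ^ h) := by
      rw [hY, hx, Nat.shiftLeft_eq, Nat.cast_mul, hO, pk_cast, Nat.cast_pow, Nat.cast_pow,
        mul_comm (pz _ _ _), pz_smul]
      have e : (((2 : ℕ) : ℤ) ^ 128) = 2 ^ 128 := rfl
      rw [e, pz_add]
      refine pz_congr _ _ _ _ fun k _ => ?_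
      rw [Nat.cast_ofNat]
      ring
    exact range_of_land hh hc hY' hf hl
  cases x with
  | p m =>
    have h1 : Nat.beq (Nat.land (Nat.add (Nat.shiftLeft O h) m) (mkG O h)) (nat_lit 0) = true := ht
    exact key (O <<< h + m) (by rw [Nat.cast_add, zv_p]) (Nat.eq_of_beq_eq_true h1)
  | m m =>
    have h2 : sel (Nat.ble m (Nat.shiftLeft O h)) (Nat.beq (Nat.land (Nat.sub (Nat.shiftLeft O h) m)
      (mkG O h)) (nat_lit 0)) = true := ht
    obtain ⟨h3, h4⟩ := sel_true h2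
    have h5 : m ≤ O <<< h := Nat.le_of_ble_eq_true h3
    exact key (O <<< h - m) (by rw [Nat.cast_sub h5, zv_m]; ring) (Nat.eq_of_beq_eq_true h4)

/-- the same for natural numbers with an offset: `Y = pk (2 ^ 128) n (fun k => (2 ^ o + f k).toNat)` -/
theorem off_digits {n o : ℕ} {f : ℕ → ℤ} {Y O : ℕ} {x : Z} (hO : O = pk (2 ^ 128) n (fun _ => 2 ^ o))
    (hx : zv x = pz (2 ^ 128) n f) (hf : ∀ k < n, |f k| ≤ 2 ^ o) (hY : (Y : ℤ) = (O : ℤ) + zv x) :
    Y = pk (2 ^ 128) n (fun k => (2 ^ o + f k).toNat) := by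
  have h : (Y : ℤ) = ((pk (2 ^ 128) n (fun k => (2 ^ o + f k).toNat) : ℕ) : ℤ) := by
    rw [hY, hx, hO, pk_cast, pk_cast, Nat.cast_pow]
    have e : (((2 : ℕ) : ℤ) ^ 128) = 2 ^ 128 := rfl
    rw [e, pz_add]
    refine pz_congr _ _ _ _ fun k hk => ?_
    have h1 := abs_le.mp (hf k hk)
    rw [Int.toNat_of_nonneg (by linarith), Nat.cast_pow]
    rfl
  exact_mod_cast h

theorem ONEC_eq : ONEC = pk (2 ^ 128) 270 (fun _ => 1) := by decide +kernel

/-- 270 digits -/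
def rzC (h : ℕ) (x : Z) : Bool := rzG ONEC h x

theorem rzC_ok {h : ℕ} (hh : h ≤ 125) {x : Z} {f : ℕ → ℤ} (hx : zv x = pz (2 ^ 128) 270 f)
    (hf : ∀ k < 270, |f k| ≤ 2 ^ 126) (ht : rzC h x = true) : ∀ k < 270, |f k| ≤ 2 ^ h :=
  rzG_ok hh ONEC_eq (fun _ _ => Or.inl rfl) hx hf ht

end Pool.Agent.Helper90.DG
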