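import Pool.Agent.Helper90.CX.K9B

/-!
Row K9 (MP_c75db0): elimination of a packed 9 x 9 matrix with digits of 128 bits. Part A: slots,
the column and the row of a pivot.

Stored digits of a matrix with `n` rows left: real part `x + 2^36 + 2^59`, imaginary part
`y + 2^36 + n * 2^58`.
-/

set_option autoImplicit false
noncomputable section
namespace Pool.Agent.Helper90.C9

open Pool.Agent.Helper90.K9 (pk pz pk_zero pk_succ pz_succ pk_cast pk_congr pz_congr pk_add pz_add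
  pz_sub pk_smul pz_smul pz_last pk_last pk_split pk_nest pk_lt pk_inj land_split shl_pk land_pk
  drop_pk)

def B : ℕ := 2 ^ 128
def B3 : ℕ := 2 ^ 384
def V : ℕ := 2 ^ 3840

theorem B3_eq : B3 = B * (B * B) := by
  unfold B B3
  rw [← pow_add, ← pow_add]
theorem V_eq : V = B3 ^ 10 := by
  unfold B3 V
  rw [← pow_mul]
theorem B_pos : 0 < B := by unfold B; positivity
theorem B3_pos : 0 < B3 := by unfold B3; positivity
theorem V_pos : 0 < V := by unfold V; positivity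

theorem V_split {n : ℕ} (hn : n ≤ 10) : V = B3 ^ n * B3 ^ (10 - n) := by
  rw [V_eq, ← pow_add]
  congr 1
  omega

theorem two_ltBB {c0 c1 : ℕ} (h0 : c0 < B) (h1 : c1 < B) : c0 + B * c1 < B * B := by
  have h1 := Nat.mul_le_mul_left B (Nat.succ_le_of_lt h1)
  rw [Nat.mul_succ] at h1
  omega

theorem two_lt {c0 c1 : ℕ} (h0 : c0 < B) (h1 : c1 < B) : c0 + B * c1 < B3 := by
  refine lt_of_lt_of_le (two_ltBB h0 h1) ?_
  rw [B3_eq, ← Nat.mul_assoc]
  exact Nat.le_mul_of_pos_right _ B_pos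

/-- a slot with two digits -/
def s2 (d e : ℕ → ℕ → ℕ) (i j : ℕ) : ℕ := d i j + B * e i j

/-- stored slot of a matrix with `n` rows left -/
def sl (n : ℕ) (d e : ℕ → ℕ → ℕ) (i j : ℕ) : ℕ := (d i j + 2 ^ 59) + B * (e i j + n * 2 ^ 58)

theorem d_ltB {d : ℕ} (h : d < 2 ^ 37) : d + 2 ^ 59 < B := by
  have : (2 : ℕ) ^ 37 + 2 ^ 59 < B := by unfold B; norm_num
  omega
theorem e_ltB {n e : ℕ} (hn : n ≤ 9) (h : e < 2 ^ 37) : e + n * 2 ^ 58 < B := by
  have h1 : n * 2 ^ 58 ≤ 9 * 2 ^ 58 := Nat.mul_le_mul_right _ hn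
  have : (2 : ℕ) ^ 37 + 9 * 2 ^ 58 < B := by unfold B; norm_num
  omega

theorem sl_lt {n : ℕ} (hn : n ≤ 9) {d e : ℕ → ℕ → ℕ} {i j : ℕ} (hd : d i j < 2 ^ 37)
    (he : e i j < 2 ^ 37) : sl n d e i j < B3 := two_lt (d_ltB hd) (e_ltB hn he)

/-- packed state of size n -/
structure Inv (n N : ℕ) (d e : ℕ → ℕ → ℕ) (u : ℕ → ℕ) : Prop where
  hd : ∀ i < n, ∀ j < n, d i j < 2 ^ 37
  he : ∀ i < n, ∀ j < n, e i j < 2 ^ 37
  hu : ∀ i < n, u i < B3 ^ (10 - n)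
  hN : N = pk V n (fun i => pk B3 n (sl n d e i) + B3 ^ n * u i)

structure St where
  W2 : ℕ
  cR : ℕ
  E : ℕ
  M : ℕ
  XM : ℕ
  K : ℕ
  OFF : ℕ
  MV0 : ℕ
  MV01 : ℕ
  HI : ℕ
  PT : ℕ

/-- the constants of the step from `m + 1` rows to `m` rows are right -/
structure OK (m : ℕ) (s : St) : Prop where
  W2 : s.W2 = B3 ^ (m + 1) - 1
  cR : s.cR + pk B3 (m + 1) (fun _ => (2 ^ 36 + 2 ^ 59) + B * (2 ^ 36 + (m + 1) * 2 ^ 58)) = B3 ^ (m + 1)
  E : s.E = pk (B3 ^ 9) (m + 1) (fun _ => 1)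
  M : s.M = pk V (m + 1) (fun _ => (2 ^ 37 - 1) + B * (2 ^ 37 - 1))
  XM : s.XM = pk V (m + 1) (fun _ => 0 + B * (2 ^ 37 - 1))
  K : s.K + pk V (m + 1) (fun _ => 2 ^ 36 + B * (2 ^ 36 - 1)) = V ^ (m + 1)
  OFF : s.OFF = pk V (m + 1) (fun _ => pk B3 (m + 2) (fun _ => 2 ^ 127 + B * (2 ^ 127 + B * 2 ^ 127)))
  MV0 : s.MV0 = pk V (m + 1) (fun _ => pk B3 (m + 1) (fun _ => 2 ^ 59 - 1))
  MV01 : s.MV01 = pk V (m + 1) (fun _ => pk B3 (m + 1) (fun _ => (2 ^ 59 - 1) + B * (2 ^ 59 - 1)))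
  HI : s.HI = pk V m (fun _ => pk B3 m (fun _ => 2 ^ 37 * (2 ^ 91 - 1) + B * (2 ^ 37 * (2 ^ 91 - 1))))
  PT : s.PT = pk V m (fun _ => pk B3 m (fun _ => 2 ^ 59 + B * (m * 2 ^ 58)))

/-! ### reading the first row -/

theorem first_row {m N : ℕ} {d e : ℕ → ℕ → ℕ} {u : ℕ → ℕ} (hm : m + 1 ≤ 9) (I : Inv (m + 1) N d e u) :
    N &&& (B3 ^ (m + 1) - 1) = pk B3 (m + 1) (sl (m + 1) d e 0) := by
  have h0 : pk B3 (m + 1) (sl (m + 1) d e 0) < B3 ^ (m + 1) :=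
    pk_lt B3_pos _ _ fun j hj => sl_lt hm (I.hd 0 (by omega) j hj) (I.he 0 (by omega) j hj)
  have e0 : B3 ^ (m + 1) = 2 ^ (384 * (m + 1)) := by unfold B3; rw [← pow_mul]
  rw [e0, Nat.and_two_pow_sub_one_eq_mod, ← e0, I.hN, pk_succ]
  have hV := V_split (show m + 1 ≤ 10 by omega)
  generalize pk V m (fun i => pk B3 (m + 1) (sl (m + 1) d e (i + 1)) + B3 ^ (m + 1) * u (i + 1)) = X
  have : pk B3 (m + 1) (sl (m + 1) d e 0) + B3 ^ (m + 1) * u 0 + V * X =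
      pk B3 (m + 1) (sl (m + 1) d e 0) + B3 ^ (m + 1) * (u 0 + B3 ^ (10 - (m + 1)) * X) := by
    rw [hV]; ring
  rw [this, Nat.add_mul_mod_self_left, Nat.mod_eq_of_lt h0]

theorem low_digit {m : ℕ} {d e : ℕ → ℕ → ℕ} (hd : d 0 0 < 2 ^ 37) :
    pk B3 (m + 1) (sl (m + 1) d e 0) % B = d 0 0 + 2 ^ 59 := by
  rw [pk_succ, B3_eq]
  generalize pk _ m _ = X
  unfold sl
  have : d 0 0 + 2 ^ 59 + B * (e 0 0 + (m + 1) * 2 ^ 58) + B * (B * B) * X =
      d 0 0 + 2 ^ 59 + B * (e 0 0 + (m + 1) * 2 ^ 58 + B * B * X) := by ring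
  rw [this, Nat.add_mul_mod_self_left, Nat.mod_eq_of_lt (d_ltB hd)]

/-! ### the column of the first row -/

theorem pk_zeros (b : ℕ) : ∀ (k : ℕ) (f : ℕ → ℕ), (∀ i, f i = 0) → pk b k f = 0
  | 0, _, _ => rfl
  | k + 1, f, hf => by
    rw [pk_succ, hf 0, pk_zeros b k _ (fun i => hf (i + 1)), Nat.mul_zero]

/-- the windows: copies of the first row with stride 9, read with stride 10 -/
theorem window {n : ℕ} (hn : n ≤ 9) (s : ℕ → ℕ) (hs : ∀ j < n, s j < B3) :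
    ∃ X : ℕ → ℕ, pk (B3 ^ 9) n (fun _ => 1) * pk B3 n s = pk V n (fun i => s i + B3 * X i) ∧
      ∀ i < n, s i + B3 * X i < V := by
  set s' : ℕ → ℕ := fun j => if j < n then s j else 0 with hs'
  have e1 : pk B3 n s = pk B3 9 s' := by
    have h9 : 9 = n + (9 - n) := by omega
    rw [h9, pk_split]
    have h1 : pk B3 n s' = pk B3 n s := pk_congr _ _ _ _ fun i hi => by
      rw [hs']; exact if_pos hi
    have h2 : ∀ (k : ℕ), pk B3 k (fun i => s' (n + i)) = 0 := fun k =>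
      pk_zeros B3 k _ fun i => by rw [hs']; exact if_neg (by omega)
    rw [h1, h2, Nat.mul_zero, Nat.add_zero]
  set F : ℕ → ℕ := fun k => if k < 9 * n then s' (k % 9) else 0 with hF
  have e2 : pk (B3 ^ 9) n (fun _ => 1) * pk B3 n s = pk B3 (9 * n) F := by
    rw [pk_nest, e1, Nat.mul_comm, pk_smul]
    refine pk_congr _ _ _ _ fun i hi => ?_
    rw [Nat.mul_one]
    refine pk_congr _ _ _ _ fun j hj => ?_
    rw [hF]
    show s' j = if 9 * i + j < 9 * n then s' ((9 * i + j) % 9) else 0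
    rw [if_pos (by omega), Nat.mul_add_mod, Nat.mod_eq_of_lt hj]
  have e3 : pk B3 (9 * n) F = pk B3 (10 * n) F := by
    have h9 : 10 * n = 9 * n + n := by ring
    rw [h9, pk_split]
    rw [pk_zeros B3 n _ fun i => by rw [hF]; exact if_neg (by omega), Nat.mul_zero, Nat.add_zero]
  have e4 : pk B3 (10 * n) F = pk V n (fun i => pk B3 10 (fun j => F (10 * i + j))) := by
    rw [pk_nest, V_eq]
  have hFi : ∀ i < n, F (10 * i + 0) = s i := fun i hi => by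
    rw [hF]
    show (if 10 * i + 0 < 9 * n then s' ((10 * i + 0) % 9) else 0) = s i
    rw [if_pos (by omega)]
    have : (10 * i + 0) % 9 = i := by omega
    rw [this, hs']
    exact if_pos hi
  refine ⟨fun i => pk B3 9 (fun j => F (10 * i + (j + 1))), ?_, ?_⟩
  · rw [e2, e3, e4]
    refine pk_congr _ _ _ _ fun i hi => ?_
    rw [pk_succ, hFi i hi]
  · intro i hi
    have hF' : ∀ k, F k < B3 := by
      intro k
      rw [hF]
      show (if k < 9 * n then s' (k % 9) else 0) < B3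
      split_ifs
      · rw [hs']
        show (if k % 9 < n then s (k % 9) else 0) < B3
        split_ifs with h3
        · exact hs _ h3
        · exact B3_pos
      · exact B3_pos
    have h5 := pk_lt B3_pos 10 (fun j => F (10 * i + j)) (fun j _ => hF' _)
    rw [pk_succ, ← V_eq, hFi i hi] at h5
    exact h5

theorem land_V (n : ℕ) (f g : ℕ → ℕ) (hf : ∀ i < n, f i < V) (hg : ∀ i < n, g i < V) :
    pk V n f &&& pk V n g = pk V n (fun i => f i &&& g i) := by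
  have h := land_pk (e := 3840) n f g 0 hf hg
  rw [Nat.mul_zero, Nat.add_zero] at h
  exact h

theorem land_B3 (n : ℕ) (f g : ℕ → ℕ) (R : ℕ) (hf : ∀ i < n, f i < B3) (hg : ∀ i < n, g i < B3) :
    (pk B3 n f + B3 ^ n * R) &&& pk B3 n g = pk B3 n (fun i => f i &&& g i) :=
  land_pk (e := 384) n f g R hf hg

theorem land_B (a c m n : ℕ) (ha : a < B) (hm : m < B) :
    (a + B * c) &&& (m + B * n) = (a &&& m) + B * (c &&& n) :=
  land_split 128 a c m n ha hm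

theorem low37 {a k : ℕ} (ha : a < 2 ^ 37) : (a + 2 ^ 37 * k) &&& (2 ^ 37 - 1) = a := by
  rw [Nat.and_two_pow_sub_one_eq_mod, Nat.add_mul_mod_self_left, Nat.mod_eq_of_lt ha]

theorem m37B : (2 : ℕ) ^ 37 - 1 < B := by unfold B; norm_num
theorem B3V : B3 ≤ V := by
  rw [V_eq]
  exact Nat.le_self_pow (by norm_num) _

/-- the digits of the column -/
theorem col {n : ℕ} (hn : n ≤ 9) {d e : ℕ → ℕ → ℕ} (hd : ∀ j < n, d 0 j < 2 ^ 37)
    (he : ∀ j < n, e 0 j < 2 ^ 37) :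
    (pk (B3 ^ 9) n (fun _ => 1) * pk B3 n (sl n d e 0)) &&&
      pk V n (fun _ => (2 ^ 37 - 1) + B * (2 ^ 37 - 1)) = pk V n (s2 d e 0) := by
  obtain ⟨X, h1, h2⟩ := window hn (sl n d e 0) fun j hj => sl_lt hn (hd j hj) (he j hj)
  rw [h1, land_V n (fun i => sl n d e 0 i + B3 * X i) _ h2
    (fun _ _ => lt_of_lt_of_le (two_lt m37B m37B) B3V)]
  refine pk_congr _ _ _ _ fun i hi => ?_
  have h3 : sl n d e 0 i + B3 * X i = (d 0 i + 2 ^ 59) + B * ((e 0 i + n * 2 ^ 58) + B * (B * X i)) := by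
    unfold sl
    rw [B3_eq]; ring
  have h4 := land_B (d 0 i + 2 ^ 59) ((e 0 i + n * 2 ^ 58) + B * (B * X i)) (2 ^ 37 - 1) (2 ^ 37 - 1)
    (d_ltB (hd i hi)) m37B
  have h5 := land_B (e 0 i + n * 2 ^ 58) (B * X i) (2 ^ 37 - 1) 0 (e_ltB hn (he i hi)) m37B
  rw [Nat.mul_zero, Nat.add_zero, Nat.and_zero, Nat.mul_zero, Nat.add_zero] at h5
  have h6 : (d 0 i + 2 ^ 59) &&& (2 ^ 37 - 1) = d 0 i := by
    have : (2 : ℕ) ^ 59 = 2 ^ 37 * 2 ^ 22 := by norm_num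
    rw [this]; exact low37 (hd i hi)
  have h7 : (e 0 i + n * 2 ^ 58) &&& (2 ^ 37 - 1) = e 0 i := by
    have : n * 2 ^ 58 = 2 ^ 37 * (n * 2 ^ 21) := by
      have : (2 : ℕ) ^ 58 = 2 ^ 37 * 2 ^ 21 := by norm_num
      rw [this]; ring
    rw [this]; exact low37 (he i hi)
  rw [h3, h4, h5, h6, h7]
  rfl

/-! ### digitwise xor -/

theorem xor_split (e a c m n : ℕ) (ha : a < 2 ^ e) (hm : m < 2 ^ e) :
    (a + 2 ^ e * c) ^^^ (m + 2 ^ e * n) = (a ^^^ m) + 2 ^ e * (c ^^^ n) := by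
  have ham : a ^^^ m < 2 ^ e := Nat.xor_lt_two_pow ha hm
  apply Nat.eq_of_testBit_eq
  intro j
  rw [Nat.testBit_xor, Nat.add_comm a, Nat.add_comm m, Nat.add_comm (a ^^^ m),
    Nat.testBit_two_pow_mul_add c ha, Nat.testBit_two_pow_mul_add n hm,
    Nat.testBit_two_pow_mul_add (c ^^^ n) ham]
  by_cases h : j < e
  · rw [if_pos h, if_pos h, if_pos h, Nat.testBit_xor]
  · rw [if_neg h, if_neg h, if_neg h, Nat.testBit_xor]

theorem xor_pk {e : ℕ} : ∀ (n : ℕ) (f g : ℕ → ℕ), (∀ i < n, f i < 2 ^ e) → (∀ i < n, g i < 2 ^ e) →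
    pk (2 ^ e) n f ^^^ pk (2 ^ e) n g = pk (2 ^ e) n (fun i => f i ^^^ g i)
  | 0, _, _, _, _ => by
    rw [pk_zero, pk_zero, pk_zero]
    exact Nat.xor_self 0
  | n + 1, f, g, hf, hg => by
    rw [pk_succ, pk_succ, xor_split e _ _ _ _ (hf 0 (Nat.succ_pos n)) (hg 0 (Nat.succ_pos n)), pk_succ,
      xor_pk n _ _ (fun i hi => hf (i + 1) (Nat.succ_lt_succ hi))
        (fun i hi => hg (i + 1) (Nat.succ_lt_succ hi))]

theorem xor_compl {k e : ℕ} (h : e < 2 ^ k) : e ^^^ (2 ^ k - 1) = 2 ^ k - 1 - e := by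
  apply Nat.eq_of_testBit_eq
  intro j
  have e1 : 2 ^ k - 1 - e = 2 ^ k - (e + 1) := by omega
  rw [Nat.testBit_xor, Nat.testBit_two_pow_sub_one, e1, Nat.testBit_two_pow_sub_succ h]
  by_cases hj : j < k
  · simp [hj]
  · have : e.testBit j = false := by
      apply Nat.testBit_eq_false_of_lt
      exact lt_of_lt_of_le h (Nat.pow_le_pow_right (by norm_num) (by omega))
    simp [hj, this]

/-- conjugation of the column -/
theorem conj_col {n : ℕ} {d e : ℕ → ℕ → ℕ} (hd : ∀ j < n, d 0 j < 2 ^ 37)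
    (he : ∀ j < n, e 0 j < 2 ^ 37) :
    pk V n (s2 d e 0) ^^^ pk V n (fun _ => 0 + B * (2 ^ 37 - 1)) =
      pk V n (fun i => d 0 i + B * (2 ^ 37 - 1 - e 0 i)) := by
  have hdB : ∀ j < n, d 0 j < B := fun j hj =>
    lt_of_lt_of_le (hd j hj) (by unfold B; norm_num)
  have heB : ∀ j < n, e 0 j < B := fun j hj =>
    lt_of_lt_of_le (he j hj) (by unfold B; norm_num)
  have h := xor_pk (e := 3840) n (s2 d e 0) (fun _ => 0 + B * (2 ^ 37 - 1))
    (fun i hi => lt_of_lt_of_le (two_lt (hdB i hi) (heB i hi)) B3V)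
    (fun i hi => lt_of_lt_of_le (two_lt B_pos m37B) B3V)
  have h' : pk V n (s2 d e 0) ^^^ pk V n (fun _ => 0 + B * (2 ^ 37 - 1)) =
    pk V n (fun i => s2 d e 0 i ^^^ (0 + B * (2 ^ 37 - 1))) := h
  rw [h']
  refine pk_congr _ _ _ _ fun i hi => ?_
  have h2 := xor_split 128 (d 0 i) (e 0 i) 0 (2 ^ 37 - 1) (hdB i hi) (by positivity)
  have h3 : s2 d e 0 i ^^^ (0 + B * (2 ^ 37 - 1)) = (d 0 i ^^^ 0) + B * (e 0 i ^^^ (2 ^ 37 - 1)) := h2
  rw [h3, Nat.xor_zero, xor_compl (he i hi)]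

end Pool.Agent.Helper90.C9
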