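import Pool.Agent.Helper90.C9.C9A

/-!
Row K9 (MP_c75db0), digits of 128 bits. Part B: the product, masks, the range test, dropping a row.
-/

set_option autoImplicit false
noncomputable section
namespace Pool.Agent.Helper90.C9

open Pool.Agent.Helper90.K9 (pk pz pk_zero pk_succ pz_succ pk_cast pk_congr pz_congr pk_add pz_add
  pz_sub pk_smul pz_smul pz_last pk_last pk_split pk_nest pk_lt pk_inj land_split shl_pk land_pk
  drop_pk)

/-- floor of a scaled product -/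
def fl (w : ℤ) : ℤ := w / 2 ^ 69

theorem sh_cast {w : ℤ} {n : ℕ} (h : (n : ℤ) = w + 2 ^ 127) :
    ((n >>> 69 : ℕ) : ℤ) = fl w + 2 ^ 58 := by
  have h2 : ((2 ^ 69 : ℕ) : ℤ) = 2 ^ 69 := by norm_num
  have h1 : (2 : ℤ) ^ 127 = 2 ^ 58 * 2 ^ 69 := by norm_num
  rw [Nat.shiftRight_eq_div_pow, Int.natCast_ediv, h2, h, h1, Int.add_mul_ediv_right _ _ (by norm_num)]
  rfl

theorem sh_lt {n : ℕ} (h : n < B) : n >>> 69 < 2 ^ 59 := by
  rw [Nat.shiftRight_eq_div_pow, Nat.div_lt_iff_lt_mul (by positivity)]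
  have : B = 2 ^ 59 * 2 ^ 69 := by unfold B; norm_num
  omega

theorem sh_and {n : ℕ} (h : n < B) : n >>> 69 &&& (2 ^ 59 - 1) = n >>> 69 := by
  rw [Nat.and_two_pow_sub_one_eq_mod, Nat.mod_eq_of_lt (sh_lt h)]

/-- the slot of the product -/
def ws (w0 w1 w2 : ℕ → ℕ → ℕ) (i j : ℕ) : ℕ := w0 i j + B * (w1 i j + B * w2 i j)

theorem ws_lt {w0 w1 w2 : ℕ → ℕ → ℕ} {i j : ℕ} (h0 : w0 i j < B) (h1 : w1 i j < B)
    (h2 : w2 i j < B) : ws w0 w1 w2 i j < B3 := by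
  unfold ws
  rw [B3_eq]
  have e1 : w1 i j + B * w2 i j < B * B := two_ltBB h1 h2
  have e2 := Nat.mul_le_mul_left B (Nat.succ_le_of_lt e1)
  rw [Nat.mul_succ] at e2
  omega

theorem ws_sh {w0 w1 w2 : ℕ → ℕ → ℕ} {i j : ℕ} (h0 : w0 i j < B) (h1 : w1 i j < B) :
    (ws w0 w1 w2 i j) >>> 69 &&& ((2 ^ 59 - 1) + B * (2 ^ 59 - 1)) =
      (w0 i j >>> 69) + B * (w1 i j >>> 69) := by
  have h := shl_pk (e := 128) (k := 69) (by norm_num) 2 (fun k => if k = 0 then w0 i j else w1 i j)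
    (fun _ => 2 ^ 59 - 1) (w2 i j)
    (fun k _ => by
      show (if k = 0 then w0 i j else w1 i j) < B
      split_ifs
      exacts [h0, h1])
    (fun k _ => by norm_num)
  have e1 : pk (2 ^ 128) 2 (fun k => if k = 0 then w0 i j else w1 i j) + (2 ^ 128) ^ 2 * w2 i j =
      ws w0 w1 w2 i j := by
    show (w0 i j + B * (w1 i j + B * 0)) + B ^ 2 * w2 i j = _
    unfold ws
    ring
  have e2 : pk (2 ^ 128) 2 (fun _ => 2 ^ 59 - 1) = (2 ^ 59 - 1) + B * (2 ^ 59 - 1) := by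
    show (2 ^ 59 - 1) + B * ((2 ^ 59 - 1) + B * 0) = _
    rw [Nat.mul_zero, Nat.add_zero]
  have e3 : pk (2 ^ 128) 2 (fun k => (if k = 0 then w0 i j else w1 i j) >>> 69 &&& (2 ^ 59 - 1)) =
      (w0 i j >>> 69) + B * (w1 i j >>> 69) := by
    show (w0 i j >>> 69 &&& (2 ^ 59 - 1)) + B * ((w1 i j >>> 69 &&& (2 ^ 59 - 1)) + B * 0) = _
    rw [Nat.mul_zero, Nat.add_zero, sh_and h0, sh_and h1]
  rw [← e1, ← e2, h, e3]

theorem ws_sh2 {w0 w1 w2 : ℕ → ℕ → ℕ} {i j : ℕ} (h0 : w0 i j < B) (h1 : w1 i j < B)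
    (h2 : w2 i j < B) :
    (ws w0 w1 w2 i j) >>> 325 &&& (2 ^ 59 - 1) = w2 i j >>> 69 := by
  have e0 : (ws w0 w1 w2 i j) >>> 325 = ((ws w0 w1 w2 i j) / B / B) >>> 69 := by
    have : (325 : ℕ) = 128 + 128 + 69 := by norm_num
    rw [this, Nat.shiftRight_add, Nat.shiftRight_add, Nat.shiftRight_eq_div_pow _ 128,
      Nat.shiftRight_eq_div_pow _ 128]
    rfl
  have e1 : (ws w0 w1 w2 i j) / B / B = w2 i j := by
    unfold ws
    rw [Nat.add_mul_div_left _ _ B_pos, Nat.div_eq_of_lt h0, Nat.zero_add,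
      Nat.add_mul_div_left _ _ B_pos, Nat.div_eq_of_lt h1, Nat.zero_add]
  rw [e0, e1, sh_and h2]

/-- THE PRODUCT -/
theorem prod_eq {n : ℕ} (o : ℕ) (X Y : ℕ → ℤ) (q cp r : ℕ)
    (hc : (cp : ℤ) = (V : ℤ) ^ n + pz V n (fun i => X i - B * Y i))
    (hr : (r : ℤ) = pz B3 n (fun j => X j + B * Y j) + (B3 : ℤ) ^ n)
    (w0 w1 w2 : ℕ → ℕ → ℕ) (z0 z1 : ℕ → ℕ)
    (h0 : ∀ i < n, ∀ j < n, (w0 i j : ℤ) = q * (X i * X j) + o)
    (h1 : ∀ i < n, ∀ j < n, (w1 i j : ℤ) = q * (X i * Y j - Y i * X j) + o)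
    (h2 : ∀ i < n, ∀ j < n, (w2 i j : ℤ) = -(q * (Y i * Y j)) + o)
    (g0 : ∀ i < n, (z0 i : ℤ) = q * X i + o) (g1 : ∀ i < n, (z1 i : ℤ) = -(q * Y i) + o) :
    cp * (r * q) + pk V n (fun _ => pk B3 (n + 1) (fun _ => o + B * (o + B * o))) =
      pk V n (fun i => pk B3 n (ws w0 w1 w2 i) + B3 ^ n * (z0 i + B * (z1 i + B * o))) +
        V ^ n * (r * q) := by
  have key : ((cp * (r * q) + pk V n (fun _ => pk B3 (n + 1)
      (fun _ => o + B * (o + B * o))) : ℕ) : ℤ) =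
      ((pk V n (fun i => pk B3 n (ws w0 w1 w2 i) + B3 ^ n * (z0 i + B * (z1 i + B * o))) +
        V ^ n * (r * q) : ℕ) : ℤ) := by
    have hA := pk_cast V n (fun _ => pk B3 (n + 1) (fun _ => o + B * (o + B * o)))
    have hB := pk_cast V n
      (fun i => pk B3 n (ws w0 w1 w2 i) + B3 ^ n * (z0 i + B * (z1 i + B * o)))
    rw [Nat.cast_add, Nat.cast_add, Nat.cast_mul cp, Nat.cast_mul (V ^ n), Nat.cast_mul r q, Nat.cast_pow,
      hA, hB]
    have e1 : pz V n (fun i => ((pk B3 n (ws w0 w1 w2 i) +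
        B3 ^ n * (z0 i + B * (z1 i + B * o)) : ℕ) : ℤ)) =
        pz V n (fun i => (r * q : ℤ) * (X i - B * Y i) +
          ((pk B3 (n + 1) (fun _ => o + B * (o + B * o)) : ℕ) : ℤ)) := by
      refine pz_congr _ _ _ _ fun i hi => ?_
      push_cast
      rw [pk_last]
      push_cast
      rw [pk_cast, pk_cast, g0 i hi, g1 i hi]
      have e2 : pz B3 n (fun j => ((ws w0 w1 w2 i j : ℕ) : ℤ)) =
          (q * (X i - B * Y i) : ℤ) * pz B3 n (fun j => X j + B * Y j) +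
          pz B3 n (fun _ => ((o + B * (o + B * o) : ℕ) : ℤ)) := by
        rw [pz_smul, pz_add]
        refine pz_congr _ _ _ _ fun j hj => ?_
        unfold ws
        push_cast
        rw [h0 i hi j hj, h1 i hi j hj, h2 i hi j hj]
        ring
      rw [e2, hr]
      ring
    rw [e1, hc, ← pz_add, ← pz_smul]
    ring
  exact_mod_cast key

theorem row_lt {n : ℕ} (hn : n ≤ 9) {f : ℕ → ℕ} {z : ℕ} (hf : ∀ j < n, f j < B3) (hz : z < B3) :
    pk B3 n f + B3 ^ n * z < V := by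
  have h1 := pk_lt B3_pos n f hf
  have h2 := Nat.mul_le_mul_left (B3 ^ n) (Nat.succ_le_of_lt hz)
  rw [Nat.mul_succ] at h2
  have h3 : B3 ^ n * B3 ≤ V := by
    rw [V_eq, ← pow_succ]
    exact Nat.pow_le_pow_right B3_pos (by omega)
  omega

theorem row_lt' {n : ℕ} (hn : n ≤ 10) {f : ℕ → ℕ} {z : ℕ} (hf : ∀ j < n, f j < B3)
    (hz : z < B3 ^ (10 - n)) : pk B3 n f + B3 ^ n * z < V := by
  have h1 := pk_lt B3_pos n f hf
  have h2 := Nat.mul_le_mul_left (B3 ^ n) (Nat.succ_le_of_lt hz)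
  rw [Nat.mul_succ, ← V_split hn] at h2
  omega

theorem mask_lt {n k : ℕ} (hn : n ≤ 9) (hk : k ≤ 325) {g : ℕ → ℕ} (hg : ∀ j < n, g j < B3) :
    pk B3 n g < 2 ^ (3840 - k) := by
  refine lt_of_lt_of_le (pk_lt B3_pos n g hg) ?_
  unfold B3
  rw [← pow_mul]
  exact Nat.pow_le_pow_right (by norm_num) (by omega)

theorem shl_V {n k : ℕ} (hk : k ≤ 3840) (f g : ℕ → ℕ) (R : ℕ) (hf : ∀ i < n, f i < V)
    (hg : ∀ i < n, g i < 2 ^ (3840 - k)) :
    ((pk V n f + V ^ n * R) >>> k) &&& pk V n g = pk V n (fun i => (f i >>> k) &&& g i) :=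
  shl_pk (e := 3840) hk n f g R hf hg

theorem shl_B3 {n k : ℕ} (hk : k ≤ 384) (f g : ℕ → ℕ) (R : ℕ) (hf : ∀ i < n, f i < B3)
    (hg : ∀ i < n, g i < 2 ^ (384 - k)) :
    ((pk B3 n f + B3 ^ n * R) >>> k) &&& pk B3 n g = pk B3 n (fun i => (f i >>> k) &&& g i) :=
  shl_pk (e := 384) hk n f g R hf hg

theorem mask01_lt : (2 ^ 59 - 1) + B * (2 ^ 59 - 1) < 2 ^ (384 - 69) := by
  have h0 : (2 : ℕ) ^ 59 - 1 < B := by unfold B; norm_num
  refine lt_of_lt_of_le (two_ltBB h0 h0) ?_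
  unfold B
  rw [← pow_add]
  exact Nat.pow_le_pow_right (by norm_num) (by norm_num)

theorem B3_of_lt {a k : ℕ} (h : a < 2 ^ (384 - k)) : a < B3 :=
  lt_of_lt_of_le h (by unfold B3; exact Nat.pow_le_pow_right (by norm_num) (Nat.sub_le _ _))

/-- digits 0 and 1 of the product -/
theorem mask01 {n : ℕ} (hn : n ≤ 9) (w0 w1 w2 : ℕ → ℕ → ℕ) (z : ℕ → ℕ) (R : ℕ)
    (h0 : ∀ i < n, ∀ j < n, w0 i j < B) (h1 : ∀ i < n, ∀ j < n, w1 i j < B)
    (h2 : ∀ i < n, ∀ j < n, w2 i j < B) (hz : ∀ i < n, z i < B3) :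
    ((pk V n (fun i => pk B3 n (ws w0 w1 w2 i) + B3 ^ n * z i) + V ^ n * R) >>> 69) &&&
      pk V n (fun _ => pk B3 n (fun _ => (2 ^ 59 - 1) + B * (2 ^ 59 - 1))) =
      pk V n (fun i => pk B3 n (fun j => (w0 i j >>> 69) + B * (w1 i j >>> 69))) := by
  rw [shl_V (by norm_num) _ _ R
    (fun i hi => row_lt hn (fun j hj => ws_lt (h0 i hi j hj) (h1 i hi j hj) (h2 i hi j hj)) (hz i hi))
    (fun i _ => mask_lt hn (by norm_num) fun _ _ => B3_of_lt mask01_lt)]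
  refine pk_congr _ _ _ _ fun i hi => ?_
  rw [shl_B3 (by norm_num) _ _ (z i)
    (fun j hj => ws_lt (h0 i hi j hj) (h1 i hi j hj) (h2 i hi j hj)) (fun _ _ => mask01_lt)]
  exact pk_congr _ _ _ _ fun j hj => ws_sh (h0 i hi j hj) (h1 i hi j hj)

/-- digit 2 of the product -/
theorem mask2 {n : ℕ} (hn : n ≤ 9) (w0 w1 w2 : ℕ → ℕ → ℕ) (z : ℕ → ℕ) (R : ℕ)
    (h0 : ∀ i < n, ∀ j < n, w0 i j < B) (h1 : ∀ i < n, ∀ j < n, w1 i j < B)
    (h2 : ∀ i < n, ∀ j < n, w2 i j < B) (hz : ∀ i < n, z i < B3) :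
    ((pk V n (fun i => pk B3 n (ws w0 w1 w2 i) + B3 ^ n * z i) + V ^ n * R) >>> 325) &&&
      pk V n (fun _ => pk B3 n (fun _ => 2 ^ 59 - 1)) =
      pk V n (fun i => pk B3 n (fun j => w2 i j >>> 69)) := by
  have hm : (2 : ℕ) ^ 59 - 1 < 2 ^ (384 - 325) := by norm_num
  rw [shl_V (by norm_num) _ _ R
    (fun i hi => row_lt hn (fun j hj => ws_lt (h0 i hi j hj) (h1 i hi j hj) (h2 i hi j hj)) (hz i hi))
    (fun i _ => mask_lt hn (by norm_num) fun _ _ => B3_of_lt hm)]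
  refine pk_congr _ _ _ _ fun i hi => ?_
  rw [shl_B3 (by norm_num) _ _ (z i)
    (fun j hj => ws_lt (h0 i hi j hj) (h1 i hi j hj) (h2 i hi j hj)) (fun _ _ => hm)]
  exact pk_congr _ _ _ _ fun j hj => ws_sh2 (h0 i hi j hj) (h1 i hi j hj) (h2 i hi j hj)

/-! ### the range test -/

theorem split_hi {a : ℕ} (ha : a < B) :
    a = (a &&& 2 ^ 37 * (2 ^ 91 - 1)) + a % 2 ^ 37 := by
  have h1 := land_split 37 (a % 2 ^ 37) (a / 2 ^ 37) 0 (2 ^ 91 - 1) (Nat.mod_lt _ (by positivity))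
    (by positivity)
  rw [Nat.mod_add_div, Nat.zero_add, Nat.and_zero, Nat.zero_add,
    Nat.and_two_pow_sub_one_eq_mod, Nat.mod_eq_of_lt (a := a / 2 ^ 37)] at h1
  · rw [h1, Nat.add_comm]
    exact (Nat.mod_add_div a (2 ^ 37)).symm
  · rw [Nat.div_lt_iff_lt_mul (by positivity)]
    have : B = 2 ^ 91 * 2 ^ 37 := by unfold B; norm_num
    omega

theorem hi_lt : (2 : ℕ) ^ 37 * (2 ^ 91 - 1) < B := by unfold B; norm_num

theorem hi2_lt : (2 : ℕ) ^ 37 * (2 ^ 91 - 1) + B * (2 ^ 37 * (2 ^ 91 - 1)) < B3 :=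
  two_lt hi_lt hi_lt

theorem range_test {n : ℕ} (hn : n ≤ 9) {d e : ℕ → ℕ → ℕ} {u : ℕ → ℕ} (c0 c1 : ℕ)
    (hc0 : c0 < B) (hc1 : c1 < B)
    (hd : ∀ i < n, ∀ j < n, d i j < B) (he : ∀ i < n, ∀ j < n, e i j < B)
    (hu : ∀ i < n, u i < B3 ^ (10 - n))
    (h : pk V n (fun i => pk B3 n (s2 d e i) + B3 ^ n * u i) &&&
      pk V n (fun _ => pk B3 n (fun _ => 2 ^ 37 * (2 ^ 91 - 1) + B * (2 ^ 37 * (2 ^ 91 - 1)))) =
      pk V n (fun _ => pk B3 n (fun _ => c0 + B * c1))) :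
    ∀ i < n, ∀ j < n, d i j = c0 + d i j % 2 ^ 37 ∧ e i j = c1 + e i j % 2 ^ 37 := by
  have hs : ∀ i < n, ∀ j < n, s2 d e i j < B3 := fun i hi j hj => two_lt (hd i hi j hj) (he i hi j hj)
  have h1 := land_V n (fun i => pk B3 n (s2 d e i) + B3 ^ n * u i)
    (fun _ => pk B3 n (fun _ => 2 ^ 37 * (2 ^ 91 - 1) + B * (2 ^ 37 * (2 ^ 91 - 1))))
    (fun i hi => row_lt' (by omega) (hs i hi) (hu i hi))
    (fun i _ => by
      have := row_lt' (n := n) (by omega) (f := fun _ => 2 ^ 37 * (2 ^ 91 - 1) +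
        B * (2 ^ 37 * (2 ^ 91 - 1))) (z := 0) (fun _ _ => hi2_lt) (pow_pos B3_pos _)
      rw [Nat.mul_zero, Nat.add_zero] at this
      exact this)
  rw [h] at h1
  have hc : c0 + B * c1 < B3 := two_lt hc0 hc1
  have h2 : ∀ i < n, (pk B3 n (s2 d e i) + B3 ^ n * u i) &&&
      pk B3 n (fun _ => 2 ^ 37 * (2 ^ 91 - 1) + B * (2 ^ 37 * (2 ^ 91 - 1))) =
      pk B3 n (fun j => s2 d e i j &&& (2 ^ 37 * (2 ^ 91 - 1) + B * (2 ^ 37 * (2 ^ 91 - 1)))) :=
    fun i hi => land_B3 n _ _ (u i) (hs i hi) (fun _ _ => hi2_lt)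
  have h3 := pk_inj V_pos n _ _
    (fun i _ => by
      have := row_lt' (n := n) (by omega) (f := fun _ => c0 + B * c1) (z := 0) (fun _ _ => hc)
        (pow_pos B3_pos _)
      rw [Nat.mul_zero, Nat.add_zero] at this
      exact this)
    (fun i hi => lt_of_le_of_lt Nat.and_le_left (row_lt' (by omega) (hs i hi) (hu i hi))) h1
  intro i hi j hj
  have h4 := h3 i hi
  rw [h2 i hi] at h4
  have h5 := pk_inj B3_pos n _ _ (fun _ _ => hc)
    (fun j hj => lt_of_le_of_lt Nat.and_le_left (hs i hi j hj)) h4 j hj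
  have h6 := land_B (d i j) (e i j) (2 ^ 37 * (2 ^ 91 - 1)) (2 ^ 37 * (2 ^ 91 - 1)) (hd i hi j hj) hi_lt
  have h7 : s2 d e i j = d i j + B * e i j := rfl
  rw [h7, h6] at h5
  have hl : d i j &&& 2 ^ 37 * (2 ^ 91 - 1) < B := lt_of_le_of_lt Nat.and_le_left (hd i hi j hj)
  have h8 : c0 = d i j &&& 2 ^ 37 * (2 ^ 91 - 1) := by
    have := congrArg (· % B) h5
    simp only [Nat.add_mul_mod_self_left, Nat.mod_eq_of_lt hc0, Nat.mod_eq_of_lt hl] at this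
    exact this
  have h9 : c1 = e i j &&& 2 ^ 37 * (2 ^ 91 - 1) := by
    rw [← h8] at h5
    exact Nat.eq_of_mul_eq_mul_left B_pos (Nat.add_left_cancel h5)
  constructor
  · rw [h8]; exact split_hi (hd i hi j hj)
  · rw [h9]; exact split_hi (he i hi j hj)

/-! ### dropping the first row and the first column -/

theorem shift_drop {m : ℕ} (hm : m + 1 ≤ 9) {s : ℕ → ℕ → ℕ} {u : ℕ → ℕ}
    (hs : ∀ i < m + 1, ∀ j < m + 1, s i j < B3)
    (hu : ∀ i < m + 1, u i < B3 ^ (10 - (m + 1))) :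
    (∀ i < m, u (i + 1) + B3 ^ (9 - m) * (if i + 1 < m then s (i + 2) 0 else 0) < B3 ^ (10 - m)) ∧
    (pk V (m + 1) (fun i => pk B3 (m + 1) (s i) + B3 ^ (m + 1) * u i)) >>> 4224 =
      pk V m (fun i => pk B3 m (fun j => s (i + 1) (j + 1)) +
        B3 ^ m * (u (i + 1) + B3 ^ (9 - m) * (if i + 1 < m then s (i + 2) 0 else 0))) := by
  constructor
  · intro i hi
    have h1 := hu (i + 1) (by omega)
    have e1 : 10 - (m + 1) = 9 - m := by omega
    have e2 : 10 - m = (9 - m) + 1 := by omega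
    rw [e1] at h1
    rw [e2, pow_succ]
    have h2 : (if i + 1 < m then s (i + 2) 0 else 0) < B3 := by
      split_ifs with h
      · exact hs _ (by omega) _ (by omega)
      · exact B3_pos
    have h3 := Nat.mul_le_mul_left (B3 ^ (9 - m)) (Nat.succ_le_of_lt h2)
    rw [Nat.mul_succ] at h3
    omega
  · have e0 : ∀ x : ℕ, x >>> 4224 = x / V / B3 := by
      intro x
      have : (4224 : ℕ) = 3840 + 384 := by norm_num
      rw [this, Nat.shiftRight_add, Nat.shiftRight_eq_div_pow _ 3840, Nat.shiftRight_eq_div_pow _ 384]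
      rfl
    rw [e0, pk_succ, Nat.add_mul_div_left _ _ V_pos, Nat.div_eq_of_lt
      (row_lt' (by omega) (hs 0 (by omega)) (hu 0 (by omega))), Nat.zero_add]
    have h1 := drop_pk B3_pos 9 m (fun i => if i < m then s (i + 1) 0 else 0)
      (fun i => pk B3 m (fun j => s (i + 1) (j + 1)) + B3 ^ m * u (i + 1))
      (fun i hi => by
        show (if i < m then s (i + 1) 0 else 0) < B3
        rw [if_pos hi]
        exact hs _ (by omega) _ (by omega))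
      (if_neg (lt_irrefl m))
    have e10 : 9 + 1 = 10 := rfl
    rw [e10, ← V_eq] at h1
    have h2 : pk V m (fun i => pk B3 (m + 1) (s (i + 1)) + B3 ^ (m + 1) * u (i + 1)) =
        pk V m (fun i => (if i < m then s (i + 1) 0 else 0) +
          B3 * (pk B3 m (fun j => s (i + 1) (j + 1)) + B3 ^ m * u (i + 1))) := by
      refine pk_congr _ _ _ _ fun i hi => ?_
      rw [if_pos hi, pk_succ, pow_succ]
      ring
    rw [h2, h1]
    refine pk_congr _ _ _ _ fun i hi => ?_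
    show pk B3 m (fun j => s (i + 1) (j + 1)) + B3 ^ m * u (i + 1) +
      B3 ^ 9 * (if i + 1 < m then s (i + 1 + 1) 0 else 0) =
      pk B3 m (fun j => s (i + 1) (j + 1)) +
      B3 ^ m * (u (i + 1) + B3 ^ (9 - m) * (if i + 1 < m then s (i + 2) 0 else 0))
    have h3 : B3 ^ 9 = B3 ^ m * B3 ^ (9 - m) := by
      rw [← pow_add]
      congr 1
      omega
    rw [h3]
    ring

end Pool.Agent.Helper90.C9
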