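import Pool.Agent.Helper90.C9.C9B

/-!
Row K9 (MP_c75db0), digits of 128 bits. Part C: the kernel functions, the column and the row as
integers, the update of the matrix.
-/

set_option autoImplicit false
noncomputable section
namespace Pool.Agent.Helper90.C9

open Pool.Agent.Helper90.K9 (pk pz pk_zero pk_succ pz_succ pk_cast pk_congr pz_congr pk_add pz_add
  pz_sub pk_smul pz_smul pz_last pk_last pk_split pk_nest pk_lt pk_inj land_split shl_pk land_pk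
  drop_pk)

/-! ### the kernel functions -/

def sel (b : Bool) (x : Bool) : Bool := Bool.rec (motive := fun _ => Bool) false x b

theorem sel_true {b x : Bool} (h : sel b x = true) : b = true ∧ x = true := by
  cases b
  · exact absurd h Bool.false_ne_true
  · exact ⟨rfl, h⟩

/-- new matrix tested -/
def fin (s : St) (X : ℕ) (ih : ℕ → Bool) : Bool :=
  sel (Nat.beq (Nat.land X s.HI) s.PT) (ih X)

def upd (s : St) (N U : ℕ) (ih : ℕ → Bool) : Bool :=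
  fin s (Nat.shiftRight (Nat.sub (Nat.add N (Nat.land (Nat.shiftRight U (nat_lit 256)) s.MV0))
    (Nat.land U s.MV01)) (nat_lit 4224)) ih

def prd (s : St) (N rq t : ℕ) (ih : ℕ → Bool) : Bool :=
  upd s N (Nat.shiftRight (Nat.add (Nat.mul (Nat.add (Nat.xor (Nat.land t s.M) s.XM) s.K) rq) s.OFF)
    (nat_lit 69)) ih

def piv (s : St) (N r p : ℕ) (ih : ℕ → Bool) : Bool :=
  sel (Nat.ble (nat_lit 65536) p)
    (prd s N (Nat.mul (Nat.add r s.cR) (Nat.div (nat_lit 590295810358705651712) p)) (Nat.mul r s.E) ih)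

def step (s : St) (ih : ℕ → Bool) (N : ℕ) : Bool :=
  piv s N (Nat.land N s.W2) (Nat.sub (Nat.mod (Nat.land N s.W2)
    (nat_lit 0x100000000000000000000000000000000)) (nat_lit 576460821022900224)) ih

/-! ### the column and the row as integers -/

theorem cp_aux {n K H : ℕ} (d e : ℕ → ℕ)
    (hK : K + pk V n (fun _ => H + B * (H - 1)) = V ^ n) (hH : 0 < H) (he : ∀ i < n, e i < 2 * H) :
    ((pk V n (fun i => d i + B * (2 * H - 1 - e i)) + K : ℕ) : ℤ) =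
      (V : ℤ) ^ n + pz V n (fun i => ((d i : ℤ) - H) - B * ((e i : ℤ) - H)) := by
  have h3 : (K : ℤ) = (V : ℤ) ^ n - pz V n (fun _ => ((H + B * (H - 1) : ℕ) : ℤ)) := by
    rw [← pk_cast, ← Nat.cast_pow, ← hK, Nat.cast_add]
    ring
  rw [Nat.cast_add, h3, pk_cast]
  have h4 : pz V n (fun i => ((d i : ℤ) - H) - B * ((e i : ℤ) - H)) =
      pz V n (fun i => ((d i + B * (2 * H - 1 - e i) : ℕ) : ℤ)) -
      pz V n (fun _ => ((H + B * (H - 1) : ℕ) : ℤ)) := by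
    rw [pz_sub]
    refine pz_congr _ _ _ _ fun i hi => ?_
    have h5 := he i hi
    have h6 : ((2 * H - 1 - e i : ℕ) : ℤ) = 2 * (H : ℤ) - 1 - e i := by
      have : e i ≤ 2 * H - 1 := by omega
      rw [Nat.cast_sub this, Nat.cast_sub (by omega)]
      push_cast
      ring
    have h7 : ((H - 1 : ℕ) : ℤ) = (H : ℤ) - 1 := by
      rw [Nat.cast_sub (by omega)]; rfl
    rw [Nat.cast_add, Nat.cast_mul, h6, Nat.cast_add, Nat.cast_mul, h7]
    ring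
  rw [h4]
  ring

theorem r_aux {n cR H c0 c1 : ℕ} (d e : ℕ → ℕ → ℕ)
    (hR : cR + pk B3 n (fun _ => (H + c0) + B * (H + c1)) = B3 ^ n) :
    ((pk B3 n (fun j => (d 0 j + c0) + B * (e 0 j + c1)) + cR : ℕ) : ℤ) =
      pz B3 n (fun j => ((d 0 j : ℤ) - H) + B * ((e 0 j : ℤ) - H)) + (B3 : ℤ) ^ n := by
  have h3 : (cR : ℤ) = (B3 : ℤ) ^ n - pz B3 n (fun _ => (((H + c0) + B * (H + c1) : ℕ) : ℤ)) := by
    rw [← pk_cast, ← Nat.cast_pow, ← hR, Nat.cast_add]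
    ring
  have h4 : pz B3 n (fun j => ((d 0 j : ℤ) - H) + B * ((e 0 j : ℤ) - H)) =
      pz B3 n (fun j => (((d 0 j + c0) + B * (e 0 j + c1) : ℕ) : ℤ)) -
      pz B3 n (fun _ => (((H + c0) + B * (H + c1) : ℕ) : ℤ)) := by
    rw [pz_sub]
    refine pz_congr _ _ _ _ fun i _ => ?_
    push_cast
    ring
  rw [Nat.cast_add, h3, pk_cast, h4]
  ring

/-! ### bounds -/

theorem xr {a : ℕ} (h : a < 2 ^ 37) : |(a : ℤ) - 2 ^ 36| ≤ 2 ^ 36 := by
  have h1 : (a : ℤ) < 2 ^ 37 := by exact_mod_cast h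
  rw [abs_le]
  constructor
  · have : (0 : ℤ) ≤ a := Int.natCast_nonneg a
    linarith
  · have : (2 : ℤ) ^ 37 = 2 * 2 ^ 36 := by norm_num
    linarith

theorem prod_bound {q : ℕ} (hq : q ≤ 2 ^ 53) {x y : ℤ} (hx : |x| ≤ 2 ^ 36) (hy : |y| ≤ 2 ^ 36) :
    |(q : ℤ) * (x * y)| ≤ 2 ^ 125 := by
  have hq' : (q : ℤ) ≤ 2 ^ 53 := by exact_mod_cast hq
  rw [abs_mul, abs_mul, abs_of_nonneg (Int.natCast_nonneg q)]
  calc (q : ℤ) * (|x| * |y|) ≤ 2 ^ 53 * (2 ^ 36 * 2 ^ 36) := by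
        apply mul_le_mul hq' (mul_le_mul hx hy (abs_nonneg _) (by positivity)) (by positivity)
          (by positivity)
    _ = 2 ^ 125 := by norm_num

theorem nat_of {w : ℤ} (h : |w| ≤ 2 ^ 126) :
    (((w + 2 ^ 127).toNat : ℕ) : ℤ) = w + 2 ^ 127 ∧ (w + 2 ^ 127).toNat < B := by
  obtain ⟨h1, h2⟩ := abs_le.mp h
  have h3 : (0 : ℤ) ≤ w + 2 ^ 127 := by
    have : (2 : ℤ) ^ 127 = 2 * 2 ^ 126 := by norm_num
    have : (0 : ℤ) < 2 ^ 126 := by positivity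
    linarith
  refine ⟨Int.toNat_of_nonneg h3, ?_⟩
  have h4 : w + 2 ^ 127 < (B : ℤ) := by
    have : (B : ℤ) = 2 ^ 128 := by unfold B; norm_num
    rw [this]
    have : (2 : ℤ) ^ 128 = 4 * 2 ^ 126 := by norm_num
    have : (2 : ℤ) ^ 127 = 2 * 2 ^ 126 := by norm_num
    have : (0 : ℤ) < 2 ^ 126 := by positivity
    linarith
  have h5 : (((w + 2 ^ 127).toNat : ℕ) : ℤ) < (B : ℤ) := by
    rw [Int.toNat_of_nonneg h3]; exact h4
  exact_mod_cast h5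

theorem fl_bound {w : ℤ} (h : |w| ≤ 2 ^ 126) : -2 ^ 57 ≤ fl w ∧ fl w ≤ 2 ^ 57 := by
  obtain ⟨h1, h2⟩ := abs_le.mp h
  unfold fl
  constructor
  · rw [Int.le_ediv_iff_mul_le (by norm_num)]
    have : (-2 ^ 57 * 2 ^ 69 : ℤ) = -2 ^ 126 := by norm_num
    rw [this]; exact h1
  · have h3 : w / 2 ^ 69 ≤ 2 ^ 126 / 2 ^ 69 := Int.ediv_le_ediv (by norm_num) h2
    have h4 : ((2 : ℤ) ^ 126 / 2 ^ 69) = 2 ^ 57 := by norm_num
    rw [h4] at h3
    exact h3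

theorem litB : (0x100000000000000000000000000000000 : ℕ) = B := by
  unfold B; norm_num

/-- the digits of the new matrix, before the range test -/
theorem upd_eq {m N : ℕ} (hm0 : 1 ≤ m) (hm : m + 1 ≤ 9) {s : St} (hs : OK m s) {d e : ℕ → ℕ → ℕ}
    {u : ℕ → ℕ} (I : Inv (m + 1) N d e u) {q : ℕ} (hq : q ≤ 2 ^ 53) :
    ∃ d1 e1 : ℕ → ℕ → ℕ,
      ((N + ((((((pk B3 (m + 1) (sl (m + 1) d e 0) * s.E &&& s.M) ^^^ s.XM) + s.K) *
          ((pk B3 (m + 1) (sl (m + 1) d e 0) + s.cR) * q) + s.OFF) >>> 69) >>> 256 &&& s.MV0)) -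
        ((((((pk B3 (m + 1) (sl (m + 1) d e 0) * s.E &&& s.M) ^^^ s.XM) + s.K) *
          ((pk B3 (m + 1) (sl (m + 1) d e 0) + s.cR) * q) + s.OFF) >>> 69) &&& s.MV01) =
      pk V (m + 1) (fun i => pk B3 (m + 1) (s2 d1 e1 i) + B3 ^ (m + 1) * u i)) ∧
      (∀ i < m + 1, ∀ j < m + 1, d1 i j < B ∧ e1 i j < B ∧
        (d1 i j : ℤ) = d i j + 2 ^ 59 +
          fl (-((q : ℤ) * (((e 0 i : ℤ) - 2 ^ 36) * ((e 0 j : ℤ) - 2 ^ 36)))) -
          fl ((q : ℤ) * (((d 0 i : ℤ) - 2 ^ 36) * ((d 0 j : ℤ) - 2 ^ 36))) ∧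
        (e1 i j : ℤ) = e i j + m * 2 ^ 58 -
          fl ((q : ℤ) * (((d 0 i : ℤ) - 2 ^ 36) * ((e 0 j : ℤ) - 2 ^ 36) -
            ((e 0 i : ℤ) - 2 ^ 36) * ((d 0 j : ℤ) - 2 ^ 36)))) := by
  set n := m + 1 with hn
  have n0 : 0 < n := Nat.succ_pos m
  have hdx : ∀ j < n, |(d 0 j : ℤ) - 2 ^ 36| ≤ 2 ^ 36 := fun j hj => xr (I.hd 0 n0 j hj)
  have hey : ∀ j < n, |(e 0 j : ℤ) - 2 ^ 36| ≤ 2 ^ 36 := fun j hj => xr (I.he 0 n0 j hj)
  set X : ℕ → ℤ := fun j => (d 0 j : ℤ) - 2 ^ 36 with hX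
  set Y : ℕ → ℤ := fun j => (e 0 j : ℤ) - 2 ^ 36 with hY
  -- the three products
  set a0 : ℕ → ℕ → ℤ := fun i j => (q : ℤ) * (X i * X j) with ha0
  set a1 : ℕ → ℕ → ℤ := fun i j => (q : ℤ) * (X i * Y j - Y i * X j) with ha1
  set a2 : ℕ → ℕ → ℤ := fun i j => -((q : ℤ) * (Y i * Y j)) with ha2
  have b0 : ∀ i < n, ∀ j < n, |a0 i j| ≤ 2 ^ 126 := fun i hi j hj =>
    (prod_bound hq (hdx i hi) (hdx j hj)).trans (by norm_num)
  have b2 : ∀ i < n, ∀ j < n, |a2 i j| ≤ 2 ^ 126 := fun i hi j hj => by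
    show |-((q : ℤ) * (Y i * Y j))| ≤ 2 ^ 126
    rw [abs_neg]
    exact (prod_bound hq (hey i hi) (hey j hj)).trans (by norm_num)
  have b1 : ∀ i < n, ∀ j < n, |a1 i j| ≤ 2 ^ 126 := fun i hi j hj => by
    show |(q : ℤ) * (X i * Y j - Y i * X j)| ≤ 2 ^ 126
    have h1 := prod_bound hq (hdx i hi) (hey j hj)
    have h2 := prod_bound hq (hey i hi) (hdx j hj)
    rw [mul_sub]
    calc |(q : ℤ) * (X i * Y j) - (q : ℤ) * (Y i * X j)|
        ≤ |(q : ℤ) * (X i * Y j)| + |(q : ℤ) * (Y i * X j)| := abs_sub _ _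
      _ ≤ 2 ^ 125 + 2 ^ 125 := add_le_add h1 h2
      _ = 2 ^ 126 := by norm_num
  set w0 : ℕ → ℕ → ℕ := fun i j => (a0 i j + 2 ^ 127).toNat with hw0
  set w1 : ℕ → ℕ → ℕ := fun i j => (a1 i j + 2 ^ 127).toNat with hw1
  set w2 : ℕ → ℕ → ℕ := fun i j => (a2 i j + 2 ^ 127).toNat with hw2
  set z0 : ℕ → ℕ := fun i => ((q : ℤ) * X i + 2 ^ 127).toNat with hz0
  set z1 : ℕ → ℕ := fun i => (-((q : ℤ) * Y i) + 2 ^ 127).toNat with hz1
  have c0 : ∀ i < n, |(q : ℤ) * X i| ≤ 2 ^ 126 := fun i hi => by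
    have h := prod_bound hq (hdx i hi) (show |(1 : ℤ)| ≤ 2 ^ 36 by norm_num)
    rw [mul_one] at h
    exact h.trans (by norm_num)
  have c1 : ∀ i < n, |-((q : ℤ) * Y i)| ≤ 2 ^ 126 := fun i hi => by
    have h := prod_bound hq (hey i hi) (show |(1 : ℤ)| ≤ 2 ^ 36 by norm_num)
    rw [mul_one] at h
    rw [abs_neg]
    exact h.trans (by norm_num)
  have o127 : ((2 ^ 127 : ℕ) : ℤ) = 2 ^ 127 := by norm_num
  have o36 : ((2 ^ 36 : ℕ) : ℤ) = 2 ^ 36 := by norm_num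
  -- the column and the row
  have hcol : ((pk B3 n (sl n d e 0) * s.E &&& s.M) ^^^ s.XM) + s.K =
      pk V n (fun i => d 0 i + B * (2 * 2 ^ 36 - 1 - e 0 i)) + s.K := by
    rw [hs.E, hs.M, hs.XM, Nat.mul_comm (pk B3 n (sl n d e 0)),
      col hm (I.hd 0 n0) (I.he 0 n0), conj_col (I.hd 0 n0) (I.he 0 n0),
      show (2 : ℕ) ^ 37 = 2 * 2 ^ 36 by norm_num]
  have hcp := cp_aux (n := n) (K := s.K) (H := 2 ^ 36) (d 0) (e 0)
    hs.K (by positivity) (fun i hi => by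
      have := I.he 0 n0 i hi
      have e2 : (2 : ℕ) ^ 37 = 2 * 2 ^ 36 := by norm_num
      omega)
  have hr := r_aux (n := n) (cR := s.cR) (H := 2 ^ 36) (c0 := 2 ^ 59) (c1 := n * 2 ^ 58) d e hs.cR
  have hrow : pk B3 n (fun j => (d 0 j + 2 ^ 59) + B * (e 0 j + n * 2 ^ 58)) = pk B3 n (sl n d e 0) := rfl
  rw [hrow] at hr
  rw [o36] at hcp hr
  rw [hcol]
  generalize pk V n (fun i => d 0 i + B * (2 * 2 ^ 36 - 1 - e 0 i)) + s.K = cp at hcp
  generalize pk B3 n (sl n d e 0) + s.cR = r at hr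
  have hU := prod_eq (n := n) (2 ^ 127) X Y q cp r hcp hr w0 w1 w2 z0 z1
    (fun i hi j hj => by rw [o127]; exact (nat_of (b0 i hi j hj)).1)
    (fun i hi j hj => by rw [o127]; exact (nat_of (b1 i hi j hj)).1)
    (fun i hi j hj => by rw [o127]; exact (nat_of (b2 i hi j hj)).1)
    (fun i hi => by rw [o127]; exact (nat_of (c0 i hi)).1)
    (fun i hi => by rw [o127]; exact (nat_of (c1 i hi)).1)
  have l0 : ∀ i < n, ∀ j < n, w0 i j < B := fun i hi j hj => (nat_of (b0 i hi j hj)).2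
  have l1 : ∀ i < n, ∀ j < n, w1 i j < B := fun i hi j hj => (nat_of (b1 i hi j hj)).2
  have l2 : ∀ i < n, ∀ j < n, w2 i j < B := fun i hi j hj => (nat_of (b2 i hi j hj)).2
  have lz : ∀ i < n, z0 i + B * (z1 i + B * 2 ^ 127) < B3 := fun i hi =>
    ws_lt (w0 := fun _ _ => z0 i) (w1 := fun _ _ => z1 i) (w2 := fun _ _ => 2 ^ 127) (i := 0) (j := 0)
      (nat_of (c0 i hi)).2 (nat_of (c1 i hi)).2 (by unfold B; norm_num)
  rw [← hs.OFF] at hU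
  have hM1 := mask01 hm w0 w1 w2 (fun i => z0 i + B * (z1 i + B * 2 ^ 127)) (r * q) l0 l1 l2 lz
  have hM2 := mask2 hm w0 w1 w2 (fun i => z0 i + B * (z1 i + B * 2 ^ 127)) (r * q) l0 l1 l2 lz
  rw [← hs.MV01, ← hU] at hM1
  rw [← hs.MV0, ← hU] at hM2
  have e325 : ∀ x : ℕ, x >>> 69 >>> 256 = x >>> 325 := fun x => by rw [← Nat.shiftRight_add]
  rw [e325, hM1, hM2]
  -- the digits
  have s0 : ∀ i < n, ∀ j < n, ((w0 i j >>> 69 : ℕ) : ℤ) = fl (a0 i j) + 2 ^ 58 := fun i hi j hj =>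
    sh_cast (nat_of (b0 i hi j hj)).1
  have s1 : ∀ i < n, ∀ j < n, ((w1 i j >>> 69 : ℕ) : ℤ) = fl (a1 i j) + 2 ^ 58 := fun i hi j hj =>
    sh_cast (nat_of (b1 i hi j hj)).1
  have s2' : ∀ i < n, ∀ j < n, ((w2 i j >>> 69 : ℕ) : ℤ) = fl (a2 i j) + 2 ^ 58 := fun i hi j hj =>
    sh_cast (nat_of (b2 i hi j hj)).1
  set d1 : ℕ → ℕ → ℕ := fun i j => (d i j + 2 ^ 59 + (w2 i j >>> 69)) - (w0 i j >>> 69) with hd1
  set e1 : ℕ → ℕ → ℕ := fun i j => (e i j + n * 2 ^ 58) - (w1 i j >>> 69) with he1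
  have k0 : ∀ i < n, ∀ j < n, w0 i j >>> 69 ≤ d i j + 2 ^ 59 + (w2 i j >>> 69) := by
    intro i hi j hj
    have := sh_lt (l0 i hi j hj)
    omega
  have hn2 : 2 ^ 59 ≤ n * 2 ^ 58 := by
    have h1 : 2 * 2 ^ 58 ≤ n * 2 ^ 58 := Nat.mul_le_mul_right _ (by omega)
    have h2 : (2 : ℕ) * 2 ^ 58 = 2 ^ 59 := by norm_num
    omega
  have k1 : ∀ i < n, ∀ j < n, w1 i j >>> 69 ≤ e i j + n * 2 ^ 58 := by
    intro i hi j hj
    have := sh_lt (l1 i hi j hj)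
    omega
  have hn9 : n * 2 ^ 58 ≤ 9 * 2 ^ 58 := Nat.mul_le_mul_right _ hm
  refine ⟨d1, e1, ?_, ?_⟩
  · rw [I.hN]
    have hsum : pk V n (fun i => pk B3 n (sl n d e i) + B3 ^ n * u i) +
        pk V n (fun i => pk B3 n (fun j => w2 i j >>> 69)) =
        pk V n (fun i => pk B3 n (s2 d1 e1 i) + B3 ^ n * u i) +
        pk V n (fun i => pk B3 n (fun j => (w0 i j >>> 69) + B * (w1 i j >>> 69))) := by
      rw [pk_add, pk_add]
      refine pk_congr _ _ _ _ fun i hi => ?_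
      have h1 : pk B3 n (sl n d e i) + pk B3 n (fun j => w2 i j >>> 69) =
          pk B3 n (s2 d1 e1 i) + pk B3 n (fun j => (w0 i j >>> 69) + B * (w1 i j >>> 69)) := by
        rw [pk_add, pk_add]
        refine pk_congr _ _ _ _ fun j hj => ?_
        show (d i j + 2 ^ 59) + B * (e i j + n * 2 ^ 58) + (w2 i j >>> 69) =
          (d i j + 2 ^ 59 + (w2 i j >>> 69)) - (w0 i j >>> 69) +
            B * ((e i j + n * 2 ^ 58) - (w1 i j >>> 69)) + ((w0 i j >>> 69) + B * (w1 i j >>> 69))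
        have g0 := k0 i hi j hj
        have g1 := k1 i hi j hj
        generalize w0 i j >>> 69 = A0 at *
        generalize w1 i j >>> 69 = A1 at *
        generalize w2 i j >>> 69 = A2 at *
        obtain ⟨c, hc⟩ := Nat.exists_eq_add_of_le g0
        obtain ⟨c', hc'⟩ := Nat.exists_eq_add_of_le g1
        rw [hc, hc', Nat.add_sub_cancel_left, Nat.add_sub_cancel_left]
        have : d i j + 2 ^ 59 + B * (A1 + c') + A2 = (d i j + 2 ^ 59 + A2) + B * (A1 + c') := by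
          ring
        rw [this, hc]
        ring
      omega
    show pk V n (fun i => pk B3 n (sl n d e i) + B3 ^ n * u i) +
        pk V n (fun i => pk B3 n (fun j => w2 i j >>> 69)) -
        pk V n (fun i => pk B3 n (fun j => (w0 i j >>> 69) + B * (w1 i j >>> 69))) = _
    rw [hsum, Nat.add_sub_cancel]
  · intro i hi j hj
    have g0 := k0 i hi j hj
    have g1 := k1 i hi j hj
    have t0 := s0 i hi j hj
    have t1 := s1 i hi j hj
    have t2 := s2' i hi j hj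
    have v2 := sh_lt (l2 i hi j hj)
    have dd := I.hd i hi j hj
    have ee := I.he i hi j hj
    have p76 : (2 : ℕ) ^ 37 + 2 ^ 59 + 9 * 2 ^ 58 < B := by unfold B; norm_num
    refine ⟨?_, ?_, ?_, ?_⟩
    · show (d i j + 2 ^ 59 + (w2 i j >>> 69)) - (w0 i j >>> 69) < B
      have e3 : (2 : ℕ) ^ 59 ≤ 9 * 2 ^ 58 := by norm_num
      have h1 : (d i j + 2 ^ 59 + (w2 i j >>> 69)) - (w0 i j >>> 69) ≤
        2 ^ 37 + 2 ^ 59 + 9 * 2 ^ 58 := by omega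
      exact lt_of_le_of_lt h1 p76
    · show (e i j + n * 2 ^ 58) - (w1 i j >>> 69) < B
      have h1 : (e i j + n * 2 ^ 58) - (w1 i j >>> 69) ≤ 2 ^ 37 + 2 ^ 59 + 9 * 2 ^ 58 := by omega
      exact lt_of_le_of_lt h1 p76
    · show (((d i j + 2 ^ 59 + (w2 i j >>> 69)) - (w0 i j >>> 69) : ℕ) : ℤ) = _
      rw [Nat.cast_sub g0, Nat.cast_add, Nat.cast_add, t0, t2]
      have o59 : ((2 ^ 59 : ℕ) : ℤ) = 2 ^ 59 := by norm_num
      rw [o59]
      show (d i j : ℤ) + 2 ^ 59 + (fl (a2 i j) + 2 ^ 58) - (fl (a0 i j) + 2 ^ 58) =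
        d i j + 2 ^ 59 + fl (a2 i j) - fl (a0 i j)
      ring
    · show (((e i j + n * 2 ^ 58) - (w1 i j >>> 69) : ℕ) : ℤ) = _
      rw [Nat.cast_sub g1, Nat.cast_add, t1]
      have o58 : ((n * 2 ^ 58 : ℕ) : ℤ) = (m : ℤ) * 2 ^ 58 + 2 ^ 58 := by
        rw [hn]; push_cast; ring
      rw [o58]
      show (e i j : ℤ) + ((m : ℤ) * 2 ^ 58 + 2 ^ 58) - (fl (a1 i j) + 2 ^ 58) =
        e i j + m * 2 ^ 58 - fl (a1 i j)
      ring

end Pool.Agent.Helper90.C9
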