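import Pool.Agent.Helper90.C9.C9C

/-!
Row K9 (MP_c75db0), digits of 128 bits. Part D: one step is sound.
-/

set_option autoImplicit false
noncomputable section
namespace Pool.Agent.Helper90.C9

open Pool.Agent.Helper90.K9 (pk pz pk_zero pk_succ pz_succ pk_cast pk_congr pz_congr pk_add pz_add
  pz_sub pk_smul pz_smul pz_last pk_last pk_split pk_nest pk_lt pk_inj land_split shl_pk land_pk
  drop_pk)

theorem lit69 : (590295810358705651712 : ℕ) = 2 ^ 69 := by norm_num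
theorem lit16 : (65536 : ℕ) = 2 ^ 16 := by norm_num
theorem litP : (576460821022900224 : ℕ) = 2 ^ 36 + 2 ^ 59 := by norm_num

/-- the relation of one step -/
def Rel (m : ℕ) (q : ℕ) (d e d' e' : ℕ → ℕ → ℕ) : Prop :=
  ∀ i < m, ∀ j < m,
    (d' i j : ℤ) = d (i + 1) (j + 1) +
      fl (-((q : ℤ) * (((e 0 (i + 1) : ℤ) - 2 ^ 36) * ((e 0 (j + 1) : ℤ) - 2 ^ 36)))) -
      fl ((q : ℤ) * (((d 0 (i + 1) : ℤ) - 2 ^ 36) * ((d 0 (j + 1) : ℤ) - 2 ^ 36))) ∧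
    (e' i j : ℤ) = e (i + 1) (j + 1) -
      fl ((q : ℤ) * (((d 0 (i + 1) : ℤ) - 2 ^ 36) * ((e 0 (j + 1) : ℤ) - 2 ^ 36) -
        ((e 0 (i + 1) : ℤ) - 2 ^ 36) * ((d 0 (j + 1) : ℤ) - 2 ^ 36)))

theorem step_unf (s : St) (ih : ℕ → Bool) (N : ℕ) : step s ih N =
    sel (Nat.ble (65536 : ℕ) ((N &&& s.W2) % (0x100000000000000000000000000000000 : ℕ) -
      576460821022900224))
    (fin s (((N + ((((((N &&& s.W2) * s.E &&& s.M) ^^^ s.XM) + s.K) *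
      (((N &&& s.W2) + s.cR) * ((590295810358705651712 : ℕ) /
        ((N &&& s.W2) % (0x100000000000000000000000000000000 : ℕ) - 576460821022900224))) +
        s.OFF) >>> 69 >>> 256 &&& s.MV0)) -
      (((((((N &&& s.W2) * s.E &&& s.M) ^^^ s.XM) + s.K) *
      (((N &&& s.W2) + s.cR) * ((590295810358705651712 : ℕ) /
        ((N &&& s.W2) % (0x100000000000000000000000000000000 : ℕ) - 576460821022900224))) +
        s.OFF) >>> 69) &&& s.MV01)) >>> 4224) ih) := by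
  delta step piv prd upd
  rfl

theorem step_sound {m N : ℕ} (hm0 : 1 ≤ m) (hm : m + 1 ≤ 9) {s : St} (hs : OK m s)
    {d e : ℕ → ℕ → ℕ} {u : ℕ → ℕ} (I : Inv (m + 1) N d e u) {ih : ℕ → Bool}
    (h : step s ih N = true) :
    ∃ (N' : ℕ) (d' e' : ℕ → ℕ → ℕ) (u' : ℕ → ℕ), Inv m N' d' e' u' ∧ ih N' = true ∧
      2 ^ 16 ≤ d 0 0 - 2 ^ 36 ∧ Rel m (2 ^ 69 / (d 0 0 - 2 ^ 36)) d e d' e' := by
  rw [step_unf] at h
  obtain ⟨h1, h2⟩ := sel_true h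
  have h1' := Nat.le_of_ble_eq_true h1
  have h3 := h2
  have hrow : N &&& s.W2 = pk B3 (m + 1) (sl (m + 1) d e 0) := by rw [hs.W2]; exact first_row hm I
  have hlow := low_digit (m := m) (e := e) (I.hd 0 (Nat.succ_pos m) 0 (Nat.succ_pos m))
  have hp : d 0 0 + 2 ^ 59 - (2 ^ 36 + 2 ^ 59) = d 0 0 - 2 ^ 36 := by omega
  rw [litB, hrow, hlow, litP, lit16, hp] at h1'
  rw [litB, hrow, hlow, litP, lit69, hp] at h3
  set q := 2 ^ 69 / (d 0 0 - 2 ^ 36) with hq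
  have hq53 : q ≤ 2 ^ 53 := by
    have : q ≤ 2 ^ 69 / 2 ^ 16 := Nat.div_le_div_left h1' (by positivity)
    exact this.trans (by norm_num)
  obtain ⟨d1, e1, hX, hD⟩ := upd_eq hm0 hm hs I hq53
  rw [hX] at h3
  obtain ⟨hu', hdrop⟩ := shift_drop hm (s := s2 d1 e1) (u := u)
    (fun i hi j hj => two_lt (hD i hi j hj).1 (hD i hi j hj).2.1) I.hu
  rw [hdrop] at h3
  set u' : ℕ → ℕ := fun i => u (i + 1) + B3 ^ (9 - m) * (if i + 1 < m then s2 d1 e1 (i + 2) 0 else 0)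
    with hu'def
  obtain ⟨h4, h5⟩ := sel_true h3
  have h4' : pk V m (fun i => pk B3 m (fun j => s2 d1 e1 (i + 1) (j + 1)) + B3 ^ m * u' i) &&& s.HI =
    s.PT := Nat.eq_of_beq_eq_true h4
  rw [hs.HI, hs.PT] at h4'
  have hmB : m * 2 ^ 58 < B := by
    have h1 : m * 2 ^ 58 ≤ 9 * 2 ^ 58 := Nat.mul_le_mul_right _ (by omega)
    have h2 : (9 : ℕ) * 2 ^ 58 < B := by unfold B; norm_num
    exact lt_of_le_of_lt h1 h2
  have hR := range_test (n := m) (by omega) (d := fun i j => d1 (i + 1) (j + 1))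
    (e := fun i j => e1 (i + 1) (j + 1)) (u := u') (2 ^ 59) (m * 2 ^ 58) (by unfold B; norm_num) hmB
    (fun i hi j hj => (hD (i + 1) (by omega) (j + 1) (by omega)).1)
    (fun i hi j hj => (hD (i + 1) (by omega) (j + 1) (by omega)).2.1) hu' h4'
  set d2 : ℕ → ℕ → ℕ := fun i j => d1 (i + 1) (j + 1) % 2 ^ 37 with hd2
  set e2 : ℕ → ℕ → ℕ := fun i j => e1 (i + 1) (j + 1) % 2 ^ 37 with he2
  have hmod : ∀ x : ℕ, x % 2 ^ 37 < 2 ^ 37 := fun x => Nat.mod_lt _ (by positivity)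
  have hNN : pk V m (fun i => pk B3 m (fun j => s2 d1 e1 (i + 1) (j + 1)) + B3 ^ m * u' i) =
      pk V m (fun i => pk B3 m (sl m d2 e2 i) + B3 ^ m * u' i) := by
    refine pk_congr _ _ _ _ fun i hi => ?_
    have : pk B3 m (fun j => s2 d1 e1 (i + 1) (j + 1)) = pk B3 m (sl m d2 e2 i) := by
      refine pk_congr _ _ _ _ fun j hj => ?_
      obtain ⟨g1, g2⟩ := hR i hi j hj
      show d1 (i + 1) (j + 1) + B * e1 (i + 1) (j + 1) =
        (d1 (i + 1) (j + 1) % 2 ^ 37 + 2 ^ 59) + B * (e1 (i + 1) (j + 1) % 2 ^ 37 + m * 2 ^ 58)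
      rw [Nat.add_comm (d1 (i + 1) (j + 1) % 2 ^ 37), Nat.add_comm (e1 (i + 1) (j + 1) % 2 ^ 37)]
      exact congrArg₂ (fun a b => a + B * b) g1 g2
    rw [this]
  refine ⟨_, d2, e2, u', ⟨fun i _ j _ => hmod _, fun i _ j _ => hmod _, hu', hNN⟩, h5, h1', ?_⟩
  · intro i hi j hj
    obtain ⟨_, _, g3, g4⟩ := hD (i + 1) (by omega) (j + 1) (by omega)
    obtain ⟨g1, g2⟩ := hR i hi j hj
    have o59 : ((2 ^ 59 : ℕ) : ℤ) = 2 ^ 59 := by norm_num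
    have o58 : ((m * 2 ^ 58 : ℕ) : ℤ) = (m : ℤ) * 2 ^ 58 := by push_cast; ring
    constructor
    · show ((d1 (i + 1) (j + 1) % 2 ^ 37 : ℕ) : ℤ) = _
      have g5 : ((d1 (i + 1) (j + 1) : ℕ) : ℤ) = 2 ^ 59 + ((d1 (i + 1) (j + 1) % 2 ^ 37 : ℕ) : ℤ) := by
        rw [← o59, ← Nat.cast_add, ← g1]
      rw [g3] at g5
      linarith
    · show ((e1 (i + 1) (j + 1) % 2 ^ 37 : ℕ) : ℤ) = _
      have g5 : ((e1 (i + 1) (j + 1) : ℕ) : ℤ) = m * 2 ^ 58 +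
          ((e1 (i + 1) (j + 1) % 2 ^ 37 : ℕ) : ℤ) := by
        rw [← o58, ← Nat.cast_add, ← g2]
      rw [g4] at g5
      linarith

end Pool.Agent.Helper90.C9
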