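import Pool.Agent.Helper90.C9.C9E

/-!
Row K9 (MP_c75db0), digits of 128 bits. Part F: the constants are right.
-/

set_option autoImplicit false
namespace Pool.Agent.Helper90.C9

open Pool.Agent.Helper90.K9 (pk)

theorem ok8 : OK 8 c9 := by constructor <;> decide +kernel
theorem ok7 : OK 7 c8 := by constructor <;> decide +kernel
theorem ok6 : OK 6 c7 := by constructor <;> decide +kernel
theorem ok5 : OK 5 c6 := by constructor <;> decide +kernel
theorem ok4 : OK 4 c5 := by constructor <;> decide +kernel
theorem ok3 : OK 3 c4 := by constructor <;> decide +kernel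
theorem ok2 : OK 2 c3 := by constructor <;> decide +kernel
theorem ok1 : OK 1 c2 := by constructor <;> decide +kernel

theorem rs_eq : rs = pk V 9 (fun _ => pk B3 9 (fun _ => 2 ^ 59 + B * (9 * 2 ^ 58))) := by decide +kernel
theorem hi9_eq : hi9 = pk V 9 (fun _ => pk B3 9 (fun _ =>
    2 ^ 37 * (2 ^ 91 - 1) + B * (2 ^ 37 * (2 ^ 91 - 1)))) := by decide +kernel

end Pool.Agent.Helper90.C9
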