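import Pool.Agent.Helper90.C9.C9D
import Pool.Agent.Helper90.C9.C9F
import Pool.Agent.Helper90.CX.K9E

/-!
Row K9 (MP_c75db0), digits of 128 bits. Part G: SOUNDNESS of the test.
-/

set_option autoImplicit false
noncomputable section
namespace Pool.Agent.Helper90.C9

open Finset
open Pool.Agent.Helper90.K9 (pk pz pk_zero pk_succ pz_succ pk_cast pk_congr pz_congr pk_add pz_add
  pz_sub pk_smul pz_smul pz_last pk_last pk_split pk_nest pk_lt pk_inj land_split shl_pk land_pk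
  drop_pk G G_succ G_congr G_add G_outer G_err sq_sum_le G_diag G_schur)

/-- entries of a state -/
def Mx (d e : ℕ → ℕ → ℕ) (i j : ℕ) : ℂ := ⟨(d i j : ℝ) - 2 ^ 36, (e i j : ℝ) - 2 ^ 36⟩

theorem fl_le (w : ℤ) : (fl w : ℝ) ≤ (w : ℝ) / 2 ^ 69 := by
  rw [le_div_iff₀ (by positivity)]
  have h : w / 2 ^ 69 * 2 ^ 69 ≤ w := Int.ediv_mul_le w (by norm_num)
  have h2 : fl w * 2 ^ 69 ≤ w := h
  exact_mod_cast h2

theorem lt_fl (w : ℤ) : (w : ℝ) / 2 ^ 69 < fl w + 1 := by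
  rw [div_lt_iff₀ (by positivity)]
  have h : w < (w / 2 ^ 69 + 1) * 2 ^ 69 := Int.lt_ediv_add_one_mul_self w (by norm_num)
  have h2 : w < (fl w + 1) * 2 ^ 69 := h
  exact_mod_cast h2

theorem q_err {p : ℕ} (hp : 0 < p) :
    0 ≤ (p : ℝ)⁻¹ - ((2 ^ 69 / p : ℕ) : ℝ) / 2 ^ 69 ∧
      (p : ℝ)⁻¹ - ((2 ^ 69 / p : ℕ) : ℝ) / 2 ^ 69 ≤ 1 / 2 ^ 69 := by
  have hp' : (0 : ℝ) < p := by exact_mod_cast hp
  set q := 2 ^ 69 / p with hq
  have h1 : q * p ≤ 2 ^ 69 := Nat.div_mul_le_self _ _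
  have h2 : 2 ^ 69 < (q + 1) * p := by
    have h3 := Nat.div_add_mod (2 ^ 69) p
    have h4 := Nat.mod_lt (2 ^ 69) hp
    rw [← hq] at h3
    have h5 : (q + 1) * p = p * q + p := by ring
    omega
  have h1' : (q : ℝ) * p ≤ 2 ^ 69 := by exact_mod_cast h1
  have h2' : (2 : ℝ) ^ 69 < (q + 1) * p := by exact_mod_cast h2
  have e1 : (p : ℝ)⁻¹ - (q : ℝ) / 2 ^ 69 = (2 ^ 69 - q * p) / (p * 2 ^ 69) := by
    field_simp
  rw [e1]
  constructor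
  · apply div_nonneg
    · linarith
    · positivity
  · rw [div_le_div_iff₀ (by positivity) (by positivity)]
    nlinarith

theorem err_gen {p : ℕ} (hp : 0 < p) {w : ℤ} {k : ℝ} (hw : |(w : ℝ)| ≤ k * 2 ^ 69) :
    |(((2 ^ 69 / p : ℕ) : ℝ) * w) / 2 ^ 69 - w * (p : ℝ)⁻¹| ≤ k := by
  obtain ⟨h1, h2⟩ := q_err hp
  have e : (((2 ^ 69 / p : ℕ) : ℝ) * w) / 2 ^ 69 - w * (p : ℝ)⁻¹ =
      -(w * ((p : ℝ)⁻¹ - ((2 ^ 69 / p : ℕ) : ℝ) / 2 ^ 69)) := by ring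
  rw [e, abs_neg, abs_mul, abs_of_nonneg h1]
  calc |(w : ℝ)| * ((p : ℝ)⁻¹ - ((2 ^ 69 / p : ℕ) : ℝ) / 2 ^ 69)
      ≤ (k * 2 ^ 69) * (1 / 2 ^ 69) := mul_le_mul hw h2 h1 (le_trans (abs_nonneg _) hw)
    _ = k := by ring

theorem ab {a b : ℕ} (ha : a < 2 ^ 37) (hb : b < 2 ^ 37) :
    |((a : ℤ) - 2 ^ 36) * ((b : ℤ) - 2 ^ 36)| ≤ 2 ^ 72 := by
  rw [abs_mul]
  calc |(a : ℤ) - 2 ^ 36| * |(b : ℤ) - 2 ^ 36| ≤ 2 ^ 36 * 2 ^ 36 :=
        mul_le_mul (xr ha) (xr hb) (abs_nonneg _) (by positivity)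
    _ = 2 ^ 72 := by norm_num

/-- ONE STEP decreases the form, up to the error -/
theorem step_G {m : ℕ} {d e d' e' : ℕ → ℕ → ℕ}
    (hd : ∀ i < m + 1, ∀ j < m + 1, d i j < 2 ^ 37) (he : ∀ i < m + 1, ∀ j < m + 1, e i j < 2 ^ 37)
    (hp : 2 ^ 16 ≤ d 0 0 - 2 ^ 36) (hrel : Rel m (2 ^ 69 / (d 0 0 - 2 ^ 36)) d e d' e') (v : ℕ → ℂ) :
    G m (Mx d' e') (fun i => v (i + 1)) ≤ G (m + 1) (Mx d e) v +
      34 * (m : ℝ) * ∑ i ∈ range m, ‖v (i + 1)‖ ^ 2 := by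
  set p : ℕ := d 0 0 - 2 ^ 36 with hpdef
  have p0 : 0 < p := lt_of_lt_of_le (by positivity) hp
  have pr : (0 : ℝ) < p := by exact_mod_cast p0
  have hd00 : (d 0 0 : ℝ) - 2 ^ 36 = p := by
    have h1 : d 0 0 = p + 2 ^ 36 := by omega
    have h2 : (d 0 0 : ℝ) = p + 2 ^ 36 := by
      rw [h1]; push_cast; ring
    rw [h2]; ring
  set q : ℕ := 2 ^ 69 / p with hq
  -- the error matrix
  set E : ℕ → ℕ → ℂ := fun i j =>
    Mx d e (i + 1) (j + 1) - ((p : ℝ)⁻¹ : ℝ) * (star (Mx d e 0 (i + 1)) * Mx d e 0 (j + 1)) -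
      Mx d' e' i j with hE
  have hEb : ∀ i < m, ∀ j < m, i ≤ j → ‖E i j‖ ≤ 34 := by
    intro i hi j hj _
    obtain ⟨r1, r2⟩ := hrel i hi j hj
    have di := hd 0 (by omega) (i + 1) (by omega)
    have dj := hd 0 (by omega) (j + 1) (by omega)
    have ei := he 0 (by omega) (i + 1) (by omega)
    have ej := he 0 (by omega) (j + 1) (by omega)
    set xi : ℤ := (d 0 (i + 1) : ℤ) - 2 ^ 36 with hxi
    set xj : ℤ := (d 0 (j + 1) : ℤ) - 2 ^ 36 with hxj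
    set yi : ℤ := (e 0 (i + 1) : ℤ) - 2 ^ 36 with hyi
    set yj : ℤ := (e 0 (j + 1) : ℤ) - 2 ^ 36 with hyj
    have cxi : (d 0 (i + 1) : ℝ) - 2 ^ 36 = (xi : ℝ) := by rw [hxi]; push_cast; ring
    have cxj : (d 0 (j + 1) : ℝ) - 2 ^ 36 = (xj : ℝ) := by rw [hxj]; push_cast; ring
    have cyi : (e 0 (i + 1) : ℝ) - 2 ^ 36 = (yi : ℝ) := by rw [hyi]; push_cast; ring
    have cyj : (e 0 (j + 1) : ℝ) - 2 ^ 36 = (yj : ℝ) := by rw [hyj]; push_cast; ring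
    have cast72 : ∀ {w : ℤ} {k : ℕ}, |w| ≤ (k : ℤ) → |(w : ℝ)| ≤ (k : ℝ) := by
      intro w k h
      exact_mod_cast h
    have bxx : |((xi * xj : ℤ) : ℝ)| ≤ 8 * 2 ^ 69 := by
      have h := cast72 (k := 2 ^ 72) (by push_cast; exact ab di dj)
      refine h.trans (le_of_eq ?_)
      push_cast; norm_num
    have byy : |((yi * yj : ℤ) : ℝ)| ≤ 8 * 2 ^ 69 := by
      have h := cast72 (k := 2 ^ 72) (by push_cast; exact ab ei ej)
      refine h.trans (le_of_eq ?_)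
      push_cast; norm_num
    have bxy : |((xi * yj - yi * xj : ℤ) : ℝ)| ≤ 16 * 2 ^ 69 := by
      have h0 : |xi * yj - yi * xj| ≤ 2 ^ 73 := by
        calc |xi * yj - yi * xj| ≤ |xi * yj| + |yi * xj| := abs_sub _ _
          _ ≤ 2 ^ 72 + 2 ^ 72 := add_le_add (ab di ej) (ab ei dj)
          _ = 2 ^ 73 := by norm_num
      have h := cast72 (k := 2 ^ 73) (by push_cast; exact h0)
      refine h.trans (le_of_eq ?_)
      push_cast; norm_num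
    have r1' : (d' i j : ℝ) = d (i + 1) (j + 1) +
        (fl (-((q : ℤ) * (yi * yj))) : ℝ) - (fl ((q : ℤ) * (xi * xj)) : ℝ) := by exact_mod_cast r1
    have r2' : (e' i j : ℝ) = e (i + 1) (j + 1) - (fl ((q : ℤ) * (xi * yj - yi * xj)) : ℝ) := by
      exact_mod_cast r2
    have re : (E i j).re = (fl ((q : ℤ) * (xi * xj)) : ℝ) - (fl (-((q : ℤ) * (yi * yj))) : ℝ) -
        (xi * xj + yi * yj) * (p : ℝ)⁻¹ := by
      show ((d (i + 1) (j + 1) : ℝ) - 2 ^ 36) - (((p : ℝ)⁻¹ : ℝ) *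
        (star (Mx d e 0 (i + 1)) * Mx d e 0 (j + 1)) : ℂ).re - ((d' i j : ℝ) - 2 ^ 36) = _
      rw [Complex.re_ofReal_mul, Complex.mul_re]
      show ((d (i + 1) (j + 1) : ℝ) - 2 ^ 36) - (p : ℝ)⁻¹ *
        (((d 0 (i + 1) : ℝ) - 2 ^ 36) * ((d 0 (j + 1) : ℝ) - 2 ^ 36) -
          (-((e 0 (i + 1) : ℝ) - 2 ^ 36)) * ((e 0 (j + 1) : ℝ) - 2 ^ 36)) -
        ((d' i j : ℝ) - 2 ^ 36) = _
      rw [cxi, cxj, cyi, cyj, r1']
      ring
    have im : (E i j).im = (fl ((q : ℤ) * (xi * yj - yi * xj)) : ℝ) -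
        (xi * yj - yi * xj) * (p : ℝ)⁻¹ := by
      show ((e (i + 1) (j + 1) : ℝ) - 2 ^ 36) - (((p : ℝ)⁻¹ : ℝ) *
        (star (Mx d e 0 (i + 1)) * Mx d e 0 (j + 1)) : ℂ).im - ((e' i j : ℝ) - 2 ^ 36) = _
      rw [Complex.im_ofReal_mul, Complex.mul_im]
      show ((e (i + 1) (j + 1) : ℝ) - 2 ^ 36) - (p : ℝ)⁻¹ *
        (((d 0 (i + 1) : ℝ) - 2 ^ 36) * ((e 0 (j + 1) : ℝ) - 2 ^ 36) +
          (-((e 0 (i + 1) : ℝ) - 2 ^ 36)) * ((d 0 (j + 1) : ℝ) - 2 ^ 36)) -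
            ((e' i j : ℝ) - 2 ^ 36) = _
      rw [cxi, cxj, cyi, cyj, r2']
      ring
    have a1 := abs_le.mp (err_gen p0 bxx)
    have a2 := abs_le.mp (err_gen p0 byy)
    have a3 := abs_le.mp (err_gen p0 bxy)
    have b1 := fl_le ((q : ℤ) * (xi * xj))
    have b2 := lt_fl ((q : ℤ) * (xi * xj))
    have b3 := fl_le (-((q : ℤ) * (yi * yj)))
    have b4 := lt_fl (-((q : ℤ) * (yi * yj)))
    have b5 := fl_le ((q : ℤ) * (xi * yj - yi * xj))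
    have b6 := lt_fl ((q : ℤ) * (xi * yj - yi * xj))
    rw [← hq] at a1 a2 a3
    push_cast at a1 a2 a3 b1 b2 b3 b4 b5 b6
    have hre : |(E i j).re| ≤ 17 := by
      rw [re, abs_le]
      constructor
      · linarith [a1.1, a1.2, a2.1, a2.2]
      · linarith [a1.1, a1.2, a2.1, a2.2]
    have him : |(E i j).im| ≤ 17 := by
      rw [im, abs_le]
      constructor
      · linarith [a3.1, a3.2]
      · linarith [a3.1, a3.2]
    have hn := Complex.norm_le_abs_re_add_abs_im (E i j)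
    linarith
  -- Schur
  have hS := G_schur m (Mx d e) v pr hd00 (fun i j => Mx d' e' i j + E i j)
    (fun i hi j hj _ => by
      show Mx d e (i + 1) (j + 1) = Mx d' e' i j +
        (Mx d e (i + 1) (j + 1) - ((p : ℝ)⁻¹ : ℝ) * (star (Mx d e 0 (i + 1)) * Mx d e 0 (j + 1)) -
          Mx d' e' i j) + ((p : ℝ)⁻¹ : ℝ) * (star (Mx d e 0 (i + 1)) * Mx d e 0 (j + 1))
      ring)
  rw [G_add] at hS
  have hE2 := G_err (by norm_num : (0 : ℝ) ≤ 34) m E (fun i => v (i + 1)) hEb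
  have hsum := sq_sum_le m (fun i => ‖v (i + 1)‖)
  have h3 := mul_le_mul_of_nonneg_left hsum (by norm_num : (0 : ℝ) ≤ 34)
  rw [← mul_assoc] at h3
  linarith

theorem step_all {m N : ℕ} (hm0 : 1 ≤ m) (hm : m + 1 ≤ 9) {s : St} (hs : OK m s) {ih : ℕ → Bool}
    {c c' : ℝ} (hc : c + 34 * m ≤ c') (hc' : 0 ≤ c')
    (hih : ∀ (N' : ℕ) (d' e' : ℕ → ℕ → ℕ) (u' : ℕ → ℕ), Inv m N' d' e' u' → ih N' = true →
      ∀ v : ℕ → ℂ, 0 ≤ G m (Mx d' e') v + c * ∑ i ∈ range m, ‖v i‖ ^ 2)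
    {d e : ℕ → ℕ → ℕ} {u : ℕ → ℕ} (I : Inv (m + 1) N d e u) (h : step s ih N = true) (v : ℕ → ℂ) :
    0 ≤ G (m + 1) (Mx d e) v + c' * ∑ i ∈ range (m + 1), ‖v i‖ ^ 2 := by
  obtain ⟨N', d', e', u', I', h', hp, hr⟩ := step_sound hm0 hm hs I h
  have h1 := hih N' d' e' u' I' h' (fun i => v (i + 1))
  have h2 := step_G I.hd I.he hp hr v
  rw [Finset.sum_range_succ']
  have hnn : (0 : ℝ) ≤ ∑ i ∈ range m, ‖v (i + 1)‖ ^ 2 := Finset.sum_nonneg fun i _ => by positivity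
  have h3 : (0 : ℝ) ≤ c' * ‖v 0‖ ^ 2 := by positivity
  have h4 := mul_le_mul_of_nonneg_right hc hnn
  rw [mul_add]
  linarith

theorem lst_sound {N : ℕ} {d e : ℕ → ℕ → ℕ} {u : ℕ → ℕ} (I : Inv 1 N d e u) (h : lst N = true)
    (v : ℕ → ℂ) : 0 ≤ G 1 (Mx d e) v + 0 * ∑ i ∈ range 1, ‖v i‖ ^ 2 := by
  have h1 : (576460821022965760 : ℕ) ≤ N % (0x100000000000000000000000000000000 : ℕ) :=
    Nat.le_of_ble_eq_true h
  have h2 : N % B = d 0 0 + 2 ^ 59 := by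
    have hrow := first_row (by norm_num : 0 + 1 ≤ 9) I
    have hlow := low_digit (m := 0) (e := e) (I.hd 0 (by norm_num) 0 (by norm_num))
    have e0 : B3 ^ (0 + 1) = 2 ^ (384 * (0 + 1)) := by unfold B3; rw [← pow_mul]
    rw [e0, Nat.and_two_pow_sub_one_eq_mod, ← e0] at hrow
    rw [← hrow, Nat.mod_mod_of_dvd] at hlow
    · exact hlow
    · rw [B3_eq, Nat.zero_add, pow_one]
      exact Dvd.intro _ rfl
  rw [litB, h2] at h1
  have h3 : 2 ^ 36 + 2 ^ 16 ≤ d 0 0 := by omega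
  rw [zero_mul, add_zero]
  show 0 ≤ ((d 0 0 : ℝ) - 2 ^ 36) * ‖v 0‖ ^ 2 +
      2 * (star (v 0) * ∑ j ∈ range 0, Mx d e 0 (j + 1) * v (j + 1)).re + 0
  rw [Finset.sum_range_zero, mul_zero, Complex.zero_re, mul_zero, add_zero, add_zero]
  apply mul_nonneg _ (by positivity)
  have h4 : ((2 ^ 36 + 2 ^ 16 : ℕ) : ℝ) ≤ (d 0 0 : ℝ) := by exact_mod_cast h3
  norm_num at h4 ⊢
  linarith

/-- SOUNDNESS, packed form -/
theorem pdx_inv {N : ℕ} {d e : ℕ → ℕ → ℕ} {u : ℕ → ℕ} (I : Inv 9 N d e u) (h : pdx N = true)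
    (v : ℕ → ℂ) : 0 ≤ G 9 (Mx d e) v + 1224 * ∑ i ∈ range 9, ‖v i‖ ^ 2 := by
  refine step_all (m := 8) (c := 952) (by norm_num) (by norm_num) ok8 (by norm_num) (by norm_num)
    (fun N d e u I h v => ?_) I h v
  refine step_all (m := 7) (c := 714) (by norm_num) (by norm_num) ok7 (by norm_num) (by norm_num)
    (fun N d e u I h v => ?_) I h v
  refine step_all (m := 6) (c := 510) (by norm_num) (by norm_num) ok6 (by norm_num) (by norm_num)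
    (fun N d e u I h v => ?_) I h v
  refine step_all (m := 5) (c := 340) (by norm_num) (by norm_num) ok5 (by norm_num) (by norm_num)
    (fun N d e u I h v => ?_) I h v
  refine step_all (m := 4) (c := 204) (by norm_num) (by norm_num) ok4 (by norm_num) (by norm_num)
    (fun N d e u I h v => ?_) I h v
  refine step_all (m := 3) (c := 102) (by norm_num) (by norm_num) ok3 (by norm_num) (by norm_num)
    (fun N d e u I h v => ?_) I h v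
  refine step_all (m := 2) (c := 34) (by norm_num) (by norm_num) ok2 (by norm_num) (by norm_num)
    (fun N d e u I h v => ?_) I h v
  refine step_all (m := 1) (c := 0) (by norm_num) (by norm_num) ok1 (by norm_num) (by norm_num)
    (fun N d e u I h v => ?_) I h v
  exact lst_sound I h v

/-- SOUNDNESS, digits `x + 2^36 < 2^37` -/
theorem pdc_digits {N : ℕ} {d e : ℕ → ℕ → ℕ} (hd : ∀ i < 9, ∀ j < 9, d i j < 2 ^ 37)
    (he : ∀ i < 9, ∀ j < 9, e i j < 2 ^ 37) (hN : N = pk V 9 (fun i => pk B3 9 (s2 d e i)))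
    (h : pdc N = true) (v : ℕ → ℂ) :
    0 ≤ G 9 (Mx d e) v + 1224 * ∑ i ∈ range 9, ‖v i‖ ^ 2 := by
  refine pdx_inv (N := N + rs) (u := fun _ => 0) ⟨hd, he, fun i _ => pow_pos B3_pos _, ?_⟩ h v
  rw [hN, rs_eq, pk_add]
  refine pk_congr _ _ _ _ fun i _ => ?_
  rw [Nat.mul_zero, Nat.add_zero, pk_add]
  refine pk_congr _ _ _ _ fun j _ => ?_
  show d i j + B * e i j + (2 ^ 59 + B * (9 * 2 ^ 58)) = (d i j + 2 ^ 59) + B * (e i j + 9 * 2 ^ 58)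
  ring

/-- the same with the range test -/
theorem pdcr_digits {N : ℕ} {d e : ℕ → ℕ → ℕ} (hd : ∀ i < 9, ∀ j < 9, d i j < B)
    (he : ∀ i < 9, ∀ j < 9, e i j < B) (hN : N = pk V 9 (fun i => pk B3 9 (s2 d e i)))
    (h : pdcr N = true) (v : ℕ → ℂ) :
    (∀ i < 9, ∀ j < 9, d i j < 2 ^ 37 ∧ e i j < 2 ^ 37) ∧
      0 ≤ G 9 (Mx d e) v + 1224 * ∑ i ∈ range 9, ‖v i‖ ^ 2 := by
  obtain ⟨h1, h2⟩ := sel_true h
  have h1' : N &&& hi9 = 0 := Nat.eq_of_beq_eq_true h1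
  obtain ⟨u, hu⟩ : ∃ u : ℕ → ℕ, ∀ i, u i = 0 := ⟨fun _ => 0, fun _ => rfl⟩
  have hN' : N = pk V 9 (fun i => pk B3 9 (s2 d e i) + B3 ^ 9 * u i) := by
    rw [hN]
    exact pk_congr _ _ _ _ fun i _ => by rw [hu, Nat.mul_zero, Nat.add_zero]
  rw [hi9_eq, hN'] at h1'
  have h0 : (0 : ℕ) = pk V 9 (fun _ => pk B3 9 (fun _ => 0 + B * 0)) := by
    symm
    refine pk_zeros V 9 _ fun i => pk_zeros B3 9 _ fun j => ?_
    rw [Nat.mul_zero]
  have h1'' := h1'.trans h0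
  have hR := range_test (n := 9) (d := d) (e := e) (u := u) le_rfl 0 0 B_pos B_pos hd he
    (fun i _ => by rw [hu]; exact pow_pos B3_pos _) h1''
  have hb : ∀ i < 9, ∀ j < 9, d i j < 2 ^ 37 ∧ e i j < 2 ^ 37 := fun i hi j hj => by
    obtain ⟨g1, g2⟩ := hR i hi j hj
    rw [Nat.zero_add] at g1 g2
    exact ⟨g1 ▸ Nat.mod_lt _ (by positivity), g2 ▸ Nat.mod_lt _ (by positivity)⟩
  exact ⟨hb, pdc_digits (fun i hi j hj => (hb i hi j hj).1) (fun i hi j hj => (hb i hi j hj).2) hN h2 v⟩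

end Pool.Agent.Helper90.C9
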