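import Pool.Agent.Helper90.CX.KM1
import Pool.Agent.Helper90.C9.C9G
import Pool.Agent.Helper90.CX.K9M

/-!
Row K9 (MP_c75db0), digits of 128 bits. Part H: the leaf test `tfC` (kernel function) and its literals.

`x` signed number with the digits `D K L e` at `30 K + 3 L + e`, `|D| <= 2^126`, entry of the matrix
`((D K L 0 - D K L 2) + D K L 1 * I) / 2^68` in units of `2^-32`; `RD = sum R_K * B^(33 K)`.
-/

set_option autoImplicit false
noncomputable section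
namespace Pool.Agent.Helper90.C9

open Pool.Agent.Helper90.K9 (pk pz pk_zero pk_succ pz_succ pk_cast pk_congr pz_congr pk_add pz_add
  pz_sub pk_smul pz_smul pz_last pk_last pk_split pk_nest pk_lt pk_inj land_split shl_pk land_pk
  drop_pk)
open Finset hiding val
open Pool.Agent.Helper86.C75 (Z)
open Pool.Agent.Helper90.KMO (zv zv_sub)

/-! ### kernel functions -/

def offCP (n : ℕ) : ℕ := Nat.add OFFC n
def offCM (n : ℕ) : ℕ := Nat.sub OFFC n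
def zoffC (x : Z) : ℕ := Z.rec (motive := fun _ => ℕ) offCP offCM x
def tNC (RD Y : ℕ) : ℕ :=
  Nat.sub (Nat.add (Nat.land (Nat.shiftRight Y (nat_lit 68)) MVC01) CCC)
    (Nat.add (Nat.land (Nat.shiftRight Y (nat_lit 324)) MVC0) RD)
def tfC2 (N : ℕ) : Bool := sel (Nat.beq (Nat.land N hi9) rs) (pdx N)
def tfC1 (RD Y : ℕ) : Bool := tfC2 (tNC RD Y)
/-- THE LEAF TEST -/
def tfC (RD : ℕ) (x : Z) : Bool := tfC1 RD (zoffC x)

/-! ### the literals -/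

theorem OFFC_eq : OFFC = pk V 9 (fun _ => pk B3 10 (fun _ => pk B 3 (fun _ => 2 ^ 127))) := by
  decide +kernel
theorem MVC01_eq : MVC01 = pk V 9 (fun _ => pk B3 9 (fun _ => (2 ^ 60 - 1) + B * (2 ^ 60 - 1))) := by
  decide +kernel
theorem MVC0_eq : MVC0 = pk V 9 (fun _ => pk B3 9 (fun _ => 2 ^ 60 - 1)) := by
  decide +kernel
theorem CCC_eq : CCC = pk V 9 (fun _ => pk B3 9 (fun _ => (2 ^ 59 + 2 ^ 36) +
    B * (7 * 2 ^ 58 + 2 ^ 36))) := by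
  decide +kernel

/-! ### shift by 68 bits -/

theorem sh68_cast {w : ℤ} {n : ℕ} (h : (n : ℤ) = w + 2 ^ 127) :
    ((n >>> 68 : ℕ) : ℤ) = w / 2 ^ 68 + 2 ^ 59 := by
  have h2 : ((2 ^ 68 : ℕ) : ℤ) = 2 ^ 68 := by norm_num
  have h1 : (2 : ℤ) ^ 127 = 2 ^ 59 * 2 ^ 68 := by norm_num
  rw [Nat.shiftRight_eq_div_pow, Int.natCast_ediv, h2, h, h1, Int.add_mul_ediv_right _ _ (by norm_num)]

theorem sh68_lt {n : ℕ} (h : n < B) : n >>> 68 < 2 ^ 60 := by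
  rw [Nat.shiftRight_eq_div_pow, Nat.div_lt_iff_lt_mul (by positivity)]
  have : B = 2 ^ 60 * 2 ^ 68 := by unfold B; norm_num
  omega

theorem sh68_and {n : ℕ} (h : n < B) : n >>> 68 &&& (2 ^ 60 - 1) = n >>> 68 := by
  rw [Nat.and_two_pow_sub_one_eq_mod, Nat.mod_eq_of_lt (sh68_lt h)]

theorem ws_sh68 {w0 w1 w2 : ℕ → ℕ → ℕ} {i j : ℕ} (h0 : w0 i j < B) (h1 : w1 i j < B) :
    (ws w0 w1 w2 i j) >>> 68 &&& ((2 ^ 60 - 1) + B * (2 ^ 60 - 1)) =
      (w0 i j >>> 68) + B * (w1 i j >>> 68) := by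
  have h := shl_pk (e := 128) (k := 68) (by norm_num) 2 (fun k => if k = 0 then w0 i j else w1 i j)
    (fun _ => 2 ^ 60 - 1) (w2 i j)
    (fun k _ => by
      show (if k = 0 then w0 i j else w1 i j) < B
      split_ifs
      exacts [h0, h1])
    (fun k _ => by norm_num)
  have e1 : pk (2 ^ 128) 2 (fun k => if k = 0 then w0 i j else w1 i j) + (2 ^ 128) ^ 2 * w2 i j =
      ws w0 w1 w2 i j := by
    show (w0 i j + B * (w1 i j + B * 0)) + B ^ 2 * w2 i j = _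
    unfold ws
    ring
  have e2 : pk (2 ^ 128) 2 (fun _ => 2 ^ 60 - 1) = (2 ^ 60 - 1) + B * (2 ^ 60 - 1) := by
    show (2 ^ 60 - 1) + B * ((2 ^ 60 - 1) + B * 0) = _
    rw [Nat.mul_zero, Nat.add_zero]
  have e3 : pk (2 ^ 128) 2 (fun k => (if k = 0 then w0 i j else w1 i j) >>> 68 &&& (2 ^ 60 - 1)) =
      (w0 i j >>> 68) + B * (w1 i j >>> 68) := by
    show (w0 i j >>> 68 &&& (2 ^ 60 - 1)) + B * ((w1 i j >>> 68 &&& (2 ^ 60 - 1)) + B * 0) = _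
    rw [Nat.mul_zero, Nat.add_zero, sh68_and h0, sh68_and h1]
  rw [← e1, ← e2, h, e3]

theorem ws_sh324 {w0 w1 w2 : ℕ → ℕ → ℕ} {i j : ℕ} (h0 : w0 i j < B) (h1 : w1 i j < B)
    (h2 : w2 i j < B) :
    (ws w0 w1 w2 i j) >>> 324 &&& (2 ^ 60 - 1) = w2 i j >>> 68 := by
  have e0 : (ws w0 w1 w2 i j) >>> 324 = ((ws w0 w1 w2 i j) / B / B) >>> 68 := by
    have : (324 : ℕ) = 128 + 128 + 68 := by norm_num
    rw [this, Nat.shiftRight_add, Nat.shiftRight_add, Nat.shiftRight_eq_div_pow _ 128,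
      Nat.shiftRight_eq_div_pow _ 128]
    rfl
  have e1 : (ws w0 w1 w2 i j) / B / B = w2 i j := by
    unfold ws
    rw [Nat.add_mul_div_left _ _ B_pos, Nat.div_eq_of_lt h0, Nat.zero_add,
      Nat.add_mul_div_left _ _ B_pos, Nat.div_eq_of_lt h1, Nat.zero_add]
  rw [e0, e1, sh68_and h2]

theorem mask60_lt : (2 ^ 60 - 1) + B * (2 ^ 60 - 1) < 2 ^ (384 - 68) := by
  have h0 : (2 : ℕ) ^ 60 - 1 < B := by unfold B; norm_num
  refine lt_of_lt_of_le (two_ltBB h0 h0) ?_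
  unfold B
  rw [← pow_add]
  exact Nat.pow_le_pow_right (by norm_num) (by norm_num)

theorem m68 (w0 w1 w2 : ℕ → ℕ → ℕ) (z : ℕ → ℕ)
    (h0 : ∀ i < 9, ∀ j < 9, w0 i j < B) (h1 : ∀ i < 9, ∀ j < 9, w1 i j < B)
    (h2 : ∀ i < 9, ∀ j < 9, w2 i j < B) (hz : ∀ i < 9, z i < B3) :
    ((pk V 9 (fun i => pk B3 9 (ws w0 w1 w2 i) + B3 ^ 9 * z i)) >>> 68) &&& MVC01 =
      pk V 9 (fun i => pk B3 9 (fun j => (w0 i j >>> 68) + B * (w1 i j >>> 68))) := by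
  have h := shl_V (n := 9) (k := 68) (by norm_num)
    (fun i => pk B3 9 (ws w0 w1 w2 i) + B3 ^ 9 * z i)
    (fun _ => pk B3 9 (fun _ => (2 ^ 60 - 1) + B * (2 ^ 60 - 1))) 0
    (fun i hi => row_lt le_rfl (fun j hj => ws_lt (h0 i hi j hj) (h1 i hi j hj) (h2 i hi j hj)) (hz i hi))
    (fun i _ => mask_lt le_rfl (by norm_num) fun _ _ => B3_of_lt mask60_lt)
  rw [Nat.mul_zero, Nat.add_zero] at h
  rw [MVC01_eq, h]
  refine pk_congr _ _ _ _ fun i hi => ?_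
  rw [shl_B3 (by norm_num) _ _ (z i)
    (fun j hj => ws_lt (h0 i hi j hj) (h1 i hi j hj) (h2 i hi j hj)) (fun _ _ => mask60_lt)]
  exact pk_congr _ _ _ _ fun j hj => ws_sh68 (h0 i hi j hj) (h1 i hi j hj)

theorem m324 (w0 w1 w2 : ℕ → ℕ → ℕ) (z : ℕ → ℕ)
    (h0 : ∀ i < 9, ∀ j < 9, w0 i j < B) (h1 : ∀ i < 9, ∀ j < 9, w1 i j < B)
    (h2 : ∀ i < 9, ∀ j < 9, w2 i j < B) (hz : ∀ i < 9, z i < B3) :
    ((pk V 9 (fun i => pk B3 9 (ws w0 w1 w2 i) + B3 ^ 9 * z i)) >>> 324) &&& MVC0 =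
      pk V 9 (fun i => pk B3 9 (fun j => w2 i j >>> 68)) := by
  have hm : (2 : ℕ) ^ 60 - 1 < 2 ^ (384 - 324) := by norm_num
  have h := shl_V (n := 9) (k := 324) (by norm_num)
    (fun i => pk B3 9 (ws w0 w1 w2 i) + B3 ^ 9 * z i)
    (fun _ => pk B3 9 (fun _ => 2 ^ 60 - 1)) 0
    (fun i hi => row_lt le_rfl (fun j hj => ws_lt (h0 i hi j hj) (h1 i hi j hj) (h2 i hi j hj)) (hz i hi))
    (fun i _ => mask_lt le_rfl (by norm_num) fun _ _ => B3_of_lt hm)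
  rw [Nat.mul_zero, Nat.add_zero] at h
  rw [MVC0_eq, h]
  refine pk_congr _ _ _ _ fun i hi => ?_
  rw [shl_B3 (by norm_num) _ _ (z i)
    (fun j hj => ws_lt (h0 i hi j hj) (h1 i hi j hj) (h2 i hi j hj)) (fun _ _ => hm)]
  exact pk_congr _ _ _ _ fun j hj => ws_sh324 (h0 i hi j hj) (h1 i hi j hj) (h2 i hi j hj)

/-! ### the radii -/

theorem pz_sum (b : ℤ) (n : ℕ) (f : ℕ → ℤ) : pz b n f = ∑ i ∈ range n, f i * b ^ i := by
  induction n with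
  | zero => exact (Finset.sum_range_zero _).symm
  | succ n ih => rw [pz_last, ih, Finset.sum_range_succ, mul_comm (f n)]

theorem pk_sum (b : ℕ) : ∀ (n : ℕ) (f : ℕ → ℕ), pk b n f = ∑ i ∈ range n, f i * b ^ i
  | 0, f => by
    show (0 : ℕ) = _
    simp
  | n + 1, f => by
    rw [pk_last, pk_sum b n, Finset.sum_range_succ, mul_comm (f n)]

/-- the digits `33 K` -/
theorem diag_pk (R : ℕ → ℕ) : pk (V * B3) 9 R = pk V 9 (fun i => pk B3 9 (fun j => if j = i then R i else 0)) := by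
  rw [pk_sum, pk_sum]
  refine Finset.sum_congr rfl fun i hi => ?_
  rw [pk_sum]
  have : ∑ j ∈ range 9, (if j = i then R i else 0) * B3 ^ j = R i * B3 ^ i := by
    rw [Finset.sum_eq_single i]
    · rw [if_pos rfl]
    · intro j _ hj
      rw [if_neg hj, zero_mul]
    · intro h
      exact absurd hi h
  rw [this, mul_pow]
  ring

/-! ### decoding -/

/-- value of a table of digits -/
def val (x : ℕ → ℕ → ℕ → ℤ) : ℤ := pz V 9 (fun i => pz B3 10 (fun j => pz B 3 (x i j)))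

theorem val_off {D : ℕ → ℕ → ℕ → ℤ} (hD : ∀ i < 9, ∀ j < 10, ∀ s < 3, |D i j s| ≤ 2 ^ 126) :
    val D + (OFFC : ℤ) = ((pk V 9 (fun i => pk B3 10 (fun j =>
      ws (fun i j => (D i j 0 + 2 ^ 127).toNat) (fun i j => (D i j 1 + 2 ^ 127).toNat)
        (fun i j => (D i j 2 + 2 ^ 127).toNat) i j)) : ℕ) : ℤ) := by
  have hA := pk_cast V 9 (fun _ => pk B3 10 (fun _ => pk B 3 (fun _ => 2 ^ 127)))
  have hB := pk_cast V 9 (fun i => pk B3 10 (fun j => ws (fun i j => (D i j 0 + 2 ^ 127).toNat)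
    (fun i j => (D i j 1 + 2 ^ 127).toNat) (fun i j => (D i j 2 + 2 ^ 127).toNat) i j))
  rw [OFFC_eq, hA, hB]
  unfold val
  rw [pz_add]
  refine pz_congr _ _ _ _ fun i hi => ?_
  have hA := pk_cast B3 10 (fun _ => pk B 3 (fun _ => 2 ^ 127))
  have hB := pk_cast B3 10 (fun j => ws (fun i j => (D i j 0 + 2 ^ 127).toNat)
    (fun i j => (D i j 1 + 2 ^ 127).toNat) (fun i j => (D i j 2 + 2 ^ 127).toNat) i j)
  rw [hA, hB, pz_add]
  refine pz_congr _ _ _ _ fun j hj => ?_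
  rw [pk_cast, pz_add]
  have e0 := (nat_of (hD i hi j hj 0 (by norm_num))).1
  have e1 := (nat_of (hD i hi j hj 1 (by norm_num))).1
  have e2 := (nat_of (hD i hi j hj 2 (by norm_num))).1
  rw [ws, Nat.cast_add, Nat.cast_mul, Nat.cast_add, Nat.cast_mul, e0, e1, e2]
  have o : ((2 ^ 127 : ℕ) : ℤ) = 2 ^ 127 := by norm_num
  rw [o]
  show (D i j 0 + 2 ^ 127) + B * ((D i j 1 + 2 ^ 127) + B * ((D i j 2 + 2 ^ 127) + B * 0)) = _
  ring

theorem val_off_nonneg {D : ℕ → ℕ → ℕ → ℤ} (hD : ∀ i < 9, ∀ j < 10, ∀ s < 3, |D i j s| ≤ 2 ^ 126) :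
    0 ≤ val D + (OFFC : ℤ) := by
  rw [val_off hD]
  exact Int.natCast_nonneg _

/-- a table of signed digits with offset -/
theorem decode {D : ℕ → ℕ → ℕ → ℤ} (hD : ∀ i < 9, ∀ j < 10, ∀ s < 3, |D i j s| ≤ 2 ^ 126) {Y : ℕ}
    (hY : (Y : ℤ) = val D + (OFFC : ℤ)) :
    Y = pk V 9 (fun i => pk B3 9 (ws (fun i j => (D i j 0 + 2 ^ 127).toNat)
      (fun i j => (D i j 1 + 2 ^ 127).toNat) (fun i j => (D i j 2 + 2 ^ 127).toNat) i) +
      B3 ^ 9 * ws (fun i j => (D i j 0 + 2 ^ 127).toNat)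
      (fun i j => (D i j 1 + 2 ^ 127).toNat) (fun i j => (D i j 2 + 2 ^ 127).toNat) i 9) := by
  rw [val_off hD] at hY
  have h2 : Y = pk V 9 (fun i => pk B3 10 (fun j => ws (fun i j => (D i j 0 + 2 ^ 127).toNat)
      (fun i j => (D i j 1 + 2 ^ 127).toNat) (fun i j => (D i j 2 + 2 ^ 127).toNat) i j)) := by
    exact_mod_cast hY
  rw [h2]
  refine pk_congr _ _ _ _ fun i _ => ?_
  rw [pk_last]

/-- offset of a signed number -/
theorem zoffC_cast {x : Z} (h : 0 ≤ zv x + (OFFC : ℤ)) : ((zoffC x : ℕ) : ℤ) = zv x + (OFFC : ℤ) := by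
  cases x with
  | p n =>
    show ((OFFC + n : ℕ) : ℤ) = (n : ℤ) + (OFFC : ℤ)
    rw [Nat.cast_add]
    ring
  | m n =>
    have h1 : 0 ≤ -(n : ℤ) + (OFFC : ℤ) := h
    have h2 : n ≤ OFFC := by
      have : (n : ℤ) ≤ (OFFC : ℤ) := by linarith
      exact_mod_cast this
    show ((OFFC - n : ℕ) : ℤ) = -(n : ℤ) + (OFFC : ℤ)
    rw [Nat.cast_sub h2]
    ring

end Pool.Agent.Helper90.C9
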