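import Pool.Agent.Helper90.C9.C9H

/-!
Row K9 (MP_c75db0), digits of 128 bits. Part I: THE LEAF THEOREM `tfC_ok`.
-/

set_option autoImplicit false
noncomputable section
namespace Pool.Agent.Helper90.C9

open Pool.Agent.Helper90.K9 (pk pz pk_zero pk_succ pz_succ pk_cast pk_congr pz_congr pk_add pz_add
  pz_sub pk_smul pz_smul pz_last pk_last pk_split pk_nest pk_lt pk_inj land_split shl_pk land_pk
  drop_pk G G_succ G_congr G_add G_outer G_err sq_sum_le G_diag G_schur)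
open Finset hiding val
open Pool.Agent.Helper86.C75 (Z)
open Pool.Agent.Helper90.KMO (zv zv_sub)

/-- a diagonal form -/
theorem G_diagR : ∀ (n : ℕ) (D : ℕ → ℕ → ℂ) (c : ℕ → ℝ) (v : ℕ → ℂ),
    (∀ i < n, D i i = c i) → (∀ i < n, ∀ j < n, i < j → D i j = 0) →
    G n D v = ∑ i ∈ range n, c i * ‖v i‖ ^ 2
  | 0, _, c, _, _, _ => by
    show (0 : ℝ) = ∑ i ∈ range 0, _
    simp
  | n + 1, D, c, v, h1, h2 => by
    have ih := G_diagR n (fun i j => D (i + 1) (j + 1)) (fun i => c (i + 1)) (fun i => v (i + 1))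
      (fun i hi => h1 (i + 1) (Nat.succ_lt_succ hi))
      (fun i hi j hj hij => h2 (i + 1) (Nat.succ_lt_succ hi) (j + 1) (Nat.succ_lt_succ hj)
        (Nat.succ_lt_succ hij))
    rw [G_succ, ih, Finset.sum_range_succ', h1 0 (Nat.succ_pos n), Complex.ofReal_re]
    have : ∑ j ∈ range n, D 0 (j + 1) * v (j + 1) = 0 := Finset.sum_eq_zero fun j hj => by
      rw [h2 0 (Nat.succ_pos n) (j + 1) (Nat.succ_lt_succ (Finset.mem_range.mp hj)) (Nat.succ_pos j),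
        zero_mul]
    rw [this, mul_zero, Complex.zero_re]
    ring

theorem q68_bound {w : ℤ} (h : |w| ≤ 2 ^ 126) : -2 ^ 58 ≤ w / 2 ^ 68 ∧ w / 2 ^ 68 ≤ 2 ^ 58 := by
  obtain ⟨h1, h2⟩ := abs_le.mp h
  constructor
  · rw [Int.le_ediv_iff_mul_le (by norm_num)]
    have : (-2 ^ 58 * 2 ^ 68 : ℤ) = -2 ^ 126 := by norm_num
    rw [this]; exact h1
  · have h3 : w / 2 ^ 68 ≤ 2 ^ 126 / 2 ^ 68 := Int.ediv_le_ediv (by norm_num) h2
    have h4 : ((2 : ℤ) ^ 126 / 2 ^ 68) = 2 ^ 58 := by norm_num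
    rw [h4] at h3
    exact h3

theorem slot_id (A0 A1 A2 C0 C1 : ℕ) (h : A2 ≤ A0 + C0) :
    A0 + B * A1 + (C0 + B * C1) = (A0 + C0 - A2) + B * (A1 + C1) + A2 := by
  obtain ⟨c, hc⟩ := Nat.exists_eq_add_of_le h
  rw [hc, Nat.add_sub_cancel_left]
  calc A0 + B * A1 + (C0 + B * C1) = (A0 + C0) + B * (A1 + C1) := by ring
    _ = A2 + c + B * (A1 + C1) := by rw [hc]
    _ = _ := by ring

/-- the shifted matrix -/
theorem tNC_eq {D : ℕ → ℕ → ℕ → ℤ} (hD : ∀ i < 9, ∀ j < 10, ∀ s < 3, |D i j s| ≤ 2 ^ 126) {Y : ℕ}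
    (hY : (Y : ℤ) = val D + (OFFC : ℤ)) {R : ℕ → ℕ} (hR : ∀ i < 9, R i ≤ 2 ^ 36) :
    ∃ d1 e1 : ℕ → ℕ → ℕ, tNC (pk (V * B3) 9 R) Y = pk V 9 (fun i => pk B3 9 (s2 d1 e1 i)) ∧
      (∀ i < 9, ∀ j < 9, d1 i j < B ∧ e1 i j < B ∧
        (d1 i j : ℤ) = D i j 0 / 2 ^ 68 - D i j 2 / 2 ^ 68 + 2 ^ 59 + 2 ^ 36 -
          ((if j = i then R i else 0 : ℕ) : ℤ) ∧
        (e1 i j : ℤ) = D i j 1 / 2 ^ 68 + 9 * 2 ^ 58 + 2 ^ 36) := by
  set w0 : ℕ → ℕ → ℕ := fun i j => (D i j 0 + 2 ^ 127).toNat with hw0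
  set w1 : ℕ → ℕ → ℕ := fun i j => (D i j 1 + 2 ^ 127).toNat with hw1
  set w2 : ℕ → ℕ → ℕ := fun i j => (D i j 2 + 2 ^ 127).toNat with hw2
  have l0 : ∀ i < 9, ∀ j < 10, w0 i j < B := fun i hi j hj => (nat_of (hD i hi j hj 0 (by norm_num))).2
  have l1 : ∀ i < 9, ∀ j < 10, w1 i j < B := fun i hi j hj => (nat_of (hD i hi j hj 1 (by norm_num))).2
  have l2 : ∀ i < 9, ∀ j < 10, w2 i j < B := fun i hi j hj => (nat_of (hD i hi j hj 2 (by norm_num))).2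
  have hdec := decode hD hY
  have hz : ∀ i < 9, ws w0 w1 w2 i 9 < B3 := fun i hi =>
    ws_lt (l0 i hi 9 (by norm_num)) (l1 i hi 9 (by norm_num)) (l2 i hi 9 (by norm_num))
  have h1 := m68 w0 w1 w2 (fun i => ws w0 w1 w2 i 9) (fun i hi j hj => l0 i hi j (by omega))
    (fun i hi j hj => l1 i hi j (by omega)) (fun i hi j hj => l2 i hi j (by omega)) hz
  have h2 := m324 w0 w1 w2 (fun i => ws w0 w1 w2 i 9) (fun i hi j hj => l0 i hi j (by omega))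
    (fun i hi j hj => l1 i hi j (by omega)) (fun i hi j hj => l2 i hi j (by omega)) hz
  rw [← hdec] at h1 h2
  have s0 : ∀ i < 9, ∀ j < 9, ((w0 i j >>> 68 : ℕ) : ℤ) = D i j 0 / 2 ^ 68 + 2 ^ 59 := fun i hi j hj =>
    sh68_cast (nat_of (hD i hi j (by omega) 0 (by norm_num))).1
  have s1 : ∀ i < 9, ∀ j < 9, ((w1 i j >>> 68 : ℕ) : ℤ) = D i j 1 / 2 ^ 68 + 2 ^ 59 := fun i hi j hj =>
    sh68_cast (nat_of (hD i hi j (by omega) 1 (by norm_num))).1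
  have s2' : ∀ i < 9, ∀ j < 9, ((w2 i j >>> 68 : ℕ) : ℤ) = D i j 2 / 2 ^ 68 + 2 ^ 59 := fun i hi j hj =>
    sh68_cast (nat_of (hD i hi j (by omega) 2 (by norm_num))).1
  set d1 : ℕ → ℕ → ℕ := fun i j => (w0 i j >>> 68) + (2 ^ 59 + 2 ^ 36) -
    ((w2 i j >>> 68) + (if j = i then R i else 0)) with hd1
  set e1 : ℕ → ℕ → ℕ := fun i j => (w1 i j >>> 68) + (7 * 2 ^ 58 + 2 ^ 36) with he1
  have rb : ∀ i < 9, ∀ j < 9, (if j = i then R i else 0 : ℕ) ≤ 2 ^ 36 := fun i hi j _ => by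
    split_ifs
    · exact hR i hi
    · exact Nat.zero_le _
  have k0 : ∀ i < 9, ∀ j < 9, (w2 i j >>> 68) + (if j = i then R i else 0) ≤
      (w0 i j >>> 68) + (2 ^ 59 + 2 ^ 36) := by
    intro i hi j hj
    have f0 := (q68_bound (hD i hi j (by omega) 0 (by norm_num))).1
    have f2 := (q68_bound (hD i hi j (by omega) 2 (by norm_num))).2
    have r := rb i hi j hj
    have r' : ((if j = i then R i else 0 : ℕ) : ℤ) ≤ 2 ^ 36 := by exact_mod_cast r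
    have h4 : (((w2 i j >>> 68) + (if j = i then R i else 0) : ℕ) : ℤ) ≤
        (((w0 i j >>> 68) + (2 ^ 59 + 2 ^ 36) : ℕ) : ℤ) := by
      rw [Nat.cast_add, Nat.cast_add, s0 i hi j hj, s2' i hi j hj]
      have : ((2 ^ 59 + 2 ^ 36 : ℕ) : ℤ) = 2 ^ 59 + 2 ^ 36 := by norm_num
      rw [this]
      have e1 : (2 : ℤ) ^ 59 = 2 * 2 ^ 58 := by norm_num
      rw [e1]
      linarith
    exact_mod_cast h4
  refine ⟨d1, e1, ?_, ?_⟩
  · show ((Y >>> 68) &&& MVC01) + CCC - (((Y >>> 324) &&& MVC0) + pk (V * B3) 9 R) = _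
    rw [h1, h2, CCC_eq, diag_pk]
    have hsum : pk V 9 (fun i => pk B3 9 (fun j => (w0 i j >>> 68) + B * (w1 i j >>> 68))) +
        pk V 9 (fun _ => pk B3 9 (fun _ => (2 ^ 59 + 2 ^ 36) + B * (7 * 2 ^ 58 + 2 ^ 36))) =
        pk V 9 (fun i => pk B3 9 (s2 d1 e1 i)) +
        (pk V 9 (fun i => pk B3 9 (fun j => w2 i j >>> 68)) +
          pk V 9 (fun i => pk B3 9 (fun j => if j = i then R i else 0))) := by
      rw [pk_add, pk_add, pk_add]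
      refine pk_congr _ _ _ _ fun i hi => ?_
      rw [pk_add, pk_add, pk_add]
      refine pk_congr _ _ _ _ fun j hj => ?_
      exact slot_id _ _ _ _ _ (k0 i hi j hj)
    rw [hsum, Nat.add_sub_cancel]
  · intro i hi j hj
    have g0 := k0 i hi j hj
    have t0 := s0 i hi j hj
    have t1 := s1 i hi j hj
    have t2 := s2' i hi j hj
    have v0 := sh68_lt (l0 i hi j (by omega))
    have v1 := sh68_lt (l1 i hi j (by omega))
    have pB : (2 : ℕ) ^ 60 + (7 * 2 ^ 58 + 2 ^ 36) < B := by unfold B; norm_num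
    refine ⟨?_, ?_, ?_, ?_⟩
    · show (w0 i j >>> 68) + (2 ^ 59 + 2 ^ 36) - ((w2 i j >>> 68) + (if j = i then R i else 0)) < B
      have h1 : (w0 i j >>> 68) + (2 ^ 59 + 2 ^ 36) - ((w2 i j >>> 68) + (if j = i then R i else 0)) ≤
        2 ^ 60 + (7 * 2 ^ 58 + 2 ^ 36) := by
        have : (2 : ℕ) ^ 59 ≤ 7 * 2 ^ 58 := by norm_num
        omega
      exact lt_of_le_of_lt h1 pB
    · show (w1 i j >>> 68) + (7 * 2 ^ 58 + 2 ^ 36) < B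
      have h1 : (w1 i j >>> 68) + (7 * 2 ^ 58 + 2 ^ 36) ≤ 2 ^ 60 + (7 * 2 ^ 58 + 2 ^ 36) := by omega
      exact lt_of_le_of_lt h1 pB
    · show (((w0 i j >>> 68) + (2 ^ 59 + 2 ^ 36) - ((w2 i j >>> 68) + (if j = i then R i else 0)) : ℕ)
        : ℤ) = _
      have o : ((2 ^ 59 + 2 ^ 36 : ℕ) : ℤ) = 2 ^ 59 + 2 ^ 36 := by norm_num
      rw [Nat.cast_sub g0, Nat.cast_add, Nat.cast_add (w2 i j >>> 68), o, t0, t2]
      ring
    · show (((w1 i j >>> 68) + (7 * 2 ^ 58 + 2 ^ 36) : ℕ) : ℤ) = _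
      have o : ((7 * 2 ^ 58 + 2 ^ 36 : ℕ) : ℤ) = 9 * 2 ^ 58 - 2 ^ 59 + 2 ^ 36 := by norm_num
      rw [Nat.cast_add, o, t1]
      ring

/-- floor division -/
theorem fl68 (w : ℤ) : ((w / 2 ^ 68 : ℤ) : ℝ) ≤ (w : ℝ) / 2 ^ 68 ∧
    (w : ℝ) / 2 ^ 68 < ((w / 2 ^ 68 : ℤ) : ℝ) + 1 := by
  constructor
  · rw [le_div_iff₀ (by positivity)]
    have h : w / 2 ^ 68 * 2 ^ 68 ≤ w := Int.ediv_mul_le w (by norm_num)
    exact_mod_cast h
  · rw [div_lt_iff₀ (by positivity)]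
    have h : w < (w / 2 ^ 68 + 1) * 2 ^ 68 := Int.lt_ediv_add_one_mul_self w (by norm_num)
    exact_mod_cast h

theorem norm_le_of {z : ℂ} (h1 : -1 ≤ z.re ∧ z.re ≤ 1) (h2 : -1 ≤ z.im ∧ z.im ≤ 1) :
    ‖z‖ ≤ 3 / 2 := by
  have h : ‖z‖ ^ 2 ≤ (3 / 2) ^ 2 := by
    rw [← Complex.normSq_eq_norm_sq, Complex.normSq_apply]
    nlinarith [h1.1, h1.2, h2.1, h2.2]
  exact (sq_le_sq₀ (norm_nonneg _) (by norm_num)).mp h

/-- LEAF THEOREM -/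
theorem leaf_sound {x : Z} {D : ℕ → ℕ → ℕ → ℤ}
    (hD : ∀ i < 9, ∀ j < 10, ∀ s < 3, |D i j s| ≤ 2 ^ 126) (hz : zv x = val D)
    {R : ℕ → ℕ} (hR : ∀ i < 9, R i ≤ 2 ^ 36) {RD : ℕ} (hRD : RD = pk (V * B3) 9 R)
    (h : tfC RD x = true) (v : ℕ → ℂ) :
    ∑ i ∈ range 9, ((R i : ℝ) - 1238) * ‖v i‖ ^ 2 ≤
      G 9 (fun i j => ⟨((D i j 0 : ℝ) - D i j 2) / 2 ^ 68, (D i j 1 : ℝ) / 2 ^ 68⟩) v := by
  have hY : ((zoffC x : ℕ) : ℤ) = val D + (OFFC : ℤ) := by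
    rw [zoffC_cast (by rw [hz]; exact val_off_nonneg hD), hz]
  obtain ⟨d1, e1, hN, hE⟩ := tNC_eq hD hY hR
  rw [← hRD] at hN
  have h' : tfC2 (tNC RD (zoffC x)) = true := h
  rw [hN] at h'
  have hsel : sel (Nat.beq (Nat.land (pk V 9 (fun i => pk B3 9 (s2 d1 e1 i))) hi9) rs)
      (pdx (pk V 9 (fun i => pk B3 9 (s2 d1 e1 i)))) = true := h'
  obtain ⟨h1, h2'⟩ := sel_true hsel
  have h1' : pk V 9 (fun i => pk B3 9 (s2 d1 e1 i)) &&& hi9 = rs := Nat.eq_of_beq_eq_true h1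
  obtain ⟨u, hu⟩ : ∃ u : ℕ → ℕ, ∀ i, u i = 0 := ⟨fun _ => 0, fun _ => rfl⟩
  have hN' : pk V 9 (fun i => pk B3 9 (s2 d1 e1 i)) =
      pk V 9 (fun i => pk B3 9 (s2 d1 e1 i) + B3 ^ 9 * u i) :=
    pk_congr _ _ _ _ fun i _ => by rw [hu, Nat.mul_zero, Nat.add_zero]
  rw [hi9_eq, rs_eq] at h1'
  have h1'' := h1'
  rw [hN'] at h1''
  have hRg := range_test (n := 9) (d := d1) (e := e1) (u := u) le_rfl (2 ^ 59) (9 * 2 ^ 58)
    (by unfold B; norm_num) (by unfold B; norm_num)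
    (fun i hi j hj => (hE i hi j hj).1) (fun i hi j hj => (hE i hi j hj).2.1)
    (fun i _ => by rw [hu]; exact pow_pos B3_pos _) h1''
  set d2 : ℕ → ℕ → ℕ := fun i j => d1 i j % 2 ^ 37 with hd2
  set e2 : ℕ → ℕ → ℕ := fun i j => e1 i j % 2 ^ 37 with he2
  have hsub : pk V 9 (fun i => pk B3 9 (s2 d1 e1 i)) =
      pk V 9 (fun i => pk B3 9 (sl 9 d2 e2 i) + B3 ^ 9 * u i) := by
    rw [hN']
    refine pk_congr _ _ _ _ fun i hi => ?_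
    have : pk B3 9 (s2 d1 e1 i) = pk B3 9 (sl 9 d2 e2 i) := by
      refine pk_congr _ _ _ _ fun j hj => ?_
      obtain ⟨g1, g2⟩ := hRg i hi j hj
      show d1 i j + B * e1 i j = (d1 i j % 2 ^ 37 + 2 ^ 59) + B * (e1 i j % 2 ^ 37 + 9 * 2 ^ 58)
      rw [Nat.add_comm (d1 i j % 2 ^ 37), Nat.add_comm (e1 i j % 2 ^ 37)]
      exact congrArg₂ (fun a b => a + B * b) g1 g2
    rw [this]
  have hmod : ∀ x : ℕ, x % 2 ^ 37 < 2 ^ 37 := fun x => Nat.mod_lt _ (by positivity)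
  have hG := pdx_inv (d := d2) (e := e2) (u := u) ⟨fun i _ j _ => hmod _, fun i _ j _ => hmod _,
    fun i _ => by rw [hu]; exact pow_pos B3_pos _, hsub⟩ h2' v
  -- values of the digits
  have hdv : ∀ i < 9, ∀ j < 9, ((d2 i j : ℕ) : ℝ) - 2 ^ 36 = ((D i j 0 / 2 ^ 68 : ℤ) : ℝ) -
      ((D i j 2 / 2 ^ 68 : ℤ) : ℝ) - ((if j = i then R i else 0 : ℕ) : ℝ) := by
    intro i hi j hj
    obtain ⟨_, _, g3, _⟩ := hE i hi j hj
    obtain ⟨g1, _⟩ := hRg i hi j hj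
    have g5 : ((d1 i j : ℕ) : ℤ) = 2 ^ 59 + ((d2 i j : ℕ) : ℤ) := by
      have o : ((2 ^ 59 : ℕ) : ℤ) = 2 ^ 59 := by norm_num
      rw [← o, ← Nat.cast_add, ← g1]
    rw [g3] at g5
    have g6 : ((d2 i j : ℕ) : ℤ) = D i j 0 / 2 ^ 68 - D i j 2 / 2 ^ 68 + 2 ^ 36 -
        ((if j = i then R i else 0 : ℕ) : ℤ) := by linarith
    have g7 := congrArg (Int.cast : ℤ → ℝ) g6
    rw [Int.cast_natCast, Int.cast_sub, Int.cast_add, Int.cast_sub, Int.cast_natCast] at g7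
    rw [g7]
    norm_num
    ring
  have hev : ∀ i < 9, ∀ j < 9, ((e2 i j : ℕ) : ℝ) - 2 ^ 36 = ((D i j 1 / 2 ^ 68 : ℤ) : ℝ) := by
    intro i hi j hj
    obtain ⟨_, _, _, g3⟩ := hE i hi j hj
    obtain ⟨_, g1⟩ := hRg i hi j hj
    have g5 : ((e1 i j : ℕ) : ℤ) = 9 * 2 ^ 58 + ((e2 i j : ℕ) : ℤ) := by
      have o : ((9 * 2 ^ 58 : ℕ) : ℤ) = 9 * 2 ^ 58 := by norm_num
      rw [← o, ← Nat.cast_add, ← g1]
    rw [g3] at g5
    have g6 : ((e2 i j : ℕ) : ℤ) = D i j 1 / 2 ^ 68 + 2 ^ 36 := by linarith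
    have g7 := congrArg (Int.cast : ℤ → ℝ) g6
    rw [Int.cast_natCast, Int.cast_add] at g7
    rw [g7]
    norm_num
  -- the error matrix
  set E : ℕ → ℕ → ℂ := fun i j => ⟨((D i j 0 : ℝ) - D i j 2) / 2 ^ 68 -
    (((D i j 0 / 2 ^ 68 : ℤ) : ℝ) - ((D i j 2 / 2 ^ 68 : ℤ) : ℝ)),
    (D i j 1 : ℝ) / 2 ^ 68 - ((D i j 1 / 2 ^ 68 : ℤ) : ℝ)⟩ with hEdef
  have hEb : ∀ i < 9, ∀ j < 9, i ≤ j → ‖E i j‖ ≤ 3 / 2 := by
    intro i _ j _ _
    have a0 := fl68 (D i j 0)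
    have a1 := fl68 (D i j 1)
    have a2 := fl68 (D i j 2)
    have hre : |(E i j).re| ≤ 1 := by
      show |((D i j 0 : ℝ) - D i j 2) / 2 ^ 68 -
        (((D i j 0 / 2 ^ 68 : ℤ) : ℝ) - ((D i j 2 / 2 ^ 68 : ℤ) : ℝ))| ≤ 1
      rw [sub_div, abs_le]
      constructor
      · linarith [a0.1, a0.2, a2.1, a2.2]
      · linarith [a0.1, a0.2, a2.1, a2.2]
    have him : |(E i j).im| ≤ 1 := by
      show |(D i j 1 : ℝ) / 2 ^ 68 - ((D i j 1 / 2 ^ 68 : ℤ) : ℝ)| ≤ 1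
      rw [abs_le]
      constructor
      · linarith [a1.1, a1.2]
      · linarith [a1.1, a1.2]
    exact norm_le_of (abs_le.mp hre) (abs_le.mp him)
  have hsplit : G 9 (fun i j => (⟨((D i j 0 : ℝ) - D i j 2) / 2 ^ 68, (D i j 1 : ℝ) / 2 ^ 68⟩ : ℂ)) v =
      G 9 (fun i j => Mx d2 e2 i j + ((((if j = i then R i else 0 : ℕ) : ℝ) : ℂ) + E i j)) v := by
    refine G_congr 9 _ _ v fun i hi j hj _ => ?_
    apply Complex.ext
    · show ((D i j 0 : ℝ) - D i j 2) / 2 ^ 68 = (((d2 i j : ℕ) : ℝ) - 2 ^ 36) +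
        (((if j = i then R i else 0 : ℕ) : ℝ) + (((D i j 0 : ℝ) - D i j 2) / 2 ^ 68 -
          (((D i j 0 / 2 ^ 68 : ℤ) : ℝ) - ((D i j 2 / 2 ^ 68 : ℤ) : ℝ))))
      rw [hdv i hi j hj]
      ring
    · show (D i j 1 : ℝ) / 2 ^ 68 = (((e2 i j : ℕ) : ℝ) - 2 ^ 36) +
        (0 + ((D i j 1 : ℝ) / 2 ^ 68 - ((D i j 1 / 2 ^ 68 : ℤ) : ℝ)))
      rw [hev i hi j hj]
      ring
  rw [hsplit, G_add, G_add]
  have hdiag : G 9 (fun i j => (((if j = i then R i else 0 : ℕ) : ℝ) : ℂ)) v =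
      ∑ i ∈ range 9, (R i : ℝ) * ‖v i‖ ^ 2 :=
    G_diagR 9 _ (fun i => (R i : ℝ)) v (fun i _ => by rw [if_pos rfl])
      (fun i _ j _ hij => by
        show ((((if j = i then R i else 0 : ℕ) : ℝ)) : ℂ) = 0
        rw [if_neg (by omega)]; norm_num)
  have herr := G_err (by norm_num : (0 : ℝ) ≤ 3 / 2) 9 E v hEb
  have hsum := sq_sum_le 9 (fun i => ‖v i‖)
  rw [hdiag]
  have e1 : ∑ i ∈ range 9, ((R i : ℝ) - 1238) * ‖v i‖ ^ 2 =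
      ∑ i ∈ range 9, (R i : ℝ) * ‖v i‖ ^ 2 - 1238 * ∑ i ∈ range 9, ‖v i‖ ^ 2 := by
    rw [Finset.mul_sum, ← Finset.sum_sub_distrib]
    exact Finset.sum_congr rfl fun i _ => by ring
  rw [e1]
  have hnn : (0 : ℝ) ≤ ∑ i ∈ range 9, ‖v i‖ ^ 2 := Finset.sum_nonneg fun i _ => by positivity
  push_cast at hsum
  linarith

/-- radii at the digits `33 K` -/
def RdC (R : ℕ → ℕ) : ℕ := ∑ K ∈ range 9, R K * (2 ^ 128) ^ (33 * K)

theorem RdC_eq (R : ℕ → ℕ) : RdC R = pk (V * B3) 9 R := by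
  rw [pk_sum]
  unfold RdC
  refine Finset.sum_congr rfl fun K _ => ?_
  have h : V * B3 = (2 ^ 128) ^ 33 := by
    unfold V B3
    rw [← pow_add, ← pow_mul]
  rw [h, pow_mul]

/-- digits of a matrix with an empty slot 9 -/
def DV (N : ℕ → ℕ → Fin 3 → ℤ) (i j s : ℕ) : ℤ := if j < 9 then (if s = 0 then N i j 0 else
  if s = 1 then N i j 1 else N i j 2) else 0

theorem cB : (B : ℤ) = 2 ^ 128 := by
  have h : (B : ℕ) = 2 ^ 128 := rfl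
  rw [h, Nat.cast_pow]; rfl
theorem cB3 : (B3 : ℤ) = (2 ^ 128) ^ 3 := by
  rw [B3_eq, Nat.cast_mul, Nat.cast_mul, cB]; ring
theorem cV : (V : ℤ) = (2 ^ 128) ^ 30 := by
  rw [V_eq, Nat.cast_pow, cB3, ← pow_mul]

theorem val_DV (N : ℕ → ℕ → Fin 3 → ℤ) :
    (∑ K ∈ range 9, ∑ L ∈ range 9, (N K L 0 + N K L 1 * 2 ^ 128 + N K L 2 * (2 ^ 128) ^ 2) *
      (((2 ^ 128) ^ 30) ^ K * ((2 ^ 128) ^ 3) ^ L)) = val (DV N) := by
  unfold val
  rw [pz_sum]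
  refine Finset.sum_congr rfl fun i _ => ?_
  rw [pz_last]
  have h9 : pz (B : ℤ) 3 (DV N i 9) = 0 := by
    show (0 : ℤ) + B * (0 + B * (0 + B * 0)) = 0
    ring
  rw [h9, mul_zero, add_zero, pz_sum, Finset.sum_mul]
  refine Finset.sum_congr rfl fun j hj => ?_
  have hj' := Finset.mem_range.mp hj
  have e : ∀ s, DV N i j s = (if s = 0 then N i j 0 else if s = 1 then N i j 1 else N i j 2) :=
    fun s => if_pos hj'
  show _ = (DV N i j 0 + B * (DV N i j 1 + B * (DV N i j 2 + B * 0))) * (B3 : ℤ) ^ j * (V : ℤ) ^ i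
  rw [e 0, e 1, e 2, if_pos rfl, if_neg (by norm_num), if_pos rfl, if_neg (by norm_num),
    if_neg (by norm_num), cB, cB3, cV]
  ring

/-- THE LEAF THEOREM -/
theorem tfC_ok {N : ℕ → ℕ → Fin 3 → ℤ} {x : Z}
    (hx : zv x = ∑ K ∈ range 9, ∑ L ∈ range 9,
      (N K L 0 + N K L 1 * 2 ^ 128 + N K L 2 * (2 ^ 128) ^ 2) *
      (((2 ^ 128) ^ 30) ^ K * ((2 ^ 128) ^ 3) ^ L))
    (hb : ∀ K L, K < 9 → L < 9 → ∀ e, |N K L e| ≤ 2 ^ 126) {R : ℕ → ℕ}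
    (hR : ∀ K < 9, R K ≤ 2 ^ 36) (ht : tfC (RdC R) x = true) (v : ℕ → ℂ) :
    ∑ K ∈ range 9, ((R K : ℝ) - 1238) * ‖v K‖ ^ 2 ≤
      G 9 (fun K L => (((N K L 0 - N K L 2 : ℤ) : ℂ) + ((N K L 1 : ℤ) : ℂ) * Complex.I) / 2 ^ 68) v := by
  have hD : ∀ i < 9, ∀ j < 10, ∀ s < 3, |DV N i j s| ≤ 2 ^ 126 := by
    intro i hi j _ s _
    unfold DV
    split_ifs with h1 h2 h3
    · exact hb i j hi h1 0
    · exact hb i j hi h1 1
    · exact hb i j hi h1 2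
    · rw [abs_zero]; positivity
  have h := leaf_sound hD (by rw [← val_DV]; exact hx) (R := R) hR (RdC_eq R) ht v
  refine h.trans (le_of_eq (G_congr 9 _ _ v fun i hi j hj _ => ?_))
  have e : ∀ s, DV N i j s = (if s = 0 then N i j 0 else if s = 1 then N i j 1 else N i j 2) :=
    fun s => if_pos hj
  rw [e 0, e 1, e 2, if_pos rfl, if_neg (by norm_num), if_pos rfl, if_neg (by norm_num),
    if_neg (by norm_num)]
  have h68 : ((2 : ℂ) ^ 68) = (((2 : ℝ) ^ 68 : ℝ) : ℂ) := by push_cast; rfl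
  rw [h68]
  apply Complex.ext
  · rw [Complex.div_ofReal_re]
    simp
  · rw [Complex.div_ofReal_im]
    simp

end Pool.Agent.Helper90.C9
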